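import Pool.Agent.Lib.Cx.Expr

/-!
The class `LS` of functions between encoded types whose output lengths and output bits are given
by polynomially bounded expressions (implicit logarithmic-space computability).
-/

namespace Pool.Agent.Lib.Cx

open Finset

theorem peval_mono (p : Polynomial ℕ) {a b : ℕ} (h : a ≤ b) : p.eval a ≤ p.eval b := by
  induction p using Polynomial.induction_on' with
  | add p q hp hq => simp only [Polynomial.eval_add]; omega
  | monomial n c =>
    simp only [Polynomial.eval_monomial]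
    exact Nat.mul_le_mul_left _ (Nat.pow_le_pow_left h _)

/-- Types encoded by a fixed number of bit strings. -/
class Obj (α : Type) where
  /-- number of components -/
  ar : ℕ
  /-- the components -/
  enc : α → Env
  enc_ge : ∀ a j, ar ≤ j → enc a j = []
  enc_inj : Function.Injective enc

open Obj

/-- The size of an encoded object. -/
def sz {α : Type} [Obj α] (a : α) : ℕ := ∑ j ∈ range (ar α), (enc a j).length

theorem length_enc_le_sz {α : Type} [Obj α] (a : α) (j : ℕ) : (enc a j).length ≤ sz a := by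
  by_cases h : j < ar α
  · exact Finset.single_le_sum (f := fun j => (enc a j).length) (fun _ _ => Nat.zero_le _)
      (Finset.mem_range.2 h)
  · rw [enc_ge a j (by omega)]; simp

/-- The environment with a single string. -/
def Env.one (s : List Bool) : Env := Env.cons s (fun _ => [])

@[simp] theorem Env.one_zero (s : List Bool) : Env.one s 0 = s := rfl
@[simp] theorem Env.one_succ (s : List Bool) (j : ℕ) : Env.one s (j + 1) = [] := rfl

/-- An encoding by a single string. -/
@[reducible] def Obj.single {α : Type} (c : α → List Bool) (hc : Function.Injective c) : Obj α where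
  ar := 1
  enc a := Env.one (c a)
  enc_ge a j h := by
    rcases j with _ | j
    · omega
    · rfl
  enc_inj a b h := hc (congrFun h 0)

/-- Pull back an encoding along an injection. -/
@[reducible] def Obj.ofInj {α β : Type} [Obj β] (c : α → β) (hc : Function.Injective c) :
    Obj α where
  ar := ar β
  enc a := enc (c a)
  enc_ge _ j h := enc_ge _ j h
  enc_inj _ _ h := hc (enc_inj h)

theorem un_inj : Function.Injective un := fun a b h => by simpa using congrArg List.length h

instance : Obj ℕ := Obj.single un un_inj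

instance : Obj Bool := Obj.ofInj Bool.toNat (fun a b h => by cases a <;> cases b <;> simp_all)

instance : Obj Unit where
  ar := 0
  enc _ _ := []
  enc_ge _ _ _ := rfl
  enc_inj _ _ _ := rfl

instance (n : ℕ) : Obj (Fin n) := Obj.ofInj Fin.val Fin.val_injective

instance {α β : Type} [Obj α] [Obj β] : Obj (α × β) where
  ar := ar α + ar β
  enc p j := if j < ar α then enc p.1 j else enc p.2 (j - ar α)
  enc_ge p j h := by
    rw [if_neg (by omega)]; exact enc_ge _ _ (by omega)
  enc_inj p q h := by
    ext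
    · apply enc_inj; funext j
      by_cases hj : j < ar α
      · simpa [hj] using congrFun h j
      · rw [enc_ge _ _ (by omega), enc_ge _ _ (by omega)]
    · apply enc_inj; funext j
      simpa using congrFun h (j + ar α)

/-- Raw bit strings. -/
def Str : Type := List Bool

instance : Obj Str := Obj.single (fun s : Str => (s : List Bool)) (fun _ _ h => h)

/-- A raw string from a list of bits. -/
def Str.mk (s : List Bool) : Str := s
/-- The bits of a raw string. -/
def Str.val (s : Str) : List Bool := s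

@[simp] theorem Str.val_mk (s : List Bool) : (Str.mk s).val = s := rfl
@[simp] theorem Str.mk_val (s : Str) : Str.mk s.val = s := rfl

@[simp] theorem ar_nat : ar ℕ = 1 := rfl
@[simp] theorem ar_str : ar Str = 1 := rfl
theorem enc_nat (n : ℕ) : enc n = Env.one (un n) := rfl
theorem enc_str (s : Str) : enc s = Env.one s.val := rfl
theorem enc_bool (b : Bool) : enc b = Env.one (un b.toNat) := rfl
@[simp] theorem sz_nat (n : ℕ) : sz n = n := by simp [sz, enc_nat]
@[simp] theorem sz_str (s : Str) : sz s = s.val.length := by simp [sz, enc_str]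

theorem ar_prod (α β : Type) [Obj α] [Obj β] : ar (α × β) = ar α + ar β := rfl

theorem enc_prod {α β : Type} [Obj α] [Obj β] (p : α × β) (j : ℕ) :
    enc p j = if j < ar α then enc p.1 j else enc p.2 (j - ar α) := rfl

theorem enc_nat_prod {α : Type} [Obj α] (i : ℕ) (a : α) :
    enc (i, a) = Env.cons (un i) (enc a) := by
  funext j
  rcases j with _ | j
  · simp [enc_prod, enc_nat]
  · simp [enc_prod]

@[simp] theorem sz_prod {α β : Type} [Obj α] [Obj β] (a : α) (b : β) :
    sz (a, b) = sz a + sz b := by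
  simp only [sz, ar_prod, Finset.sum_range_add, enc_prod]
  congr 1
  · exact Finset.sum_congr rfl fun j hj => by rw [if_pos (Finset.mem_range.1 hj)]
  · exact Finset.sum_congr rfl fun j _ => by simp

theorem sz_prod' {α β : Type} [Obj α] [Obj β] (p : α × β) : sz p = sz p.1 + sz p.2 :=
  sz_prod p.1 p.2

/-- Numerical functions given by a polynomially bounded expression. -/
def NF {α : Type} [Obj α] (f : α → ℕ) : Prop :=
  ∃ (e : E) (p : Polynomial ℕ), ∀ a, e.eval (enc a) = f a ∧ e.Bdd (p.eval (sz a)) (enc a)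

/-- Functions whose output lengths and bits are given by polynomially bounded expressions. -/
@[fun_prop]
structure LS {α β : Type} [Obj α] [Obj β] (f : α → β) : Prop where
  out : ∀ j, NF (fun a => (enc (f a) j).length) ∧ NF (fun p : ℕ × α => bitv (enc (f p.2) j) p.1)

variable {α β γ : Type} [Obj α] [Obj β] [Obj γ]

namespace NF

theorem congr {f g : α → ℕ} (h : NF f) (e : ∀ a, f a = g a) : NF g := by
  rwa [show g = f from funext fun a => (e a).symm]

theorem bound {f : α → ℕ} (h : NF f) : ∃ p : Polynomial ℕ, ∀ a, f a ≤ p.eval (sz a) := by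
  obtain ⟨e, p, h⟩ := h
  exact ⟨p, fun a => (h a).1 ▸ (h a).2.eval_le⟩

theorem zero : NF (fun _ : α => 0) := ⟨.zero, 0, fun _ => ⟨rfl, trivial⟩⟩

theorem succ {f : α → ℕ} (h : NF f) : NF (fun a => f a + 1) := by
  obtain ⟨e, p, h⟩ := h
  refine ⟨.succ e, p + 1, fun a => ⟨by simp [E.eval, (h a).1], (h a).2.mono (by simp), ?_⟩⟩
  simpa using (h a).2.eval_le

theorem pred {f : α → ℕ} (h : NF f) : NF (fun a => f a - 1) := by
  obtain ⟨e, p, h⟩ := h
  exact ⟨.pred e, p, fun a => ⟨by simp [E.eval, (h a).1], (h a).2⟩⟩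

theorem const (n : ℕ) : NF (fun _ : α => n) := by
  induction n with
  | zero => exact zero
  | succ n ih => exact ih.succ

theorem len (j : ℕ) : NF (fun a : α => (enc a j).length) :=
  ⟨.len j, Polynomial.X, fun a => ⟨rfl, by simpa [E.Bdd] using length_enc_le_sz a j⟩⟩

theorem bit (j : ℕ) {f : α → ℕ} (h : NF f) : NF (fun a : α => bitv (enc a j) (f a)) := by
  obtain ⟨e, p, h⟩ := h
  exact ⟨.bit j e, p + 1, fun a => ⟨by simp [E.eval, (h a).1], (h a).2.mono (by simp), by simp⟩⟩

theorem ifz {c f g : α → ℕ} (hc : NF c) (hf : NF f) (hg : NF g) :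
    NF (fun a => if c a = 0 then f a else g a) := by
  obtain ⟨e1, p1, h1⟩ := hc
  obtain ⟨e2, p2, h2⟩ := hf
  obtain ⟨e3, p3, h3⟩ := hg
  refine ⟨.ifz e1 e2 e3, p1 + p2 + p3, fun a => ⟨by simp [E.eval, (h1 a).1, (h2 a).1, (h3 a).1],
    (h1 a).2.mono ?_, fun _ => (h2 a).2.mono ?_, fun _ => (h3 a).2.mono ?_⟩⟩ <;>
  simp only [Polynomial.eval_add] <;> omega

/-- Renaming of components. -/
theorem ren {g : β → ℕ} (hg : NF g) (f : α → β) (ρ : ℕ → ℕ) (h : ∀ a j, enc (f a) j = enc a (ρ j))
    (q : Polynomial ℕ) (hq : ∀ a, sz (f a) ≤ q.eval (sz a)) : NF (fun a => g (f a)) := by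
  obtain ⟨e, p, hp⟩ := hg
  refine ⟨.ren ρ e, p.comp q, fun a => ?_⟩
  have e1 : (fun j => enc a (ρ j)) = enc (f a) := funext fun j => (h a j).symm
  simp only [E.eval, E.Bdd, e1, Polynomial.eval_comp]
  exact ⟨(hp _).1, (hp _).2.mono (peval_mono p (hq a))⟩

theorem snd {g : β → ℕ} (hg : NF g) : NF (fun p : α × β => g p.2) :=
  hg.ren Prod.snd (· + ar α) (fun a j => by simp [enc_prod]) Polynomial.X
    (fun a => by simp [sz_prod' a])

theorem fst {g : α → ℕ} (hg : NF g) : NF (fun p : α × β => g p.1) :=
  hg.ren Prod.fst (fun j => if j < ar α then j else ar α + ar β) (fun a j => by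
    by_cases h : j < ar α
    · simp [enc_prod, h]
    · rw [if_neg h, enc_ge _ _ (by omega), enc_ge _ _ (by simp [ar_prod])]) Polynomial.X
    (fun a => by simp [sz_prod' a])

/-- Bounded iteration. -/
theorem iter {n s : α → ℕ} {t : ℕ × ℕ × α → ℕ} (hn : NF n) (hs : NF s) (ht : NF t)
    (q : Polynomial ℕ)
    (hq : ∀ a i, i < n a → (Nat.rec (s a) (fun i acc => t (acc, i, a)) i : ℕ) ≤ q.eval (sz a)) :
    NF (fun a => Nat.rec (s a) (fun i acc => t (acc, i, a)) (n a)) := by
  obtain ⟨e1, p1, h1⟩ := hn
  obtain ⟨e2, p2, h2⟩ := hs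
  obtain ⟨e3, p3, h3⟩ := ht
  have key : ∀ a i, E.acc e2 e3 (enc a) i = Nat.rec (s a) (fun i acc => t (acc, i, a)) i := by
    intro a i
    induction i with
    | zero => exact (h2 a).1
    | succ i ih =>
      rw [E.acc_succ, ih, ← enc_nat_prod, ← enc_nat_prod]
      exact (h3 _).1
  refine ⟨.iter e1 e2 e3, p1 + p2 + p3.comp (q + p1 + Polynomial.X), fun a => ⟨?_, ?_, ?_, ?_⟩⟩
  · rw [E.eval_iter, key, (h1 a).1]
  · exact (h1 a).2.mono (by simp only [Polynomial.eval_add]; omega)
  · exact (h2 a).2.mono (by simp only [Polynomial.eval_add]; omega)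
  · intro i hi
    rw [← enc_nat_prod, ← enc_nat_prod]
    refine (h3 _).2.mono ?_
    have h4 := (h1 a).2.eval_le
    have h5 := hq a i ((h1 a).1 ▸ hi)
    rw [← key] at h5
    simp only [Polynomial.eval_add, Polynomial.eval_comp, Polynomial.eval_X, sz_prod, sz_nat]
    refine le_trans (peval_mono p3 ?_) (Nat.le_add_left _ _)
    omega

theorem comp {g : β → ℕ} {f : α → β} (hg : NF g) (hf : LS f) : NF (fun a => g (f a)) := by
  classical
  obtain ⟨e, p, hp⟩ := hg
  choose eL pL hL using fun j => (hf.out j).1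
  choose eB pB hB using fun j => (hf.out j).2
  let τ : ℕ → E × E := fun j => if j < ar β then (eL j, eB j) else (.zero, .zero)
  let q : Polynomial ℕ := ∑ j ∈ range (ar β), pL j
  have hq : ∀ a, sz (f a) ≤ q.eval (sz a) := fun a => by
    simp only [sz, q, Polynomial.eval_finsetSum]
    exact Finset.sum_le_sum fun j _ => le_of_eq_of_le (hL j a).1.symm (hL j a).2.eval_le
  let r : Polynomial ℕ := ∑ j ∈ range (ar β), (pB j).comp (p.comp q + Polynomial.X)
  refine ⟨e.subst τ, p.comp q + q + r, fun a => ?_⟩
  have hrep : E.Rep (p.eval (q.eval (sz a))) ((p.comp q + q + r).eval (sz a)) τ (enc a)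
      (enc (f a)) := by
    intro j
    by_cases hj : j < ar β
    · simp only [τ, if_pos hj]
      refine ⟨⟨(hL j a).1, fun _ => (hL j a).2.mono ?_⟩, fun i hi => ?_⟩
      · have : (pL j).eval (sz a) ≤ q.eval (sz a) := by
          simp only [q, Polynomial.eval_finsetSum]
          exact Finset.single_le_sum (f := fun j => (pL j).eval (sz a)) (fun _ _ => Nat.zero_le _)
            (Finset.mem_range.2 hj)
        simp only [Polynomial.eval_add]; omega
      · rw [← enc_nat_prod]
        refine ⟨(hB j (i, a)).1, (hB j (i, a)).2.mono ?_⟩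
        have h1 : ((pB j).comp (p.comp q + Polynomial.X)).eval (sz a) ≤ r.eval (sz a) := by
          simp only [r, Polynomial.eval_finsetSum]
          exact Finset.single_le_sum
            (f := fun j => ((pB j).comp (p.comp q + Polynomial.X)).eval (sz a))
            (fun _ _ => Nat.zero_le _) (Finset.mem_range.2 hj)
        have h2 : (pB j).eval (sz (i, a)) ≤ ((pB j).comp (p.comp q + Polynomial.X)).eval (sz a) := by
          simp only [Polynomial.eval_comp, Polynomial.eval_add, Polynomial.eval_X, sz_prod, sz_nat]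
          exact peval_mono _ (by omega)
        simp only [Polynomial.eval_add]; omega
    · simp only [τ, if_neg hj, enc_ge (f a) j (by omega)]
      exact ⟨⟨rfl, fun _ => trivial⟩, fun i _ => ⟨by simp [E.eval], trivial⟩⟩
  have := E.subst_spec (B := p.eval (q.eval (sz a))) (B' := (p.comp q + q + r).eval (sz a))
    (by simp only [Polynomial.eval_add, Polynomial.eval_comp]; omega) e hrep
    ((hp (f a)).2.mono (peval_mono p (hq a)))
  exact ⟨this.1.trans (hp _).1, this.2⟩

end NF

namespace LS

theorem congr {f g : α → β} (h : LS f) (e : ∀ a, f a = g a) : LS g := by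
  rwa [show g = f from funext fun a => (e a).symm]

theorem of_eq {f g : α → β} (e : ∀ a, g a = f a) (h : LS f) : LS g :=
  h.congr fun a => (e a).symm

/-- The output size is polynomially bounded. -/
theorem bound {f : α → β} (hf : LS f) : ∃ p : Polynomial ℕ, ∀ a, sz (f a) ≤ p.eval (sz a) := by
  choose p hp using fun j => (hf.out j).1.bound
  refine ⟨∑ j ∈ range (ar β), p j, fun a => ?_⟩
  simp only [sz, Polynomial.eval_finsetSum]
  exact Finset.sum_le_sum fun j _ => hp j a

theorem nat_iff {f : α → ℕ} : LS f ↔ NF f := by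
  constructor
  · intro h; simpa [enc_nat] using (h.out 0).1
  · intro h
    refine ⟨fun j => ?_⟩
    rcases j with _ | j
    · exact ⟨by simpa [enc_nat] using h, by simpa [enc_nat] using NF.zero⟩
    · exact ⟨by simpa [enc_nat] using NF.zero, by simpa [enc_nat] using NF.zero⟩

@[fun_prop] theorem id' : LS (fun a : α => a) := ⟨fun j =>
  ⟨NF.len j, (NF.bit (j + 1) (NF.len 0)).congr fun p => by
    obtain ⟨i, a⟩ := p
    simp [enc_nat_prod]⟩⟩

theorem snd_aux {f : β → γ} (hf : LS f) : LS (fun p : α × β => f p.2) := ⟨fun j =>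
  ⟨(hf.out j).1.snd, (hf.out j).2.ren (fun p : ℕ × α × β => (p.1, p.2.2))
    (fun i => if i = 0 then 0 else i + ar α) (fun p i => by
      obtain ⟨n, a, b⟩ := p
      rcases i with _ | i
      · simp [enc_nat_prod]
      · simp only [enc_nat_prod, Env.cons_succ, Nat.add_eq_zero_iff, one_ne_zero, and_false,
          if_false, Nat.add_right_comm i 1]
        simp [enc_prod]) Polynomial.X (fun p => by
      obtain ⟨n, a, b⟩ := p
      simp)⟩⟩

@[fun_prop] theorem pair {f : α → β} {g : α → γ} (hf : LS f) (hg : LS g) :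
    LS (fun a => (f a, g a)) := by
  refine ⟨fun j => ?_⟩
  by_cases hj : j < ar β
  · simpa only [enc_prod, if_pos hj] using hf.out j
  · simpa only [enc_prod, if_neg hj] using hg.out (j - ar β)

@[fun_prop] theorem comp (f : β → γ) (g : α → β) (hf : LS f) (hg : LS g) :
    LS (fun a => f (g a)) := ⟨fun j =>
  ⟨(hf.out j).1.comp hg, (hf.out j).2.comp (f := fun p : ℕ × α => (p.1, g p.2))
    (pair (nat_iff.2 ((NF.len 0).congr fun p => by
      obtain ⟨i, a⟩ := p
      simp [enc_nat_prod])) hg.snd_aux)⟩⟩

theorem snd' : LS (fun p : α × β => p.2) := id'.snd_aux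

theorem fst' : LS (fun p : α × β => p.1) := by
  refine ⟨fun j => ?_⟩
  by_cases hj : j < ar α
  · simpa only [enc_prod, if_pos hj] using (id' (α := α × β)).out j
  · simpa only [enc_ge _ j (Nat.le_of_not_lt hj), List.length_nil, bitv_nil] using
      (⟨NF.zero, NF.zero⟩ : NF (fun _ : α × β => 0) ∧ NF (fun _ : ℕ × α × β => 0))

@[fun_prop] theorem fst {f : α → β × γ} (hf : LS f) : LS (fun a => (f a).1) := comp _ _ fst' hf
@[fun_prop] theorem snd {f : α → β × γ} (hf : LS f) : LS (fun a => (f a).2) := comp _ _ snd' hf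

theorem nf_const_bit (s : List Bool) {f : α → ℕ} (hf : NF f) : NF (fun a => bitv s (f a)) := by
  induction s generalizing f with
  | nil => simpa using NF.zero
  | cons b s ih =>
    refine (NF.ifz hf (NF.const b.toNat) (ih hf.pred)).congr fun a => ?_
    rcases f a with _ | m <;> simp [bitv]

@[fun_prop] theorem const (b : β) : LS (fun _ : α => b) := ⟨fun _ =>
  ⟨NF.const _, nf_const_bit _ (nat_iff.1 fst')⟩⟩

/-- Case distinction on a number being zero. -/
theorem ifz {c : α → ℕ} {f g : α → β} (hc : LS c) (hf : LS f) (hg : LS g) :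
    LS (fun a => if c a = 0 then f a else g a) := ⟨fun j =>
  ⟨(NF.ifz (nat_iff.1 hc) (hf.out j).1 (hg.out j).1).congr fun a => by split_ifs <;> rfl,
   (NF.ifz (nat_iff.1 hc).snd (hf.out j).2 (hg.out j).2).congr fun a => by split_ifs <;> rfl⟩⟩

@[fun_prop] theorem toNat {f : α → Bool} (hf : LS f) : LS (fun a => (f a).toNat) := ⟨hf.out⟩

theorem of_toNat {f : α → Bool} (hf : LS (fun a => (f a).toNat)) : LS f := ⟨hf.out⟩

@[fun_prop] theorem finVal {n : ℕ} {f : α → Fin n} (hf : LS f) : LS (fun a => (f a).val) := ⟨hf.out⟩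

theorem of_finVal {n : ℕ} {f : α → Fin n} (hf : LS (fun a => (f a).val)) : LS f := ⟨hf.out⟩

@[fun_prop] theorem cond {c : α → Bool} {f g : α → β} (hc : LS c) (hf : LS f) (hg : LS g) :
    LS (fun a => cond (c a) (f a) (g a)) :=
  (ifz hc.toNat hg hf).congr fun a => by cases c a <;> simp

@[fun_prop] theorem ite {p : α → Prop} {inst : ∀ a, Decidable (p a)} {f g : α → β}
    (hc : LS (fun a => @decide (p a) (inst a))) (hf : LS f) (hg : LS g) :
    LS (fun a => @ite _ (p a) (inst a) (f a) (g a)) :=
  (cond hc hf hg).congr fun a => by by_cases h : p a <;> simp [h]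

/-- A component of the encoding, as a raw string. -/
theorem encStr (j : ℕ) : LS (fun a : α => Str.mk (enc a j)) := by
  refine ⟨fun i => ?_⟩
  rcases i with _ | i
  · exact id'.out j
  · exact ⟨NF.zero, by simpa [enc_str] using NF.zero⟩

/-- A function is `LS` as soon as all components of its output are. -/
theorem of_encStr {f : α → β} (h : ∀ j < ar β, LS (fun a => Str.mk (enc (f a) j))) : LS f := by
    refine ⟨fun j => ?_⟩
    by_cases hj : j < ar β
    · exact (h j hj).out 0
    · simpa only [enc_ge _ j (Nat.le_of_not_lt hj), List.length_nil, bitv_nil] using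
        (⟨NF.zero, NF.zero⟩ : NF (fun _ : α => 0) ∧ NF (fun _ : ℕ × α => 0))

@[fun_prop] theorem strLen {f : α → Str} (hf : LS f) : LS (fun a => (f a).val.length) :=
  nat_iff.2 (hf.out 0).1

@[fun_prop] theorem strBitv {f : α → Str} {g : α → ℕ} (hf : LS f) (hg : LS g) :
    LS (fun a => bitv (f a).val (g a)) :=
  nat_iff.2 ((hf.out 0).2.comp (f := fun a => (g a, a)) (pair hg id'))

theorem str_of {f : α → Str} (h1 : LS (fun a => (f a).val.length))
    (h2 : LS (fun p : ℕ × α => bitv (f p.2).val p.1)) : LS f := by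
  refine ⟨fun j => ?_⟩
  rcases j with _ | j
  · exact ⟨nat_iff.1 h1, nat_iff.1 h2⟩
  · exact ⟨NF.zero, by simpa [enc_str] using NF.zero⟩

/-- Bounded iteration with a polynomial bound on the accumulator. -/
theorem natRec_poly {n s : α → ℕ} {t : ℕ × ℕ × α → ℕ} (hn : LS n) (hs : LS s) (ht : LS t)
    (q : Polynomial ℕ)
    (hq : ∀ a i, i < n a → (Nat.rec (s a) (fun i acc => t (acc, i, a)) i : ℕ) ≤ q.eval (sz a)) :
    LS (fun a => (Nat.rec (s a) (fun i acc => t (acc, i, a)) (n a) : ℕ)) :=
  nat_iff.2 (NF.iter (nat_iff.1 hn) (nat_iff.1 hs) (nat_iff.1 ht) q hq)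

/-- Bounded iteration with an `LS` bound on the accumulator. -/
theorem natRec {n s : α → ℕ} {t : ℕ × ℕ × α → ℕ} (hn : LS n) (hs : LS s) (ht : LS t)
    (b : α → ℕ) (hb : LS b)
    (hq : ∀ a i, i < n a → (Nat.rec (s a) (fun i acc => t (acc, i, a)) i : ℕ) ≤ b a) :
    LS (fun a => (Nat.rec (s a) (fun i acc => t (acc, i, a)) (n a) : ℕ)) := by
  obtain ⟨q, hq'⟩ := hb.bound
  exact natRec_poly hn hs ht q fun a i hi => (hq a i hi).trans (by simpa using hq' a)

end LS

end Pool.Agent.Lib.Cx
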