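import Pool.Agent.Lib.Cx.Reg
import Pool.Agent.Lib.Cx.LSCore

/-!
From `LS` string functions to register programs, and from register programs to programs over
binary stacks (registers are stored in binary).
-/

namespace Pool.Agent.Lib.Cx

open Function Prog Obj

theorem sz_eq_of_one {α : Type} [Obj α] {a : α} {x : List Bool} (h : enc a = Env.one x) :
    sz a = x.length := by
  unfold sz
  rcases hk : ar α with _ | k
  · have := enc_ge a 0 (by omega)
    rw [h] at this
    simp only [Env.one_zero] at this
    simp [this]
  · simp [Finset.sum_range_succ', h]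

/-- An `LS` function into strings is computed by a register program with polynomially bounded
registers in polynomial time. -/
theorem LS.exists_rp {α : Type} [Obj α] {f : α → Str} (hf : LS f) (c : α → List Bool)
    (hc : ∀ a, enc a = Env.one (c a)) :
    ∃ (P : RP) (p q : Polynomial ℕ), ∀ a,
      RunLe (rsem (c a)) (RInv (p.eval (c a).length)) P ⟨fun _ => 0, 0, []⟩
        ⟨fun _ => 0, 0, (f a).val⟩ (q.eval (c a).length) := by
  obtain ⟨eL, pL, hL⟩ := (hf.out 0).1
  obtain ⟨eB, pB, hB⟩ := (hf.out 0).2
  let ρ0 : ℕ → Loc := Loc.cons .inp fun _ => .emp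
  let body : RP := .seq (.act (.dec 1)) (.seq (eB.compile (Loc.cons (.reg 0) ρ0) 2)
    (.seq (.ite (.nz 2) (.seq (.act (.out true)) (.act (.dec 2))) (.act (.out false)))
      (.act (.inc 0))))
  let p : Polynomial ℕ := pL + pB.comp (pL + Polynomial.X)
  refine ⟨.seq (eL.compile ρ0 1) (.seq (.loop (.nz 1) body) (RP.clear 0)), p,
    eL.cost.comp p + (p * (eB.cost.comp p + 6) + 1 + (2 * p + 1)), fun a => ?_⟩
  set x := c a with hx
  set y := (f a).val with hy
  set B := p.eval x.length with hBdef
  have hsz : sz a = x.length := sz_eq_of_one (hc a)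
  have hL1 : eL.eval (Env.one x) = y.length := by simpa [hc a, enc_str] using (hL a).1
  have hL2 : eL.Bdd (pL.eval x.length) (Env.one x) := by simpa [hc a, hsz] using (hL a).2
  have hpL : pL.eval x.length ≤ B := by simp [hBdef, p]
  have hy1 : y.length ≤ pL.eval x.length := hL1 ▸ hL2.eval_le
  have hρ0 : ∀ g j, Env.one x j = (ρ0 j).val x g := fun g j => by rcases j with _ | j <;> rfl
  have l1 := E.compile_spec (x := x) (B := B) eL ρ0 1 (fun _ => 0) [] (Env.one x)
    (fun j => by rcases j with _ | j <;> trivial) (hρ0 _) (fun _ _ => rfl) (fun _ => Nat.zero_le _)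
    (hL2.mono hpL)
  let G : ℕ → ℕ → ℕ := fun i => update (update (fun _ => 0) 0 i) 1 (y.length - i)
  have hG : ∀ i ≤ y.length, ∀ r, G i r ≤ B := fun i hi r => by
    simp only [G, update_apply]; split_ifs <;> omega
  have l2 := RunLe.loop_seq (M := rsem x) (I := RInv B) (t := .nz 1) (P := body)
    (fun i => ⟨G i, 0, y.take i⟩) y.length (eB.cost.eval B + 5) (fun i hi => ⟨by
      simp [rsem, G]; omega, by
      have a1 := RP.run_dec (x := x) (p := 0) (o := y.take i) (hG i hi.le) 1
      have hB1 : eB.eval (Env.cons (un i) (Env.one x)) = bitv y i := by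
        simpa [enc_nat_prod, hc a, enc_str] using (hB (i, a)).1
      have hB2 : eB.Bdd B (Env.cons (un i) (Env.one x)) := by
        have := (hB (i, a)).2
        simp only [enc_nat_prod, hc a, sz_prod, sz_nat, hsz] at this
        refine this.mono ?_
        simp only [hBdef, p, Polynomial.eval_add, Polynomial.eval_comp, Polynomial.eval_X]
        exact le_trans (peval_mono pB (by omega)) (Nat.le_add_left _ _)
      have a2 := E.compile_spec (x := x) (B := B) eB (Loc.cons (.reg 0) ρ0) 2
        (update (G i) 1 (G i 1 - 1)) (y.take i) (Env.cons (un i) (Env.one x))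
        (fun j => by
          rcases j with _ | _ | j
          · exact (by omega : 0 < 2)
          · trivial
          · trivial)
        (fun j => by
          rcases j with _ | j
          · simp [Loc.cons, Loc.val, G]
          · exact hρ0 _ j)
        (fun r hr => by
          simp only [G]
          rw [update_of_ne (by omega), update_of_ne (by omega), update_of_ne (by omega)])
        (a1.inv (hG i hi.le)) hB2
      have i2 := a2.inv (a1.inv (hG i hi.le))
      rw [hB1] at a2 i2
      have e0 : update (update (G i) 1 (G i 1 - 1)) 2 0 = update (G i) 1 (G i 1 - 1) := by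
        funext r; simp only [G, update_apply]; split_ifs <;> simp_all
      have a3 : RunLe (rsem x) (RInv B)
          (.ite (.nz 2) (.seq (.act (.out true)) (.act (.dec 2))) (.act (.out false)))
          ⟨update (update (G i) 1 (G i 1 - 1)) 2 (bitv y i), 0, y.take i⟩
          ⟨update (G i) 1 (G i 1 - 1), 0, y.take (i + 1)⟩ 3 := by
        rw [List.take_succ_eq_append_getElem hi]
        have hb : bitv y i = y[i].toNat := by
          simp [bitv, List.getD_eq_getElem?_getD, List.getElem?_eq_getElem hi]
        rw [hb] at i2 ⊢
        cases hyi : y[i] <;> rw [hyi] at i2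
        · refine RunLe.mono (n := 1 + 1) (RunLe.iteF ?_ (RunLe.act _ _ ?_
            (a1.inv (hG i hi.le)))) (by omega)
          · simp [rsem]
          · simp [rsem, e0]
        · refine (RunLe.iteT (by simp [rsem]) ((RunLe.act (M := rsem x) (.out true) _ rfl i2).seq
            (RP.run_dec i2 2))).cast ?_
          simp [e0]
      have a4 := RP.run_inc (x := x) (p := 0) (o := y.take (i + 1)) (a1.inv (hG i hi.le)) 0
        (by simp [G]; omega)
      refine ((a1.seq (a2.seq (a3.seq a4))).mono (by omega)).cast ?_
      ext r <;> simp only [update_apply, G]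
      by_cases h0 : r = 0
      · simp [h0]
      · by_cases h1 : r = 1
        · simp [h1]; omega
        · simp [h0, h1]⟩)
    (by simp [rsem, G])
  have e1 : G 0 = update (fun _ => 0) 1 (eL.eval (Env.one x)) := by
    funext r; simp only [update_apply, G, hL1]; split_ifs <;> simp_all
  simp only [e1, List.take_zero, List.take_length] at l2
  have l3 := RP.run_clear (x := x) (p := 0) (o := y) (hG _ le_rfl) 0
  refine ((l1.seq (l2.seq l3)).mono ?_).cast ?_
  · have := Nat.mul_le_mul_right (eB.cost.eval B + 6) (hy1.trans hpL)
    simp only [Polynomial.eval_add, Polynomial.eval_comp, Polynomial.eval_mul, ← hBdef,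
      Polynomial.eval_ofNat, Polynomial.eval_one]
    rw [show eB.cost.eval B + 5 + 1 = eB.cost.eval B + 6 from rfl]
    omega
  · ext r <;> simp only [update_apply, G]; split_ifs <;> simp_all

/-- Binary increment (least significant bit first). -/
def binc : List Bool → List Bool
  | [] => [true]
  | false :: l => true :: l
  | true :: l => false :: binc l

/-- Binary decrement (least significant bit first). -/
def bdec : List Bool → List Bool
  | [] => []
  | true :: l => if l = [] then [] else false :: l
  | false :: l => true :: bdec l

/-- Binary representation. -/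
def bin : ℕ → List Bool
  | 0 => []
  | n + 1 => binc (bin n)

/-- No leading zero. -/
def Canon : List Bool → Prop
  | [] => True
  | b :: l => (l = [] → b = true) ∧ Canon l

theorem binc_ne_nil (l : List Bool) : binc l ≠ [] := by
  rcases l with _ | ⟨_ | _, l⟩ <;> simp [binc]

theorem Canon.binc : ∀ {l : List Bool}, Canon l → Canon (binc l)
  | [], _ => ⟨fun _ => rfl, trivial⟩
  | false :: _, h => ⟨fun _ => rfl, h.2⟩
  | true :: l, h => ⟨fun e => absurd e (binc_ne_nil l), h.2.binc⟩

theorem canon_bin (n : ℕ) : Canon (bin n) := by
  induction n with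
  | zero => trivial
  | succ n ih => exact ih.binc

theorem Canon.bdec_binc : ∀ {l : List Bool}, Canon l → bdec (Cx.binc l) = l
  | [], _ => rfl
  | false :: l, h => by
      have : l ≠ [] := fun e => by simpa using h.1 e
      simp [Cx.binc, bdec, this]
  | true :: l, h => by simp [Cx.binc, bdec, h.2.bdec_binc]

theorem bin_pred (n : ℕ) : bin (n - 1) = bdec (bin n) := by
  rcases n with _ | n
  · rfl
  · exact ((canon_bin n).bdec_binc).symm

theorem bin_eq_nil {n : ℕ} : bin n = [] ↔ n = 0 := by
  rcases n with _ | n
  · simp [bin]
  · simp [bin, binc_ne_nil]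

/-- The value of a binary string. -/
def bval : List Bool → ℕ
  | [] => 0
  | b :: l => b.toNat + 2 * bval l

theorem bval_binc : ∀ l : List Bool, bval (binc l) = bval l + 1
  | [] => rfl
  | false :: l => by simp [binc, bval]; omega
  | true :: l => by simp [binc, bval, bval_binc l]; omega

theorem bval_bin (n : ℕ) : bval (bin n) = n := by
  induction n with
  | zero => rfl
  | succ n ih => rw [bin, bval_binc, ih]

theorem Canon.two_pow_le : ∀ {l : List Bool}, Canon l → l ≠ [] → 2 ^ (l.length - 1) ≤ bval l
  | [], _, h => absurd rfl h
  | [b], h, _ => by simp [bval, h.1 rfl]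
  | b :: c :: l, h, _ => by
      have := h.2.two_pow_le (by simp)
      simp only [List.length_cons, Nat.add_sub_cancel, pow_succ] at this ⊢
      rw [bval]; omega

theorem length_bin_le {n B : ℕ} (h : n ≤ B) : (bin n).length ≤ Nat.log 2 B + 1 := by
  by_cases h0 : bin n = []
  · simp [h0]
  · have := (canon_bin n).two_pow_le h0
    rw [bval_bin] at this
    have := Nat.le_log_of_pow_le (by norm_num) (this.trans h)
    omega

/-- Actions on binary stacks, the input head and the output tape. -/
inductive OA : Type
  | push : ℕ → Bool → OA
  | pop : ℕ → OA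
  | mvL : OA
  | mvR : OA
  | out : Bool → OA

/-- Tests on the top of a stack or the input symbol. -/
inductive OT : Type
  | top : ℕ → (Option Bool → Bool) → OT
  | sym : (Option Bool → Bool) → OT

/-- States with binary stacks. -/
@[ext] structure OS where
  stk : ℕ → List Bool
  pos : ℕ
  out : List Bool

/-- Semantics of stack programs with input `x`. -/
def osem (x : List Bool) : Sem OA OT OS where
  act
    | .push k b, s => ⟨update s.stk k (b :: s.stk k), s.pos, s.out⟩
    | .pop k, s => ⟨update s.stk k (s.stk k).tail, s.pos, s.out⟩
    | .mvL, s => ⟨s.stk, s.pos - 1, s.out⟩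
    | .mvR, s => ⟨s.stk, min (s.pos + 1) (x.length + 1), s.out⟩
    | .out b, s => ⟨s.stk, s.pos, s.out ++ [b]⟩
  test
    | .top k φ, s => φ (s.stk k).head?
    | .sym φ, s => φ (rd x s.pos)

/-- All stacks have length at most `S`. -/
def OInv (S : ℕ) (s : OS) : Prop := ∀ k, (s.stk k).length ≤ S

/-- Offline stack programs. -/
abbrev OP := Prog OA OT

namespace OP

variable {x : List Bool} {S : ℕ}

/-- While the top of stack `a` satisfies `φ`, pop it and push `v` on stack `b`. -/
def shift (a b : ℕ) (φ : Option Bool → Bool) (v : Bool) : OP :=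
  .loop (.top a φ) (.seq (.act (.pop a)) (.act (.push b v)))

theorem run_shift {g : ℕ → List Bool} {p : ℕ} {o : List Bool} {a b : ℕ} (hab : a ≠ b)
    {φ : Option Bool → Bool} (u v : Bool) (j : ℕ) (r : List Bool)
    (ha : g a = List.replicate j u ++ r) (hu : φ (some u) = true) (hr : φ r.head? = false)
    (h : ∀ k, (g k).length ≤ S) (hb : (g b).length + j ≤ S) :
    RunLe (osem x) (OInv S) (shift a b φ v) ⟨g, p, o⟩
      ⟨update (update g a r) b (List.replicate j v ++ g b), p, o⟩ (3 * j + 1) := by
  have hla := h a
  rw [ha] at hla
  simp only [List.length_append, List.length_replicate] at hla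
  have := RunLe.loop_seq (M := osem x) (I := OInv S) (t := .top a φ)
    (P := .seq (.act (.pop a)) (.act (.push b v)))
    (fun i => ⟨update (update g a (List.replicate (j - i) u ++ r)) b (List.replicate i v ++ g b),
      p, o⟩) j 2 (fun i hi => by
      have e : j - i = j - (i + 1) + 1 := by omega
      refine ⟨by simp [osem, update_of_ne hab, e, List.replicate_succ, hu], ?_⟩
      refine (RunLe.act (M := osem x) (.pop a) _ rfl fun k => ?_).seq (.act _ _ ?_ fun k => ?_)
      · have := h k
        simp only [osem, update_apply]; split_ifs <;> simp_all <;> omega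
      · simp only [osem, e, List.replicate_succ]
        ext1
        · funext k; simp only [update_apply]; split_ifs <;> simp_all
        · rfl
        · rfl
      · have := h k
        simp only [update_apply]; split_ifs <;> simp_all <;> omega)
    (by simp [osem, update_of_ne hab, hr])
  simp only [Nat.sub_zero, ← ha, update_eq_self, List.replicate_zero, List.nil_append,
    Nat.sub_self] at this
  exact this.mono (by omega)

/-- Binary increment of stack `k` using stack `0`. -/
def incP (k : ℕ) : OP := .seq (shift k 0 (· == some true) false)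
  (.seq (.act (.pop k)) (.seq (.act (.push k true)) (shift 0 k Option.isSome false)))

/-- Binary decrement of stack `k` using stack `0`. -/
def decP (k : ℕ) : OP := .seq (shift k 0 (· == some false) true)
  (.seq (.act (.pop k)) (.seq (.ite (.top k Option.isSome) (.act (.push k false)) .skip)
    (shift 0 k Option.isSome true)))

theorem split_replicate (u : Bool) (l : List Bool) :
    ∃ j r, l = List.replicate j u ++ r ∧ r.head? ≠ some u := by
  induction l with
  | nil => exact ⟨0, [], rfl, by simp⟩
  | cons b l ih =>
    by_cases h : b = u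
    · obtain ⟨j, r, e, hr⟩ := ih
      exact ⟨j + 1, r, by simp [List.replicate_succ, h, e], hr⟩
    · exact ⟨0, b :: l, rfl, by simpa using h⟩

theorem binc_replicate (j : ℕ) (r : List Bool) (hr : r.head? ≠ some true) :
    binc (List.replicate j true ++ r) = List.replicate j false ++ true :: r.tail := by
  induction j with
  | zero => rcases r with _ | ⟨_ | _, r⟩ <;> simp_all [binc]
  | succ j ih => simp [List.replicate_succ, binc, ih]

theorem bdec_replicate (j : ℕ) (r : List Bool) (hr : r.head? ≠ some false) :
    bdec (List.replicate j false ++ r) =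
      List.replicate j true ++ if r.tail = [] then [] else false :: r.tail := by
  induction j with
  | zero => rcases r with _ | ⟨_ | _, r⟩ <;> simp_all [bdec]
  | succ j ih => simp [List.replicate_succ, bdec, ih]

theorem oinv_update {g : ℕ → List Bool} (h : ∀ k, (g k).length ≤ S) (a : ℕ) {v : List Bool}
    (hv : v.length ≤ S) (k : ℕ) : (update g a v k).length ≤ S := by
  simp only [update_apply]; split_ifs
  · exact hv
  · exact h k

theorem run_incP {g : ℕ → List Bool} {p : ℕ} {o : List Bool} {k : ℕ} (hk : k ≠ 0) (h0 : g 0 = [])
    (h : ∀ k, (g k).length ≤ S) (hb : (binc (g k)).length ≤ S) :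
    RunLe (osem x) (OInv S) (incP k) ⟨g, p, o⟩ ⟨update g k (binc (g k)), p, o⟩ (6 * S + 5) := by
  obtain ⟨j, r, e, hr⟩ := split_replicate true (g k)
  rw [e, binc_replicate j r hr] at hb ⊢
  simp only [List.length_append, List.length_replicate, List.length_cons] at hb
  have l1 := run_shift (x := x) (p := p) (o := o) hk (φ := (· == some true)) true false j r e rfl
    (by simpa using hr) h (by simp [h0]; omega)
  have i1 := l1.inv h
  have l2 := RunLe.act (M := osem x) (I := OInv S) (.pop k) _ rfl
    (oinv_update i1 k (by simp [update_of_ne hk]; simp at hb; omega))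
  have l3 := RunLe.act (M := osem x) (I := OInv S) (.push k true) _ rfl
    (oinv_update (l2.inv i1) k (by simp [osem, update_of_ne hk]; simp at hb; omega))
  have l4 := run_shift (x := x) (p := p) (o := o) hk.symm (φ := Option.isSome) false false j []
    (g := ((osem x).act (.push k true) ((osem x).act (.pop k)
      ⟨update (update g k r) 0 (List.replicate j false ++ g 0), p, o⟩)).stk)
    (by simp [osem, update_of_ne hk.symm, h0]) rfl rfl (l3.inv (l2.inv i1))
    (by simp [osem, update_of_ne hk]; simp at hb; omega)
  refine ((l1.seq (l2.seq (l3.seq l4))).mono (by omega)).cast ?_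
  ext1
  · funext k'; simp only [osem, update_apply]; split_ifs <;> simp_all
  · rfl
  · rfl

theorem run_decP {g : ℕ → List Bool} {p : ℕ} {o : List Bool} {k : ℕ} (hk : k ≠ 0) (h0 : g 0 = [])
    (h : ∀ k, (g k).length ≤ S) :
    RunLe (osem x) (OInv S) (decP k) ⟨g, p, o⟩ ⟨update g k (bdec (g k)), p, o⟩ (6 * S + 5) := by
  obtain ⟨j, r, e, hr⟩ := split_replicate false (g k)
  have hb := h k
  rw [e] at hb
  rw [e, bdec_replicate j r hr]
  simp only [List.length_append, List.length_replicate] at hb
  have l1 := run_shift (x := x) (p := p) (o := o) hk (φ := (· == some false)) false true j r e rfl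
    (by simpa using hr) h (by simp [h0]; omega)
  have i1 := l1.inv h
  have l2 : RunLe (osem x) (OInv S) (.act (.pop k))
      ⟨update (update g k r) 0 (List.replicate j true ++ g 0), p, o⟩
      ⟨update (update g k r.tail) 0 (List.replicate j true), p, o⟩ 1 := by
    refine .act _ _ ?_ (oinv_update (oinv_update h k (by simp; omega)) 0 (by simp; omega))
    ext1
    · funext k'; simp only [osem, update_apply]; split_ifs <;> simp_all
    · rfl
    · rfl
  have hlen : (if r.tail = [] then [] else false :: r.tail).length ≤ r.length := by
    rcases r with _ | ⟨b, r⟩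
    · simp
    · split_ifs <;> simp
  have l3 : RunLe (osem x) (OInv S) (.ite (.top k Option.isSome) (.act (.push k false)) .skip)
      ⟨update (update g k r.tail) 0 (List.replicate j true), p, o⟩
      ⟨update (update g k (if r.tail = [] then [] else false :: r.tail)) 0 (List.replicate j true),
        p, o⟩ 2 := by
    by_cases ht : r.tail = []
    · refine (RunLe.iteF (by simp [osem, update_of_ne hk, ht]) (.skip _)).cast ?_
      simp [ht]
    · refine RunLe.iteT ?_ (.act _ _ ?_
        (oinv_update (oinv_update h k (by omega)) 0 (by simp; omega)))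
      · simp only [osem, update_of_ne hk, update_self]
        rcases hr' : r.tail with _ | ⟨b, t⟩
        · exact absurd hr' ht
        · rfl
      · ext1
        · funext k'; simp only [osem, update_apply]; split_ifs <;> simp_all
        · rfl
        · rfl
  have l4 := run_shift (x := x) (p := p) (o := o) hk.symm (φ := Option.isSome) true true j []
    (g := update (update g k (if r.tail = [] then [] else false :: r.tail)) 0
      (List.replicate j true)) (by simp) rfl rfl (l3.inv (l2.inv i1))
    (by simp only [update_of_ne hk, update_self]; omega)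
  refine ((l1.seq (l2.seq (l3.seq l4))).mono (by omega)).cast ?_
  ext1
  · funext k'; simp only [update_apply]; split_ifs <;> simp_all
  · rfl
  · rfl

end OP

/-- Translation of register actions. -/
def RA.toO : RA → OP
  | .inc r => OP.incP (r + 1)
  | .dec r => OP.decP (r + 1)
  | .mvL => .act .mvL
  | .mvR => .act .mvR
  | .out b => .act (.out b)

/-- Translation of register tests. -/
def RT.toO : RT → OT
  | .nz r => .top (r + 1) Option.isSome
  | .sym φ => .sym φ

/-- Binary representation of a register state. -/
def RS.toO (s : RS) : OS :=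
  ⟨fun k => match k with | 0 => [] | r + 1 => bin (s.regs r), s.pos, s.out⟩

theorem RunLe.toO {x : List Bool} {B n : ℕ} {P : RP} {s u : RS}
    (h : RunLe (rsem x) (RInv B) P s u n) (hs : RInv B s) :
    RunLe (osem x) (OInv (Nat.log 2 B + 1)) (P.bind RA.toO RT.toO) s.toO u.toO
      ((6 * (Nat.log 2 B + 1) + 5) * n) := by
  have hinv : ∀ s : RS, RInv B s → OInv (Nat.log 2 B + 1) s.toO := fun s hs k => by
    rcases k with _ | k
    · simp [RS.toO]
    · exact length_bin_le (hs k)
  have hupd : ∀ (s : RS) r v, update s.toO.stk (r + 1) (bin v) =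
      (RS.toO ⟨update s.regs r v, s.pos, s.out⟩).stk := fun s r v => by
    funext k
    rcases k with _ | k
    · simp [RS.toO]
    · simp only [RS.toO, update_apply, Nat.add_right_cancel_iff]; split_ifs <;> rfl
  obtain ⟨u', a, b⟩ := RunLe.bind (M := rsem x) (M' := osem x) (I' := OInv (Nat.log 2 B + 1))
    (f := RA.toO) (g := RT.toO) (fun s s' => s' = s.toO) (c := 6 * (Nat.log 2 B + 1) + 5) (by omega)
    (fun a _ s s' hR h1 h2 => by
      subst hR
      refine ⟨_, ?_, rfl⟩
      cases a with
      | inc r =>
        refine (OP.run_incP (x := x) (k := r + 1) (by omega) rfl (hinv s h1) ?_).cast ?_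
        · exact length_bin_le (n := s.regs r + 1) (by simpa [rsem] using h2 r)
        · exact OS.ext (hupd s r (s.regs r + 1)) rfl rfl
      | dec r =>
        refine (OP.run_decP (x := x) (k := r + 1) (by omega) rfl (hinv s h1)).cast ?_
        refine OS.ext ?_ rfl rfl
        have := hupd s r (s.regs r - 1)
        rw [bin_pred] at this
        exact this
      | mvL => exact (RunLe.act _ _ rfl (hinv _ h2)).mono (by omega)
      | mvR => exact (RunLe.act _ _ rfl (hinv _ h2)).mono (by omega)
      | out b => exact (RunLe.act _ _ rfl (hinv _ h2)).mono (by omega))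
    (fun t _ s s' hR => by
      subst hR
      cases t with
      | nz r =>
        simp only [RT.toO, osem, rsem, RS.toO]
        by_cases h0 : s.regs r = 0
        · simp [h0, bin]
        · have := bin_eq_nil.not.2 h0
          rcases hb : bin (s.regs r) with _ | ⟨b, t⟩
          · exact absurd hb this
          · simp [h0]
      | sym φ => rfl) h (all_true P) hs rfl
  exact b ▸ a

/-- An `LS` function into strings is computed by an offline stack program with logarithmically
bounded stacks in polynomial time. -/
theorem LS.exists_op {α : Type} [Obj α] {f : α → Str} (hf : LS f) (c : α → List Bool)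
    (hc : ∀ a, enc a = Env.one (c a)) :
    ∃ (P : OP) (p q : Polynomial ℕ), ∀ a,
      RunLe (osem (c a)) (OInv (Nat.log 2 (p.eval (c a).length) + 1)) P ⟨fun _ => [], 0, []⟩
        ⟨fun _ => [], 0, (f a).val⟩ (q.eval (c a).length) := by
  obtain ⟨P, p, q, h⟩ := hf.exists_rp c hc
  refine ⟨P.bind RA.toO RT.toO, p, (6 * (p + 1) + 5) * q, fun a => ?_⟩
  have := RunLe.toO (h a) (fun _ => Nat.zero_le _)
  have e : ∀ o, RS.toO ⟨fun _ => 0, 0, o⟩ = ⟨fun _ => [], 0, o⟩ := fun o =>
    OS.ext (by funext k; rcases k with _ | k <;> rfl) rfl rfl
  rw [e, e] at this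
  refine this.mono ?_
  simp only [Polynomial.eval_mul, Polynomial.eval_add, Polynomial.eval_ofNat, Polynomial.eval_one]
  have := Nat.log_le_self 2 (p.eval (c a).length)
  exact Nat.mul_le_mul_right _ (by omega)

end Pool.Agent.Lib.Cx
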