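import Pool.Agent.Lib.Cx.LSList
import Pool.Agent.Lib.Cx.Off
import Mathlib.Data.Nat.Bitwise
import Mathlib.Data.Nat.Size

/-!
Binary representations: `Nat.bits` is `LS`, and so is the value of a bit string cut off at a bound.
Also bounded iteration with states in small types, and matrices of bits.
-/

namespace Pool.Agent.Lib.Cx

open Obj

variable {α β γ : Type} [Obj α] [Obj β] [Obj γ]

@[fun_prop] theorem LS.shiftRight {f g : α → ℕ} (hf : LS f) (hg : LS g) :
    LS (fun a => f a >>> g a) := by
  have key : ∀ (n i : ℕ), (Nat.rec n (fun _ acc => acc / 2) i : ℕ) = n >>> i := by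
    intro n i; induction i with
    | zero => rfl
    | succ i ih => simp only [ih, Nat.shiftRight_succ]
  refine (LS.natRec (n := g) (s := f) (t := fun q => q.1 / 2) hg hf (by fun_prop) f hf
    fun a i _ => ?_).congr fun a => key _ _
  rw [key]; exact Nat.shiftRight_le _ _

@[fun_prop] theorem LS.testBit {f g : α → ℕ} (hf : LS f) (hg : LS g) :
    LS (fun a => (f a).testBit (g a)) := by
  have : LS fun a => decide ((f a >>> g a) % 2 = 1) := by fun_prop
  exact this.congr fun a => by
    rw [Nat.testBit_eq_decide_div_mod_eq, Nat.shiftRight_eq_div_pow]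

@[fun_prop] theorem LS.natSize {f : α → ℕ} (hf : LS f) : LS (fun a => (f a).size) := by
  have : LS fun a => Cx.findLt (f a) (fun i => decide (f a >>> i = 0)) := by fun_prop
  refine this.congr fun a => findLt_eq (Nat.size_le.2 Nat.lt_two_pow_self) (fun _ => ?_)
    fun i hi => ?_
  · simp [Nat.shiftRight_eq_div_pow, Nat.lt_size_self]
  · simpa [Nat.shiftRight_eq_div_pow] using Nat.lt_size.1 hi

@[fun_prop] theorem LS.bits {f : α → ℕ} (hf : LS f) : LS (fun a => (f a).bits) := by
  have : LS fun a => (List.range (f a).size).map fun i => (f a).testBit i := by fun_prop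
  refine this.congr fun a => ?_
  conv_rhs => rw [eq_map_range_getD (f a).bits false, Nat.size_eq_bits_len]
  exact List.map_congr_left fun i _ => Nat.testBit_eq_inth _ _

theorem bval_bits (n : ℕ) : bval n.bits = n := by
  induction n using Nat.binaryRec' with
  | zero => simp [bval]
  | bit b n h ih =>
    rw [Nat.bits_append_bit _ _ h, bval, ih]
    cases b <;> simp [Nat.bit]; omega

theorem canon_bits (n : ℕ) : Canon n.bits := by
  induction n using Nat.binaryRec' with
  | zero => simp [Canon]
  | bit b n h ih =>
    rw [Nat.bits_append_bit _ _ h]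
    refine ⟨fun e => h ?_, ih⟩
    rw [← bval_bits n, e]; rfl

theorem Canon.bits_bval : ∀ {l : List Bool}, Canon l → (bval l).bits = l
  | [], _ => by simp [bval]
  | b :: l, h => by
      have e : bval (b :: l) = Nat.bit b (bval l) := by cases b <;> simp [bval, Nat.bit]; omega
      rw [e, Nat.bits_append_bit, h.2.bits_bval]
      intro h0
      apply h.1
      rw [← h.2.bits_bval, h0]; simp

theorem canon_iff (l : List Bool) : Canon l ↔ l.getLast? ≠ some false := by
  induction l with
  | nil => simp [Canon]
  | cons b l ih =>
    rcases l with _ | ⟨c, l⟩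
    · simp [Canon]
    · rw [Canon, ih]; simp [List.getLast?_cons_cons]

/-- The value of a bit string, cut off at `B`. -/
def capVal (B : ℕ) (l : List Bool) : ℕ :=
  Nat.rec 0 (fun i acc => min B (2 * acc + (l.getD (l.length - 1 - i) false).toNat)) l.length

theorem capVal_eq (B : ℕ) (l : List Bool) : capVal B l = min B (bval l) := by
  have key : ∀ i ≤ l.length, (Nat.rec 0 (fun i acc =>
      min B (2 * acc + (l.getD (l.length - 1 - i) false).toNat)) i : ℕ) =
        min B (bval (l.drop (l.length - i))) := by
    intro i hi
    induction i with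
    | zero => simp [bval]
    | succ i ih =>
      have h1 : l.length - (i + 1) < l.length := by omega
      have h2 : l.length - (i + 1) + 1 = l.length - i := by omega
      have h3 : l.length - 1 - i = l.length - (i + 1) := by omega
      simp only [ih (by omega)]
      simp only [List.drop_eq_getElem_cons h1, bval, h2, h3,
        List.getD_eq_getElem?_getD, List.getElem?_eq_getElem h1, Option.getD_some]
      omega
  simpa [capVal] using key _ le_rfl

@[fun_prop] theorem LS.capVal {B : α → ℕ} {l : α → List Bool} (hB : LS B) (hl : LS l) :
    LS (fun a => capVal (B a) (l a)) := by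
  refine LS.natRec (n := fun a => (l a).length) (s := fun _ => 0)
    (t := fun q => Min.min (B q.2.2)
      (2 * q.1 + ((l q.2.2).getD ((l q.2.2).length - 1 - q.2.1) false).toNat))
    (by fun_prop) (by fun_prop) (by fun_prop) B hB fun a i _ => ?_
  rcases i with _ | i
  · exact Nat.zero_le _
  · exact min_le_left _ _

theorem length_matrix {δ : Type} (n m : ℕ) (f : ℕ → ℕ → δ) :
    ((List.range n).flatMap fun i => (List.range m).map (f i)).length = n * m := by
  simp

theorem getD_matrix {δ : Type} (n m : ℕ) (f : ℕ → ℕ → δ) (d : δ) {i j : ℕ} (hi : i < n)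
    (hj : j < m) : ((List.range n).flatMap fun i => (List.range m).map (f i)).getD (i * m + j) d
      = f i j := by
  induction n with
  | zero => omega
  | succ n ih =>
    rw [List.range_succ, List.flatMap_append, getD_append', length_matrix]
    rcases Nat.lt_succ_iff_lt_or_eq.1 hi with h | rfl
    · rw [if_pos (by nlinarith), ih h]
    · rw [if_neg (by omega)]
      simp [hj]

theorem matrix_getD {δ : Type} (n m : ℕ) (l : List δ) (d : δ) (hl : l.length = n * m) :
    ((List.range n).flatMap fun i => (List.range m).map fun j => l.getD (i * m + j) d) = l := by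
  refine List.ext_getElem (by rw [length_matrix, hl]) fun t h1 h2 => ?_
  have hm : 0 < m := by
    rcases m with _ | m
    · simp [hl] at h2
    · omega
  have h3 : t / m < n := by
    rw [Nat.div_lt_iff_lt_mul hm]; omega
  have := getD_matrix n m (fun i j => l.getD (i * m + j) d) d h3 (Nat.mod_lt t hm)
  rw [Nat.div_add_mod' t m] at this
  rw [List.getD_eq_getElem?_getD, List.getElem?_eq_getElem h1, List.getD_eq_getElem?_getD,
    List.getElem?_eq_getElem h2] at this
  exact this

theorem finRange_flatMap {δ : Type} (n : ℕ) (f : ℕ → List δ) :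
    (List.finRange n).flatMap (fun i : Fin n => f i.val) = (List.range n).flatMap f := by
  rw [← List.map_coe_finRange_eq_range, List.flatMap_map]

theorem finRange_map {δ : Type} (n : ℕ) (f : ℕ → δ) :
    (List.finRange n).map (fun i : Fin n => f i.val) = (List.range n).map f := by
  rw [← List.map_coe_finRange_eq_range, List.map_map]; rfl

end Pool.Agent.Lib.Cx
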