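import Pool.Agent.Lib.Cx.LSStr

/-!
Lists and options of encoded objects, and the usual list operations.
-/

namespace Pool.Agent.Lib.Cx

open Obj

variable {α β γ : Type}

theorem flatMap_dl_map (l : List α) (c : α → List Bool) :
    l.flatMap (fun a => dl (c a)) = (l.map c).flatMap dl := by
  simp [List.flatMap_map]

instance [Obj α] : Obj (List α) where
  ar := ar α + 1
  enc l j := match j with
    | 0 => un l.length
    | j + 1 => if j < ar α then l.flatMap (fun a => dl (enc a j)) else []
  enc_ge l j h := by
    rcases j with _ | j
    · omega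
    · exact if_neg (by omega)
  enc_inj l l' h := by
    have hlen : l.length = l'.length := un_inj (congrFun h 0)
    refine List.ext_getElem hlen fun i h1 h2 => ?_
    apply enc_inj
    funext j
    by_cases hj : j < ar α
    · have h3 := congrFun h (j + 1)
      simp only [if_pos hj, flatMap_dl_map] at h3
      have h4 := blk_flatMap (l.map (enc · j)) [] i (by simpa using h1)
      have h5 := blk_flatMap (l'.map (enc · j)) [] i (by simpa using h2)
      rw [h3, h5] at h4
      simpa using h4.symm
    · rw [enc_ge _ _ (by omega), enc_ge _ _ (by omega)]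

instance [Obj α] : Obj (Option α) := Obj.ofInj Option.toList (fun a b h => by
  cases a <;> cases b <;> simp_all)

instance [Obj α] [Obj β] : Obj (α ⊕ β) :=
  Obj.ofInj (fun x => (x.getLeft?, x.getRight?)) (fun a b h => by
    cases a <;> cases b <;> simp_all)

variable [Obj α] [Obj β] [Obj γ]

theorem ar_list : ar (List α) = ar α + 1 := rfl
theorem enc_list_zero (l : List α) : enc l 0 = un l.length := rfl
theorem enc_list_succ (l : List α) {j : ℕ} (h : j < ar α) :
    enc l (j + 1) = l.flatMap (fun a => dl (enc a j)) := if_pos h

namespace LS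

@[fun_prop] theorem length {f : α → List β} (hf : LS f) : LS (fun a => (f a).length) := by
  have := (comp _ _ (encStr 0) hf).strLen
  simpa [enc_list_zero] using this

/-- A list-valued function is `LS` if its length and component strings are. -/
theorem list_of {f : α → List β} (h0 : LS (fun a => (f a).length))
    (h : ∀ j < ar β, LS (fun a => Str.mk ((f a).flatMap (fun b => dl (enc b j))))) : LS f := by
  refine of_encStr fun j hj => ?_
  rcases j with _ | j
  · refine str_of (by simpa [enc_list_zero] using h0) (by simpa [enc_list_zero] using const 0)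
  · have hj' : j < ar β := by simpa [ar_list] using hj
    simpa only [enc_list_succ _ hj'] using h j hj'

theorem list_comp {f : α → List β} (hf : LS f) {j : ℕ} (hj : j < ar β) :
    LS (fun a => Str.mk ((f a).flatMap (fun b => dl (enc b j)))) := by
  simpa only [enc_list_succ _ hj] using comp _ _ (encStr (j + 1)) hf

@[fun_prop] theorem getD {f : α → List β} {g : α → ℕ} {d : α → β} (hf : LS f) (hg : LS g)
    (hd : LS d) : LS (fun a => (f a).getD (g a) (d a)) := by
  refine of_encStr fun j hj => ?_
  have h1 := strBlk (list_comp hf hj) hg
  have h2 := comp _ _ (encStr j) hd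
  have h3 : LS fun a => decide (g a < (f a).length) := by fun_prop
  refine (ite h3 h1 h2).congr fun a => ?_
  split_ifs with h
  · have := blk_flatMap ((f a).map (enc · j)) [] (g a) (by simpa using h)
    rw [List.append_nil, ← flatMap_dl_map] at this
    simp [this, List.getD_eq_getElem?_getD, List.getElem?_eq_getElem h]
  · simp [List.getD_eq_getElem?_getD, List.getElem?_eq_none (Nat.le_of_not_lt h)]

theorem flatMapRange {n : α → ℕ} {g : α → ℕ → List β} (hn : LS n)
    (hg : LS (fun p : α × ℕ => g p.1 p.2)) : LS (fun a => (List.range (n a)).flatMap (g a)) := by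
  refine list_of (by simp only [length_flatMap_range]; fun_prop) fun j hj => ?_
  have := strFlatRange (g := fun a i => Str.mk ((g a i).flatMap (fun b => dl (enc b j)))) hn
    (list_comp hg hj)
  simpa only [Str.val_mk, List.flatMap_assoc] using this

theorem singleton {f : α → β} (hf : LS f) : LS (fun a => [f a]) :=
  list_of (const 1) fun j _ => by simpa using strDl (comp _ _ (encStr j) hf)

theorem mapRange {n : α → ℕ} {g : α → ℕ → β} (hn : LS n)
    (hg : LS (fun p : α × ℕ => g p.1 p.2)) : LS (fun a => (List.range (n a)).map (g a)) :=
  (flatMapRange (g := fun a i => [g a i]) hn hg.singleton).congr fun a => by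
    simp [← List.map_eq_flatMap]

@[fun_prop] theorem range {n : α → ℕ} (hn : LS n) : LS (fun a => List.range (n a)) := by
  simpa using mapRange (g := fun _ i => i) hn (by fun_prop)

theorem list_of_isEmpty [IsEmpty β] (f : α → List β) : LS f :=
  (const []).congr fun a => by
    cases f a with
    | nil => rfl
    | cons b _ => exact isEmptyElim b

@[fun_prop] theorem flatMap {l : α → List β} {g : α → β → List γ} (hl : LS l)
    (hg : LS (fun p : α × β => g p.1 p.2)) : LS (fun a => (l a).flatMap (g a)) := by
  rcases isEmpty_or_nonempty β with h | ⟨⟨d⟩⟩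
  · refine (const []).congr fun a => ?_
    cases l a with
    | nil => rfl
    | cons b _ => exact isEmptyElim b
  · have := flatMapRange (n := fun a => (l a).length) (g := fun a i => g a ((l a).getD i d))
      (by fun_prop) (by fun_prop)
    refine this.congr fun a => ?_
    conv_rhs => rw [eq_map_range_getD (l a) d, List.flatMap_map]

@[fun_prop] theorem map {l : α → List β} {g : α → β → γ} (hl : LS l)
    (hg : LS (fun p : α × β => g p.1 p.2)) : LS (fun a => (l a).map (g a)) :=
  (flatMap (g := fun a i => [g a i]) hl hg.singleton).congr fun a => by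
    simp [← List.map_eq_flatMap]

@[fun_prop] theorem flatten {l : α → List (List β)} (hl : LS l) : LS (fun a => (l a).flatten) := by
  simpa using flatMap (g := fun _ x => x) hl (by fun_prop)

@[fun_prop] theorem append {f g : α → List β} (hf : LS f) (hg : LS g) :
    LS (fun a => f a ++ g a) :=
  list_of (by simp only [List.length_append]; fun_prop) fun j hj => by
    simpa using strAppend (list_comp hf hj) (list_comp hg hj)

@[fun_prop] theorem cons {f : α → β} {g : α → List β} (hf : LS f) (hg : LS g) :
    LS (fun a => f a :: g a) := append hf.singleton hg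

@[fun_prop] theorem replicate {n : α → ℕ} {f : α → β} (hn : LS n) (hf : LS f) :
    LS (fun a => List.replicate (n a) (f a)) :=
  (mapRange (g := fun a _ => f a) hn (by fun_prop)).congr fun a => by simp

@[fun_prop] theorem some {f : α → β} (hf : LS f) : LS (fun a => some (f a)) := ⟨hf.singleton.out⟩

@[fun_prop] theorem toList {f : α → Option β} (hf : LS f) : LS (fun a => (f a).toList) := ⟨hf.out⟩

theorem of_toList {f : α → Option β} (hf : LS (fun a => (f a).toList)) : LS f := ⟨hf.out⟩

@[fun_prop] theorem optGetD {f : α → Option β} {d : α → β} (hf : LS f) (hd : LS d) :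
    LS (fun a => (f a).getD (d a)) :=
  (getD hf.toList (const 0) hd).congr fun a => by cases f a <;> rfl

@[fun_prop] theorem isSome {f : α → Option β} (hf : LS f) : LS (fun a => (f a).isSome) := by
  have : LS fun a => decide (0 < (f a).toList.length) := by fun_prop
  exact this.congr fun a => by cases f a <;> simp

@[fun_prop] theorem isNone {f : α → Option β} (hf : LS f) : LS (fun a => (f a).isNone) :=
  hf.isSome.not.congr fun a => by cases f a <;> simp

@[fun_prop] theorem optMap {f : α → Option β} {g : α → β → γ} (hf : LS f)
    (hg : LS (fun p : α × β => g p.1 p.2)) : LS (fun a => (f a).map (g a)) :=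
  of_toList ((map hf.toList hg).congr fun a => by cases f a <;> rfl)

@[fun_prop] theorem optBind {f : α → Option β} {g : α → β → Option γ} (hf : LS f)
    (hg : LS (fun p : α × β => g p.1 p.2)) : LS (fun a => (f a).bind (g a)) :=
  of_toList ((flatMap (g := fun a b => (g a b).toList) hf.toList hg.toList).congr fun a => by
    cases f a <;> simp)

@[fun_prop] theorem optElim {f : α → Option β} {d : α → γ} {g : α → β → γ} (hf : LS f)
    (hd : LS d) (hg : LS (fun p : α × β => g p.1 p.2)) : LS (fun a => (f a).elim (d a) (g a)) :=
  ((optMap hf hg).optGetD hd).congr fun a => by cases f a <;> rfl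

@[fun_prop] theorem getElem? {f : α → List β} {g : α → ℕ} (hf : LS f) (hg : LS g) :
    LS (fun a => (f a)[g a]?) := by
  have : LS fun a => ((f a).map Option.some).getD (g a) none := by fun_prop
  exact this.congr fun a => by
    simp only [List.getD_eq_getElem?_getD, List.getElem?_map]
    cases (f a)[g a]? <;> rfl

@[fun_prop] theorem head? {f : α → List β} (hf : LS f) : LS (fun a => (f a).head?) :=
  (getElem? hf (const 0)).congr fun a => by cases f a <;> rfl

@[fun_prop] theorem headD {f : α → List β} {d : α → β} (hf : LS f) (hd : LS d) :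
    LS (fun a => (f a).headD (d a)) :=
  (getD hf (const 0) hd).congr fun a => by cases f a <;> rfl

@[fun_prop] theorem isEmpty {f : α → List β} (hf : LS f) : LS (fun a => (f a).isEmpty) := by
  have : LS fun a => decide ((f a).length = 0) := by fun_prop
  exact this.congr fun a => by cases f a <;> simp

@[fun_prop] theorem inl {f : α → β} (hf : LS f) : LS (fun a => (Sum.inl (f a) : β ⊕ γ)) :=
  ⟨(pair hf.some (const (none : Option γ))).out⟩

@[fun_prop] theorem inr {f : α → γ} (hf : LS f) : LS (fun a => (Sum.inr (f a) : β ⊕ γ)) :=
  ⟨(pair (const (none : Option β)) hf.some).out⟩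

@[fun_prop] theorem getLeft? {f : α → β ⊕ γ} (hf : LS f) : LS (fun a => (f a).getLeft?) :=
  fst (f := fun a => ((f a).getLeft?, (f a).getRight?)) ⟨hf.out⟩

@[fun_prop] theorem getRight? {f : α → β ⊕ γ} (hf : LS f) : LS (fun a => (f a).getRight?) :=
  snd (f := fun a => ((f a).getLeft?, (f a).getRight?)) ⟨hf.out⟩

@[fun_prop] theorem sumElim {δ : Type} [Obj δ] {f : α → β ⊕ γ} {g : α → β → δ} {h : α → γ → δ}
    (hf : LS f) (hg : LS (fun p : α × β => g p.1 p.2)) (hh : LS (fun p : α × γ => h p.1 p.2)) :
    LS (fun a => Sum.elim (g a) (h a) (f a)) := by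
  rcases isEmpty_or_nonempty δ with h' | ⟨⟨d⟩⟩
  · have : IsEmpty α := ⟨fun a => isEmptyElim (Sum.elim (g a) (h a) (f a))⟩
    exact of_isEmpty _
  · have : LS fun a => (f a).getLeft?.elim ((f a).getRight?.elim d (h a)) (g a) := by fun_prop
    exact this.congr fun a => by cases f a <;> rfl

@[fun_prop] theorem filter {l : α → List β} {p : α → β → Bool} (hl : LS l)
    (hp : LS (fun q : α × β => p q.1 q.2)) : LS (fun a => (l a).filter (p a)) := by
  have : LS fun a => (l a).flatMap (fun b => if p a b then [b] else []) := by fun_prop
  refine this.congr fun a => ?_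
  induction l a with
  | nil => rfl
  | cons b l ih => by_cases h : p a b <;> simp [h, ih]

@[fun_prop] theorem filterMap {l : α → List β} {p : α → β → Option γ} (hl : LS l)
    (hp : LS (fun q : α × β => p q.1 q.2)) : LS (fun a => (l a).filterMap (p a)) := by
  have : LS fun a => (l a).flatMap (fun b => (p a b).toList) := by fun_prop
  refine this.congr fun a => ?_
  induction l a with
  | nil => rfl
  | cons b l ih => cases h : p a b <;> simp [h, ih]

@[fun_prop] theorem any {l : α → List β} {p : α → β → Bool} (hl : LS l)
    (hp : LS (fun q : α × β => p q.1 q.2)) : LS (fun a => (l a).any (p a)) := by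
  have : LS fun a => !((l a).filter (p a)).isEmpty := by fun_prop
  refine this.congr fun a => ?_
  induction l a with
  | nil => rfl
  | cons b l ih => by_cases h : p a b <;> simp [h, ← ih]

@[fun_prop] theorem all {l : α → List β} {p : α → β → Bool} (hl : LS l)
    (hp : LS (fun q : α × β => p q.1 q.2)) : LS (fun a => (l a).all (p a)) := by
  have : LS fun a => !((l a).any (fun b => !p a b)) := by fun_prop
  exact this.congr fun a => by simp [List.all_eq_not_any_not]

@[fun_prop] theorem countP {l : α → List β} {p : α → β → Bool} (hl : LS l)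
    (hp : LS (fun q : α × β => p q.1 q.2)) : LS (fun a => (l a).countP (p a)) := by
  simp only [List.countP_eq_length_filter]; fun_prop

@[fun_prop] theorem count [BEq β] [LawfulBEq β] {l : α → List β} {f : α → β} (hl : LS l)
    (hf : LS f) : LS (fun a => (l a).count (f a)) := by
  simp only [List.count]; fun_prop

@[fun_prop] theorem find? {l : α → List β} {p : α → β → Bool} (hl : LS l)
    (hp : LS (fun q : α × β => p q.1 q.2)) : LS (fun a => (l a).find? (p a)) := by
  have : LS fun a => ((l a).filter (p a)).head? := by fun_prop
  exact this.congr fun a => by simp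

theorem decide_mem {l : α → List β} {f : α → β} {inst : ∀ a, Decidable (f a ∈ l a)}
    (hf : LS f) (hl : LS l) : LS (fun a => @decide (f a ∈ l a) (inst a)) := by
  classical
  have : LS fun a => (l a).any (fun b => decide (f a = b)) := by fun_prop
  exact this.congr fun a => by
    by_cases h : f a ∈ l a
    · simp [h]
    · simp only [h, decide_false, List.any_eq_false, decide_eq_true_eq]
      rintro b hb rfl; exact h hb

@[fun_prop] theorem contains [BEq β] [LawfulBEq β] {l : α → List β} {f : α → β}
    (hl : LS l) (hf : LS f) : LS (fun a => (l a).contains (f a)) := by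
  classical
  exact (decide_mem (inst := fun _ => inferInstance) hf hl).congr fun a => by simp

theorem decide_forall_mem {l : α → List β} {p : α → β → Prop}
    {i1 : ∀ a, Decidable (∀ b ∈ l a, p a b)} [i2 : ∀ a b, Decidable (p a b)] (hl : LS l)
    (hp : LS (fun q : α × β => decide (p q.1 q.2))) :
    LS (fun a => @decide (∀ b ∈ l a, p a b) (i1 a)) :=
  (all (p := fun a b => decide (p a b)) hl hp).congr fun a => by
    by_cases h : ∀ b ∈ l a, p a b
    · simp only [_root_.decide_eq_true h]; simpa using h
    · simp only [_root_.decide_eq_false h]; simpa using h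

theorem decide_exists_mem {l : α → List β} {p : α → β → Prop}
    {i1 : ∀ a, Decidable (∃ b ∈ l a, p a b)} [i2 : ∀ a b, Decidable (p a b)] (hl : LS l)
    (hp : LS (fun q : α × β => decide (p q.1 q.2))) :
    LS (fun a => @decide (∃ b ∈ l a, p a b) (i1 a)) :=
  (any (p := fun a b => decide (p a b)) hl hp).congr fun a => by
    by_cases h : ∃ b ∈ l a, p a b
    · simp only [_root_.decide_eq_true h]; simpa using h
    · simp only [_root_.decide_eq_false h]; simpa using h

@[fun_prop] theorem _root_.Pool.Agent.Lib.Cx.LSP.mem {l : α → List β} {f : α → β}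
    (hl : LS l) (hf : LS f) : LSP (fun a => f a ∈ l a) := ⟨decide_mem hf hl⟩

@[fun_prop] theorem dec_forall_mem {l : α → List β} {p : α → β → Prop}
    {i : ∀ a b, Decidable (p a b)} (hl : LS l)
    (hp : LS (fun q : α × β => @decide (p q.1 q.2) (i q.1 q.2))) :
    LS (fun a => @decide (∀ b ∈ l a, p a b) (@List.decidableBAll _ (p a) (i a) (l a))) :=
  decide_forall_mem hl hp

@[fun_prop] theorem dec_exists_mem {l : α → List β} {p : α → β → Prop}
    {i : ∀ a b, Decidable (p a b)} (hl : LS l)
    (hp : LS (fun q : α × β => @decide (p q.1 q.2) (i q.1 q.2))) :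
    LS (fun a => @decide (∃ b ∈ l a, p a b) (@List.decidableBEx _ (p a) (i a) (l a))) :=
  decide_exists_mem hl hp

@[fun_prop] theorem sum {l : α → List ℕ} (hl : LS l) : LS (fun a => (l a).sum) := by
  have : LS fun a => ((l a).flatMap (fun b => List.replicate b ())).length := by fun_prop
  exact this.congr fun a => by simp

@[fun_prop] theorem take {l : α → List β} {n : α → ℕ} (hn : LS n) (hl : LS l) :
    LS (fun a => (l a).take (n a)) := by
  have : LS fun a => (List.range (n a)).filterMap (fun i => (l a)[i]?) := by fun_prop
  refine this.congr fun a => ?_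
  induction n a with
  | zero => simp
  | succ m ih =>
    rw [List.range_succ, List.filterMap_append, ih, List.take_add_one]
    cases h : (l a)[m]? <;> simp [h]

@[fun_prop] theorem drop {l : α → List β} {n : α → ℕ} (hn : LS n) (hl : LS l) :
    LS (fun a => (l a).drop (n a)) := by
  rcases isEmpty_or_nonempty β with h | ⟨⟨d⟩⟩
  · exact list_of_isEmpty _
  have : LS fun a => (List.range ((l a).length - n a)).map (fun i => (l a).getD (n a + i) d) := by
    fun_prop
  refine this.congr fun a => ?_
  conv_rhs => rw [eq_map_range_getD ((l a).drop (n a)) d]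
  simp [List.getD_eq_getElem?_getD]

@[fun_prop] theorem tail {l : α → List β} (hl : LS l) : LS (fun a => (l a).tail) := by
  simpa using drop (const 1) hl

@[fun_prop] theorem reverse {l : α → List β} (hl : LS l) : LS (fun a => (l a).reverse) := by
  rcases isEmpty_or_nonempty β with h | ⟨⟨d⟩⟩
  · exact list_of_isEmpty _
  have : LS fun a => (List.range (l a).length).map
      (fun i => (l a).getD ((l a).length - 1 - i) d) := by fun_prop
  refine this.congr fun a => List.ext_getElem (by simp) fun i h1 h2 => ?_
  have h3 : (l a).length - 1 - i < (l a).length := by simp at h1; omega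
  simp [List.getD_eq_getElem?_getD, List.getElem?_eq_getElem h3]

@[fun_prop] theorem getLast? {f : α → List β} (hf : LS f) : LS (fun a => (f a).getLast?) := by
  simpa using hf.reverse.head?

@[fun_prop] theorem set {l : α → List β} {n : α → ℕ} {f : α → β} (hl : LS l) (hn : LS n)
    (hf : LS f) : LS (fun a => (l a).set (n a) (f a)) := by
  have : LS fun a => (List.range (l a).length).map
      (fun i => if i = n a then f a else (l a).getD i (f a)) := by fun_prop
  refine this.congr fun a => List.ext_getElem (by simp) fun i h1 h2 => ?_
  have h3 : i < (l a).length := by simpa using h1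
  by_cases h : i = n a
  · simp [h]
  · simp [h, List.getElem_set_ne (Ne.symm h), List.getD_eq_getElem?_getD,
      List.getElem?_eq_getElem h3]

@[fun_prop] theorem zipWith {δ : Type} [Obj δ] {l : α → List β} {l' : α → List γ}
    {g : α → β → γ → δ} (hl : LS l) (hl' : LS l')
    (hg : LS (fun p : α × β × γ => g p.1 p.2.1 p.2.2)) :
    LS (fun a => List.zipWith (g a) (l a) (l' a)) := by
  rcases isEmpty_or_nonempty β with h | ⟨⟨d⟩⟩
  · exact (const []).congr fun a => by
      cases l a with
      | nil => rfl
      | cons b _ => exact isEmptyElim b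
  rcases isEmpty_or_nonempty γ with h | ⟨⟨d'⟩⟩
  · exact (const []).congr fun a => by
      cases l' a with
      | nil => simp
      | cons b _ => exact isEmptyElim b
  have : LS fun a => (List.range (Min.min (l a).length (l' a).length)).map
      (fun i => g a ((l a).getD i d) ((l' a).getD i d')) := by fun_prop
  refine this.congr fun a => List.ext_getElem (by simp) fun i h1 h2 => ?_
  have h3 : i < (l a).length ∧ i < (l' a).length := by simpa using h1
  simp [List.getD_eq_getElem?_getD, List.getElem?_eq_getElem h3.1, List.getElem?_eq_getElem h3.2]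

@[fun_prop] theorem zip {l : α → List β} {l' : α → List γ} (hl : LS l) (hl' : LS l') :
    LS (fun a => List.zip (l a) (l' a)) :=
  zipWith (g := fun _ => Prod.mk) hl hl' (by fun_prop)

@[fun_prop] theorem findIdx {l : α → List β} {p : α → β → Bool} (hl : LS l)
    (hp : LS (fun q : α × β => p q.1 q.2)) : LS (fun a => (l a).findIdx (p a)) := by
  have : LS fun a => Cx.findLt (l a).length (fun i => ((l a)[i]?.map (p a)).getD false) := by
    fun_prop
  refine this.congr fun a => findLt_eq List.findIdx_le_length (fun h => ?_) fun i hi => ?_
  · simpa [List.getElem?_eq_getElem h] using List.findIdx_getElem (w := h)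
  · have h1 : i < (l a).length := hi.trans_le List.findIdx_le_length
    simp [List.getElem?_eq_getElem h1, List.not_of_lt_findIdx hi]

@[fun_prop] theorem idxOf [BEq β] [LawfulBEq β] {l : α → List β} {f : α → β} (hf : LS f)
    (hl : LS l) : LS (fun a => (l a).idxOf (f a)) := by
  simp only [List.idxOf]; fun_prop

theorem decide_nodup {l : α → List β} {inst : ∀ a, Decidable (l a).Nodup}
    (hl : LS l) : LS (fun a => @decide (l a).Nodup (inst a)) := by
  classical
  have : LS fun a => decide (∀ b ∈ l a, (l a).count b ≤ 1) := by fun_prop
  refine this.congr fun a => decide_eq_decide.2 ?_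
  rw [List.nodup_iff_count_le_one]
  refine ⟨fun h b => ?_, fun h b _ => h b⟩
  by_cases hb : b ∈ l a
  · exact h b hb
  · simp [List.count_eq_zero_of_not_mem hb]

@[fun_prop] theorem _root_.Pool.Agent.Lib.Cx.LSP.nodup {l : α → List β} (hl : LS l) :
    LSP (fun a => (l a).Nodup) := ⟨decide_nodup hl⟩

/-- The bits of a raw string as a list of Booleans. -/
@[fun_prop] theorem strVal {f : α → Str} (hf : LS f) : LS (fun a => (f a).val) := by
  have : LS fun a => (List.range (f a).val.length).map (fun i => (bitv (f a).val i == 1)) := by
    fun_prop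
  refine this.congr fun a => ?_
  conv_rhs => rw [eq_map_range_getD (f a).val false]
  refine List.map_congr_left fun i _ => ?_
  unfold bitv; cases (f a).val.getD i false <;> rfl

/-- A list of Booleans as a raw string. -/
@[fun_prop] theorem strMk {f : α → List Bool} (hf : LS f) : LS (fun a => Str.mk (f a)) :=
  str_of' (by fun_prop) (by fun_prop)

@[fun_prop] theorem listDl {f : α → List Bool} (hf : LS f) : LS (fun a => dl (f a)) :=
  (strDl hf.strMk).strVal

@[fun_prop] theorem listBlk {f : α → List Bool} {g : α → ℕ} (hf : LS f) (hg : LS g) :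
    LS (fun a => blk (f a) (g a)) :=
  (strBlk hf.strMk hg).strVal

@[fun_prop] theorem listBstart {f : α → List Bool} {g : α → ℕ} (hf : LS f) (hg : LS g) :
    LS (fun a => bstart (f a) (g a)) :=
  strBstart hf.strMk hg

@[fun_prop] theorem encComp (j : ℕ) {f : α → β} (hf : LS f) : LS (fun a => enc (f a) j) :=
  (comp _ _ (encStr j) hf).strVal

end LS

end Pool.Agent.Lib.Cx
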