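import Pool.Agent.Lib.Cx.Stack
import Pool.Agent.Lib.Cx.LSList
import Pool.Prelude.Def_H_3587d628

/-!
`LS` functions are polynomial-time computable in the sense of the Prelude (`IsPolyTime`).
-/

namespace Pool.Agent.Lib.Cx

open Obj N487b59b3 N68a2faeb

theorem delimit_eq_dl (l : List Bool) : delimit l = dl l := by
  induction l with
  | nil => rfl
  | cons b l ih => simp [delimit, dl, ih]

theorem bitEncode_list (l : List Bool) : bitEncode l = l.flatMap fun b => [true, b, false] := by
  change ((l.map bitEncode).map delimit).flatten = _
  induction l with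
  | nil => rfl
  | cons b l ih => simp only [List.map_cons, List.flatten_cons, ih, List.flatMap_cons]; rfl

theorem bitEncode_pair (x w : List Bool) : bitEncode (x, w) = dl (bitEncode x) ++ bitEncode w := by
  rw [← delimit_eq_dl]; rfl

/-- Decoding of the three-bits-per-bit code. -/
def unTri (s : List Bool) : List Bool :=
  (List.range (s.length / 3)).map fun i => s.getD (3 * i + 1) false

theorem unTri_bitEncode (l : List Bool) : unTri (bitEncode l) = l := by
  have h1 : ∀ l : List Bool, (l.flatMap fun b => [true, b, false]).length = 3 * l.length := by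
    intro l; induction l with
    | nil => rfl
    | cons b l ih => simp only [List.flatMap_cons, List.length_append, ih]; simp; omega
  have h2 : ∀ (l : List Bool) i,
      (l.flatMap fun b => [true, b, false]).getD (3 * i + 1) false = l.getD i false := by
    intro l; induction l with
    | nil => simp
    | cons b l ih =>
      intro i
      rcases i with _ | i
      · simp
      · simp only [List.flatMap_cons, Nat.mul_succ, List.cons_append, List.nil_append,
          List.getD_cons_succ, Nat.add_right_comm _ 3 1, ih]
  rw [bitEncode_list, unTri, h1, Nat.mul_div_cancel_left _ (by norm_num)]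
  simp only [h2]
  exact (eq_map_range_getD l false).symm

@[fun_prop] theorem LS.unTri {α : Type} [Obj α] {f : α → List Bool} (hf : LS f) :
    LS (fun a => unTri (f a)) := by
  unfold Cx.unTri; fun_prop

@[fun_prop] theorem LS.bitEncodeList {α : Type} [Obj α] {f : α → List Bool} (hf : LS f) :
    LS (fun a => bitEncode (f a)) := by
  simp only [bitEncode_list]; fun_prop

/-- A general bridge: an `LS` string function that maps codes to codes. -/
theorem isPolyTime_of_ls {α β : Type} [N487b59b3 α] [N487b59b3 β] (f : α → β)
    (F : List Bool → List Bool) (hF : LS F) (h : ∀ a, F (bitEncode a) = bitEncode (f a)) :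
    IsPolyTime f := by
  have h1 : LS (fun s : Str => Str.mk (F s.val)) := by fun_prop
  obtain ⟨P, q, hP⟩ := h1.exists_sp Str.val (fun _ => rfl)
  refine SP.polyTime _ _ f P q fun a => ?_
  have := hP (Str.mk (bitEncode a))
  simp only [Str.val_mk, h] at this
  exact this

theorem LS.isPolyTime {F : List Bool → List Bool} (hF : LS F) : IsPolyTime F :=
  isPolyTime_of_ls F (fun s => bitEncode (F (Cx.unTri s))) (by fun_prop)
    fun a => by rw [unTri_bitEncode]

theorem LS.isPolyTime_bool {F : List Bool → Bool} (hF : LS F) : IsPolyTime F :=
  isPolyTime_of_ls F (fun s => [F (Cx.unTri s)]) (by fun_prop)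
    fun a => by rw [unTri_bitEncode]; rfl

/-- Decoding of the code of a pair of strings. -/
def unPair (s : List Bool) : List Bool × List Bool :=
  (unTri (blk s 0), unTri (s.drop (bstart s 1)))

theorem unPair_bitEncode (p : List Bool × List Bool) : unPair (bitEncode p) = p := by
  obtain ⟨x, w⟩ := p
  have h1 := blk_flatMap [bitEncode x] (bitEncode w) 0 (by simp)
  have h2 := bstart_flatMap [bitEncode x] (bitEncode w) 1 (by simp)
  simp only [List.flatMap_cons, List.flatMap_nil, List.append_nil, List.getElem_cons_zero,
    List.take_succ_cons, List.take_zero] at h1 h2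
  rw [unPair, bitEncode_pair, h1, h2, List.drop_left, unTri_bitEncode, unTri_bitEncode]

@[fun_prop] theorem LS.unPair {α : Type} [Obj α] {f : α → List Bool} (hf : LS f) :
    LS (fun a => unPair (f a)) := by
  unfold Cx.unPair; fun_prop

theorem LS.isPolyTime_pair {F : List Bool × List Bool → Bool} (hF : LS F) : IsPolyTime F :=
  isPolyTime_of_ls F (fun s => [F (Cx.unPair s)]) (by fun_prop)
    fun a => by rw [unPair_bitEncode]; rfl

theorem LS.mem_P {L : List Bool → Bool} (hL : LS L) : L ∈ N68a2faeb.P := hL.isPolyTime_bool

/-- Membership in `NP` through an `LS` verifier. -/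
theorem mem_NP_of_ls {L : List Bool → Bool} (p : Polynomial ℕ) (R : List Bool × List Bool → Bool)
    (hR : LS R) (h : ∀ x, L x = true ↔ ∃ w : List Bool, w.length ≤ p.eval x.length ∧ R (x, w)) :
    L ∈ N68a2faeb.NP :=
  ⟨p, R, hR.isPolyTime_pair, h⟩

end Pool.Agent.Lib.Cx
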