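import Mathlib
import Pool.Prelude.Def_H_3587d628

/-!
Polynomial space, logarithmic-space transducers, logarithmic-space many-one reductions and
completeness.
-/

namespace Pool.Agent.Lib.Cx

open Turing

/-- `PSPACE`: the decision problems decided by a (Mathlib) multi-stack machine all of whose
stacks have length bounded by a polynomial in the input length during the whole computation. -/
def PSPACE : Set N68a2faeb.DecisionProblem :=
  {L | ∃ (M : TM2Computable (fun x : List Bool => x) (fun b : Bool => [b]) L) (p : Polynomial ℕ),
    ∀ (x : List Bool) (n : ℕ) (c : M.tm.Cfg),
      (flip bind M.tm.step)^[n] (some (initList M.tm (x.map M.inputAlphabet.invFun))) = some c →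
        ∀ k, (c.stk k).length ≤ p.eval x.length}

/-- Head moves. -/
inductive Move : Type
  | left : Move
  | stay : Move
  | right : Move

/-- The effect of a move on a head position (a left move at cell `0` stays there). -/
def Move.apply : Move → ℕ → ℕ
  | .left, h => h - 1
  | .stay, h => h
  | .right, h => h + 1

/-- A deterministic Turing transducer: finite control `Q`, a two-way read-only input tape,
`k` read-write work tapes over the finite alphabet `Γ`, and a write-only output tape.
From the state, the scanned input symbol (`none` on the end markers) and the scanned work symbols,
`δ` either halts or gives the new state, the move of the input head, the symbol written and the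
move on each work tape, and the bit (if any) appended to the output. -/
structure Transducer where
  Q : Type
  Γ : Type
  finQ : Finite Q
  finΓ : Finite Γ
  k : ℕ
  start : Q
  blank : Γ
  δ : Q → Option Bool → (Fin k → Γ) → Option (Q × Move × (Fin k → Γ × Move) × Option Bool)

/-- Configurations: state, input head, work tapes, work heads, output so far. -/
structure Transducer.Cfg (M : Transducer) where
  q : M.Q
  pos : ℕ
  tape : Fin M.k → ℕ → M.Γ
  head : Fin M.k → ℕ
  out : List Bool

/-- The input tape holds `x` in the cells `1, ..., |x|`, between two end markers. -/
def inputSym (x : List Bool) (h : ℕ) : Option Bool := if h = 0 then none else x[h - 1]?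

/-- One step on input `x`. -/
def Transducer.step (M : Transducer) (x : List Bool) (c : M.Cfg) : Option M.Cfg :=
  (M.δ c.q (inputSym x c.pos) fun i => c.tape i (c.head i)).map fun r =>
    { q := r.1
      pos := min (r.2.1.apply c.pos) (x.length + 1)
      tape := fun i => Function.update (c.tape i) (c.head i) (r.2.2.1 i).1
      head := fun i => (r.2.2.1 i).2.apply (c.head i)
      out := c.out ++ r.2.2.2.toList }

/-- The configuration after `t` steps on input `x` (blank work tapes, all heads on cell `0`). -/
def Transducer.run (M : Transducer) (x : List Bool) (t : ℕ) : Option M.Cfg :=
  (fun o : Option M.Cfg => o.bind (M.step x))^[t]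
    (some ⟨M.start, 0, fun _ _ => M.blank, fun _ => 0, []⟩)

/-- `f` is computed by a transducer whose work heads stay within `O(log n)` cells. -/
def LogspaceComputable (f : List Bool → List Bool) : Prop :=
  ∃ (M : Transducer) (C : ℕ), ∀ x : List Bool,
    (∃ t c, M.run x t = some c ∧ M.step x c = none ∧ c.out = f x) ∧
    ∀ t c, M.run x t = some c → ∀ i, c.head i ≤ C * Nat.log 2 x.length + C

/-- Logarithmic-space many-one reducibility. -/
def LogReducible (A B : N68a2faeb.DecisionProblem) : Prop :=
  ∃ f, LogspaceComputable f ∧ ∀ x, A x = B (f x)

/-- Completeness for a class under logarithmic-space many-one reductions. -/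
def LogComplete (K : Set N68a2faeb.DecisionProblem) (B : N68a2faeb.DecisionProblem) : Prop :=
  B ∈ K ∧ ∀ A ∈ K, LogReducible A B

end Pool.Agent.Lib.Cx
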