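import Mathlib

/-!
Normal-form stack machines and the simulation of `Turing.FinTM2` by them.
-/

namespace Pool.Agent.Lib.Cx

open Turing

/-- One stack operation. -/
inductive Op (G : Type) : Type
  | nop : Op G
  | pop : Op G
  | push : G → Op G

def Op.apply {G : Type} : Op G → List G → List G
  | .nop, l => l
  | .pop, l => l.tail
  | .push g, l => g :: l

/-- A normal-form machine: in state `q` it looks at the top of stack `stk q`, changes state and
performs one operation on that stack. -/
structure NM (Q K G : Type) where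
  stk : Q → K
  nxt : Q → Option G → Q
  op : Q → Option G → Op G

namespace NM

variable {Q K G : Type} [DecidableEq K]

def step (M : NM Q K G) (c : Q × (K → List G)) : Q × (K → List G) :=
  (M.nxt c.1 (c.2 (M.stk c.1)).head?,
    Function.update c.2 (M.stk c.1)
      ((M.op c.1 (c.2 (M.stk c.1)).head?).apply (c.2 (M.stk c.1))))

theorem step_length (M : NM Q K G) (c : Q × (K → List G)) (k : K) :
    ((M.step c).2 k).length ≤ (c.2 k).length + 1 := by
  unfold step
  by_cases h : k = M.stk c.1
  · subst h
    simp only [Function.update_self]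
    cases M.op c.1 (c.2 (M.stk c.1)).head? <;> simp [Op.apply]
    omega
  · simp [Function.update_of_ne h]

theorem iterate_length (M : NM Q K G) (t : ℕ) (c : Q × (K → List G)) (k : K) :
    ((M.step^[t] c).2 k).length ≤ (c.2 k).length + t := by
  induction t with
  | zero => simp
  | succ t ih =>
    rw [Function.iterate_succ_apply']
    exact (M.step_length _ k).trans (by omega)

theorem step_absorbing (M : NM Q K G) {q : Q} (h : ∀ og, M.nxt q og = q ∧ M.op q og = .nop)
    (S : K → List G) : M.step (q, S) = (q, S) := by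
  simp [step, (h _).1, (h _).2, Op.apply]

theorem iterate_absorbing (M : NM Q K G) {q : Q} (h : ∀ og, M.nxt q og = q ∧ M.op q og = .nop)
    (S : K → List G) (t : ℕ) : M.step^[t] (q, S) = (q, S) :=
  Function.iterate_fixed (M.step_absorbing h S) t

/-- Restriction of a machine along maps whose ranges are closed under the transitions. -/
theorem exists_restrict {Q' K' G' : Type} [DecidableEq K'] (M : NM Q K G) (iq : Q' → Q)
    (hq : Function.Injective iq) (ek : K ≃ K') (ig : G' → G)
    (h1 : ∀ q og, ∃ q', iq q' = M.nxt (iq q) og)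
    (h2 : ∀ q og g, M.op (iq q) og = .push g → ∃ g', ig g' = g) :
    ∃ M' : NM Q' K' G',
      (∀ q, (∀ og, M.nxt (iq q) og = iq q ∧ M.op (iq q) og = .nop) →
        ∀ og, M'.nxt q og = q ∧ M'.op q og = .nop) ∧
      ∀ (t : ℕ) (c : Q' × (K' → List G')),
        M.step^[t] (iq c.1, fun k => (c.2 (ek k)).map ig) =
          (iq (M'.step^[t] c).1, fun k => ((M'.step^[t] c).2 (ek k)).map ig) := by
  classical
  choose nx hnx using h1
  have h3 : ∀ q og, ∃ o : Op G', (M.op (iq q) og = .nop → o = .nop) ∧
      ∀ l : List G', (o.apply l).map ig = (M.op (iq q) og).apply (l.map ig) := by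
    intro q og
    cases h : M.op (iq q) og with
    | nop => exact ⟨.nop, fun _ => rfl, fun _ => rfl⟩
    | pop => exact ⟨.pop, fun e => (by cases e), fun l => by simp [Op.apply]⟩
    | push g =>
      obtain ⟨g', hg'⟩ := h2 q og g h
      exact ⟨.push g', fun e => (by cases e), fun l => by simp [Op.apply, hg']⟩
  choose op hop1 hop2 using h3
  let M' : NM Q' K' G' := ⟨fun q => ek (M.stk (iq q)), fun q og => nx q (og.map ig),
    fun q og => op q (og.map ig)⟩
  have one : ∀ c : Q' × (K' → List G'), M.step (iq c.1, fun k => (c.2 (ek k)).map ig) =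
      (iq (M'.step c).1, fun k => ((M'.step c).2 (ek k)).map ig) := by
    rintro ⟨q, S⟩
    simp only [step, M', hnx, List.head?_map, Prod.mk.injEq, true_and]
    funext k
    by_cases h : k = M.stk (iq q)
    · subst h
      simp only [Function.update_self, hop2]
    · rw [Function.update_of_ne h, Function.update_of_ne (fun e => h (ek.injective e))]
  refine ⟨M', ?_, ?_⟩
  · intro q h og
    exact ⟨hq (by simp only [M', hnx, (h _).1]), hop1 _ _ (h _).2⟩
  · intro t
    induction t with
    | zero => intro c; rfl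
    | succ t ih =>
      intro c
      rw [Function.iterate_succ_apply, Function.iterate_succ_apply, one, ih]

end NM

section sim

variable (tm : FinTM2) (acc : tm.Γ tm.k₁ → Bool)

/-- States of the infinite normal-form machine. -/
abbrev SQ := (TM2.Stmt tm.Γ tm.Λ tm.σ × tm.σ) ⊕ Option Bool

/-- Symbols of the infinite normal-form machine. -/
abbrev SG := Σ k : tm.K, tm.Γ k

def proj (k : tm.K) : Option (SG tm) → Option (tm.Γ k)
  | none => none
  | some ⟨k', g⟩ => if h : k' = k then some (h ▸ g) else none

theorem proj_head (k : tm.K) (l : List (tm.Γ k)) :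
    proj tm k (l.map (Sigma.mk k)).head? = l.head? := by
  cases l <;> simp [proj]

def simM : NM (SQ tm) tm.K (SG tm) where
  stk
    | .inl (.push k _ _, _) => k
    | .inl (.peek k _ _, _) => k
    | .inl (.pop k _ _, _) => k
    | _ => tm.k₁
  nxt
    | .inl (.push _ _ q, v), _ => .inl (q, v)
    | .inl (.peek k f q, v), og => .inl (q, f v (proj tm k og))
    | .inl (.pop k f q, v), og => .inl (q, f v (proj tm k og))
    | .inl (.load f q, v), _ => .inl (q, f v)
    | .inl (.branch f q₁ q₂, v), _ => .inl (cond (f v) q₁ q₂, v)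
    | .inl (.goto f, v), _ => .inl (tm.m (f v), v)
    | .inl (.halt, _), _ => .inr none
    | .inr none, og => .inr (some (((proj tm tm.k₁ og).map acc).getD false))
    | .inr (some b), _ => .inr (some b)
  op
    | .inl (.push k f _, v), _ => .push ⟨k, f v⟩
    | .inl (.pop _ _ _, _), _ => .pop
    | _, _ => .nop

def trS (S : ∀ k, List (tm.Γ k)) : tm.K → List (SG tm) := fun k => (S k).map (Sigma.mk k)

def emb : tm.Cfg → SQ tm × (tm.K → List (SG tm))
  | ⟨some l, v, S⟩ => (.inl (tm.m l, v), trS tm S)
  | ⟨none, _, S⟩ => (.inr none, trS tm S)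

theorem emb_snd (c : tm.Cfg) : (emb tm c).2 = trS tm c.stk := by
  obtain ⟨_ | l, v, S⟩ := c <;> rfl

def stmtSize : TM2.Stmt tm.Γ tm.Λ tm.σ → ℕ
  | .push _ _ q => stmtSize q + 1
  | .peek _ _ q => stmtSize q + 1
  | .pop _ _ q => stmtSize q + 1
  | .load _ q => stmtSize q + 1
  | .branch _ q₁ q₂ => stmtSize q₁ + stmtSize q₂ + 1
  | .goto _ => 1
  | .halt => 1

theorem trS_update (S : ∀ k, List (tm.Γ k)) (k : tm.K) (l : List (tm.Γ k)) :
    trS tm (Function.update S k l) = Function.update (trS tm S) k (l.map (Sigma.mk k)) := by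
  funext k'
  by_cases h : k' = k
  · subst h; simp [trS]
  · simp [trS, Function.update_of_ne h]

theorem micro (q : TM2.Stmt tm.Γ tm.Λ tm.σ) : ∀ (v : tm.σ) (S : ∀ k, List (tm.Γ k)),
    ∃ j, 1 ≤ j ∧ j ≤ stmtSize tm q ∧
      (simM tm acc).step^[j] (.inl (q, v), trS tm S) = emb tm (TM2.stepAux q v S) := by
  induction q with
  | push k f q ih =>
    intro v S
    obtain ⟨j, h1, h2, h3⟩ := ih v (Function.update S k (f v :: S k))
    refine ⟨j + 1, by omega, by simp only [stmtSize]; omega, ?_⟩
    rw [Function.iterate_succ_apply, TM2.stepAux, ← h3, trS_update]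
    rfl
  | peek k f q ih =>
    intro v S
    obtain ⟨j, h1, h2, h3⟩ := ih (f v (S k).head?) S
    refine ⟨j + 1, by omega, by simp only [stmtSize]; omega, ?_⟩
    rw [Function.iterate_succ_apply, TM2.stepAux, ← h3]
    congr 1
    simp only [NM.step, simM, Op.apply, Function.update_eq_self]
    simp only [trS, proj_head]
  | pop k f q ih =>
    intro v S
    obtain ⟨j, h1, h2, h3⟩ := ih (f v (S k).head?) (Function.update S k (S k).tail)
    refine ⟨j + 1, by omega, by simp only [stmtSize]; omega, ?_⟩
    rw [Function.iterate_succ_apply, TM2.stepAux, ← h3, trS_update]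
    congr 1
    simp only [NM.step, simM, Op.apply, trS, proj_head, List.map_tail]
  | load f q ih =>
    intro v S
    obtain ⟨j, h1, h2, h3⟩ := ih (f v) S
    refine ⟨j + 1, by omega, by simp only [stmtSize]; omega, ?_⟩
    rw [Function.iterate_succ_apply, TM2.stepAux, ← h3]
    congr 1
    simp only [NM.step, simM, Op.apply, Function.update_eq_self]
  | branch f q₁ q₂ ih₁ ih₂ =>
    intro v S
    cases hf : f v
    · obtain ⟨j, h1, h2, h3⟩ := ih₂ v S
      refine ⟨j + 1, by omega, by simp only [stmtSize]; omega, ?_⟩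
      rw [Function.iterate_succ_apply, TM2.stepAux, hf, cond_false, ← h3]
      congr 1
      simp only [NM.step, simM, Op.apply, Function.update_eq_self, hf, cond_false]
    · obtain ⟨j, h1, h2, h3⟩ := ih₁ v S
      refine ⟨j + 1, by omega, by simp only [stmtSize]; omega, ?_⟩
      rw [Function.iterate_succ_apply, TM2.stepAux, hf, cond_true, ← h3]
      congr 1
      simp only [NM.step, simM, Op.apply, Function.update_eq_self, hf, cond_true]
  | goto f =>
    intro v S
    refine ⟨1, le_rfl, le_rfl, ?_⟩
    simp only [Function.iterate_one, NM.step, simM, Op.apply, Function.update_eq_self,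
      TM2.stepAux, emb]
  | halt =>
    intro v S
    refine ⟨1, le_rfl, le_rfl, ?_⟩
    simp only [Function.iterate_one, NM.step, simM, Op.apply, Function.update_eq_self,
      TM2.stepAux, emb]

/-- A bound for the number of small steps per step. -/
noncomputable def stepBound : ℕ :=
  haveI := tm.ΛFin
  (∑ l, stmtSize tm (tm.m l)) + 1

theorem sim_step {a b : tm.Cfg} (h : tm.step a = some b) :
    ∃ j, 1 ≤ j ∧ j ≤ stepBound tm ∧ (simM tm acc).step^[j] (emb tm a) = emb tm b := by
  obtain ⟨_ | l, v, S⟩ := a
  · cases h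
  · obtain ⟨j, h1, h2, h3⟩ := micro tm acc (tm.m l) v S
    have hb : b = TM2.stepAux (tm.m l) v S := (Option.some.inj h).symm
    refine ⟨j, h1, ?_, by rw [hb]; exact h3⟩
    unfold stepBound
    exact h2.trans ((Finset.single_le_sum (f := fun l => stmtSize tm (tm.m l))
      (fun _ _ => Nat.zero_le _) (@Finset.mem_univ _ tm.ΛFin l)).trans (Nat.le_succ _))

theorem iterate_none {σ : Type} (f : σ → Option σ) (n : ℕ) : (flip bind f)^[n] none = none :=
  Function.iterate_fixed rfl n

theorem sim_run (n : ℕ) : ∀ {a b : tm.Cfg}, (flip bind tm.step)^[n] (some a) = some b →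
    ∃ j, j ≤ stepBound tm * n ∧ (simM tm acc).step^[j] (emb tm a) = emb tm b := by
  induction n with
  | zero =>
    intro a b h
    cases h
    exact ⟨0, le_rfl, rfl⟩
  | succ n ih =>
    intro a b h
    rw [Function.iterate_succ_apply] at h
    have h' : (flip bind tm.step)^[n] (tm.step a) = some b := h
    cases ha : tm.step a with
    | none => rw [ha, iterate_none] at h'; cases h'
    | some a' =>
      rw [ha] at h'
      obtain ⟨j, -, h2, h3⟩ := sim_step tm acc ha
      obtain ⟨j', h4, h5⟩ := ih h'
      refine ⟨j' + j, by rw [Nat.mul_succ]; omega, ?_⟩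
      rw [Function.iterate_add_apply, h3, h5]

theorem sim_final (b : Bool) : ∀ og, (simM tm acc).nxt (.inr (some b)) og = .inr (some b) ∧
    (simM tm acc).op (.inr (some b)) og = .nop := fun _ => ⟨rfl, rfl⟩

theorem sim_time {l : List (tm.Γ tm.k₀)} {g : tm.Γ tm.k₁} {n : ℕ}
    (h : (flip bind tm.step)^[n] (some (initList tm l)) = some (haltList tm [g])) (t : ℕ)
    (ht : stepBound tm * (n + 1) ≤ t) :
    ((simM tm acc).step^[t] (emb tm (initList tm l))).1 = .inr (some (acc g)) := by
  obtain ⟨j, h1, h2⟩ := sim_run tm acc n h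
  have hc : 1 ≤ stepBound tm := by unfold stepBound; omega
  obtain ⟨r, rfl⟩ : ∃ r, t = r + 1 + j := ⟨t - 1 - j, by rw [Nat.mul_succ] at ht; omega⟩
  rw [Function.iterate_add_apply, h2, Function.iterate_succ_apply]
  have : (simM tm acc).step (emb tm (haltList tm [g])) =
      (.inr (some (acc g)), trS tm (haltList tm [g]).stk) := by
    simp only [NM.step, simM, Op.apply, Function.update_eq_self, haltList, emb]
    simp only [trS, proj_head]
    simp
  rw [this, NM.iterate_absorbing _ (sim_final tm acc _)]

theorem sim_space (P : tm.Cfg → Prop) (hP : ∀ a b, P a → tm.step a = some b → P b) (s : ℕ)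
    (hs : ∀ a, P a → ∀ k, (a.stk k).length ≤ s) (t : ℕ) :
    ∀ a, P a → ∀ k, (((simM tm acc).step^[t] (emb tm a)).2 k).length ≤ s + stepBound tm := by
  induction t using Nat.strong_induction_on with
  | _ t ih =>
    intro a ha k
    have base : ((emb tm a).2 k).length ≤ s := by
      rw [emb_snd]; simpa [trS] using hs a ha k
    cases hst : tm.step a with
    | none =>
      obtain ⟨_ | l, v, S⟩ := a
      · cases t with
        | zero => exact base.trans (Nat.le_add_right _ _)
        | succ t =>
          rw [Function.iterate_succ_apply]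
          have : ∃ b, (simM tm acc).step (emb tm ⟨none, v, S⟩) =
              (.inr (some b), (emb tm ⟨none, v, S⟩).2) := by
            simp only [NM.step, simM, Op.apply, Function.update_eq_self, emb]
            exact ⟨_, rfl⟩
          obtain ⟨b, hb⟩ := this
          rw [hb, NM.iterate_absorbing _ (sim_final tm acc _)]
          exact base.trans (Nat.le_add_right _ _)
      · cases hst
    | some b =>
      obtain ⟨j, h1, h2, h3⟩ := sim_step tm acc hst
      by_cases htj : t ≤ j
      · exact (NM.iterate_length _ t _ k).trans (by omega)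
      · obtain ⟨r, rfl⟩ : ∃ r, t = r + j := ⟨t - j, by omega⟩
        rw [Function.iterate_add_apply, h3]
        exact ih r (by omega) b (hP a b ha hst) k

end sim

/-- Every `FinTM2` is simulated by a normal-form machine over `Fin` types, with linear overhead in
time and additive overhead in space. -/
theorem exists_NM (tm : FinTM2) (acc : tm.Γ tm.k₁ → Bool) :
    ∃ (a b d : ℕ) (M : NM (Fin a) (Fin b) (Fin d)) (q0 qacc qrej : Fin a) (k0 : Fin b)
      (ι : tm.Γ tm.k₀ → Fin d) (c : ℕ), qacc ≠ qrej ∧
      (∀ og, M.nxt qacc og = qacc ∧ M.op qacc og = .nop) ∧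
      (∀ og, M.nxt qrej og = qrej ∧ M.op qrej og = .nop) ∧
      (∀ (l : List (tm.Γ tm.k₀)) (g : tm.Γ tm.k₁) (n : ℕ),
        (flip bind tm.step)^[n] (some (initList tm l)) = some (haltList tm [g]) →
        ∀ t, c * (n + 1) ≤ t →
          (M.step^[t] (q0, Function.update (fun _ => []) k0 (l.map ι))).1 =
            if acc g then qacc else qrej) ∧
      (∀ (l : List (tm.Γ tm.k₀)) (s : ℕ),
        (∀ (n : ℕ) (cfg : tm.Cfg), (flip bind tm.step)^[n] (some (initList tm l)) = some cfg →
          ∀ k, (cfg.stk k).length ≤ s) →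
        ∀ t k, ((M.step^[t] (q0, Function.update (fun _ => []) k0 (l.map ι))).2 k).length
          ≤ s + c) := by
  classical
  have := tm.ΛFin
  have := tm.σFin
  have := tm.Γk₀Fin
  have := tm.kFin
  let ST : Finset (TM2.Stmt tm.Γ tm.Λ tm.σ) := Finset.univ.biUnion fun l => TM2.stmts₁ (tm.m l)
  have hST : ∀ q ∈ ST, ∀ q' ∈ TM2.stmts₁ q, q' ∈ ST := by
    intro q hq q' hq'
    simp only [ST, Finset.mem_biUnion, Finset.mem_univ, true_and] at hq ⊢
    obtain ⟨l, hl⟩ := hq
    exact ⟨l, TM2.stmts₁_trans hl hq'⟩
  have hm : ∀ l, tm.m l ∈ ST := fun l => by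
    simp only [ST, Finset.mem_biUnion, Finset.mem_univ, true_and]
    exact ⟨l, TM2.stmts₁_self⟩
  let FQ : Finset (SQ tm) := (ST ×ˢ Finset.univ).disjSum Finset.univ
  let pushed : SQ tm → Finset (SG tm) := fun q =>
    match (simM tm acc).op q none with
    | .push g => {g}
    | _ => ∅
  let FG : Finset (SG tm) := FQ.biUnion pushed ∪ Finset.univ.image (Sigma.mk tm.k₀)
  let eQ := FQ.equivFin
  let eG := FG.equivFin
  let iq : Fin FQ.card → SQ tm := fun i => (eQ.symm i).1
  let ig : Fin FG.card → SG tm := fun i => (eG.symm i).1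
  have hq : Function.Injective iq := fun i j e => eQ.symm.injective (Subtype.ext e)
  have sq : ∀ q ∈ FQ, ∃ i, iq i = q := fun q h => ⟨eQ ⟨q, h⟩, by simp [iq]⟩
  have sg : ∀ g ∈ FG, ∃ i, ig i = g := fun g h => ⟨eG ⟨g, h⟩, by simp [ig]⟩
  have mq : ∀ i, iq i ∈ FQ := fun i => (eQ.symm i).2
  have ml : ∀ q v, Sum.inl (q, v) ∈ FQ ↔ q ∈ ST := by simp [FQ]
  have mr : ∀ o, Sum.inr o ∈ FQ := by simp [FQ]
  have cl1 : ∀ q ∈ FQ, ∀ og, (simM tm acc).nxt q og ∈ FQ := by
    rintro (⟨q, v⟩ | _ | b) h og
    · rw [ml] at h
      cases q with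
      | push k f q => exact (ml _ _).2 (hST _ h _ (by simp [TM2.stmts₁, TM2.stmts₁_self]))
      | peek k f q => exact (ml _ _).2 (hST _ h _ (by simp [TM2.stmts₁, TM2.stmts₁_self]))
      | pop k f q => exact (ml _ _).2 (hST _ h _ (by simp [TM2.stmts₁, TM2.stmts₁_self]))
      | load f q => exact (ml _ _).2 (hST _ h _ (by simp [TM2.stmts₁, TM2.stmts₁_self]))
      | branch f q₁ q₂ =>
        refine (ml _ _).2 (hST _ h _ ?_)
        cases f v <;> simp [TM2.stmts₁, TM2.stmts₁_self]
      | goto f => exact (ml _ _).2 (hm _)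
      | halt => exact mr _
    · exact mr _
    · exact mr _
  have cl2 : ∀ q ∈ FQ, ∀ og g, (simM tm acc).op q og = .push g → g ∈ FG := by
    intro q h og g e
    have e' : (simM tm acc).op q none = .push g := by
      rcases q with ⟨q, v⟩ | _ | b
      · cases q <;> exact e
      · exact e
      · exact e
    refine Finset.mem_union_left _ (Finset.mem_biUnion.2 ⟨q, h, ?_⟩)
    simp only [pushed, e', Finset.mem_singleton]
  obtain ⟨M, hM1, hM2⟩ := NM.exists_restrict (simM tm acc) iq hq (Fintype.equivFin tm.K) ig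
    (fun q og => sq _ (cl1 _ (mq q) og)) (fun q og g e => sg _ (cl2 _ (mq q) og g e))
  obtain ⟨q0, hq0⟩ := sq (.inl (tm.m tm.main, tm.initialState)) ((ml _ _).2 (hm _))
  obtain ⟨qa, hqa⟩ := sq _ (mr (some true))
  obtain ⟨qr, hqr⟩ := sq _ (mr (some false))
  have hι : ∀ g : tm.Γ tm.k₀, ∃ i, ig i = ⟨tm.k₀, g⟩ := fun g =>
    sg _ (Finset.mem_union_right _ (Finset.mem_image.2 ⟨g, Finset.mem_univ _, rfl⟩))
  choose ι hι using hι
  have init : ∀ l : List (tm.Γ tm.k₀), emb tm (initList tm l) =
      (iq q0, fun k => (Function.update (fun _ => []) (Fintype.equivFin tm.K tm.k₀) (l.map ι)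
        (Fintype.equivFin tm.K k)).map ig) := by
    intro l
    simp only [initList, emb, hq0, Prod.mk.injEq, true_and]
    funext k
    by_cases h : k = tm.k₀
    · subst h
      simp only [trS, Function.update_self, List.map_map, dif_pos]
      exact List.map_congr_left fun g _ => (hι g).symm
    · rw [Function.update_of_ne (fun e => h ((Fintype.equivFin tm.K).injective e))]
      simp [trS, h]
  refine ⟨_, _, _, M, q0, qa, qr, Fintype.equivFin tm.K tm.k₀, ι, stepBound tm, ?_, ?_, ?_, ?_, ?_⟩
  · intro e
    rw [e, hqr] at hqa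
    cases hqa
  · exact hM1 qa (by rw [hqa]; exact sim_final tm acc _)
  · exact hM1 qr (by rw [hqr]; exact sim_final tm acc _)
  · intro l g n h t ht
    have h1 := sim_time tm acc h t ht
    rw [init, hM2 t (q0, _)] at h1
    apply hq
    refine h1.trans ?_
    cases acc g
    · exact hqr.symm
    · exact hqa.symm
  · intro l s hs t k
    have h1 := sim_space tm acc
      (fun a => ∃ n, (flip bind tm.step)^[n] (some (initList tm l)) = some a)
      (by
        rintro a b ⟨n, hn⟩ hab
        exact ⟨n + 1, by rw [Function.iterate_succ_apply', hn]; exact hab⟩)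
      s (by rintro a ⟨n, hn⟩; exact hs n a hn) t _ ⟨0, rfl⟩ ((Fintype.equivFin tm.K).symm k)
    rw [init, hM2 t (q0, _)] at h1
    simpa using h1

end Pool.Agent.Lib.Cx
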