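import Mathlib
import Pool.Agent.Lib.Cx.NM

/-!
The Cook-Levin tableau of a normal-form stack machine, as an exact 3-CNF formula.
-/

namespace Pool.Agent.Lib.Cx

namespace Tab

/-- A clause is true under an assignment. -/
def holds (A : ℕ → Bool) (c : List (ℕ × Bool)) : Prop := ∃ l ∈ c, A l.1 = l.2

def imp2 (x y z : ℕ) : List (ℕ × Bool) := [(x, false), (y, false), (z, true)]
def imp1 (x z : ℕ) : List (ℕ × Bool) := [(x, false), (z, true), (z, true)]
def unit (z : ℕ) (s : Bool) : List (ℕ × Bool) := [(z, s), (z, s), (z, s)]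
def or2 (x z : ℕ) : List (ℕ × Bool) := [(x, true), (z, true), (z, true)]
def impn (x y z : ℕ) : List (ℕ × Bool) := [(x, false), (y, true), (z, true)]

theorem holds_imp2 (A : ℕ → Bool) (x y z : ℕ) :
    holds A (imp2 x y z) ↔ (A x = true → A y = true → A z = true) := by
  simp only [holds, imp2, List.mem_cons, List.not_mem_nil, or_false, exists_eq_or_imp,
    exists_eq_left]
  cases A x <;> cases A y <;> cases A z <;> simp

theorem holds_imp1 (A : ℕ → Bool) (x z : ℕ) :
    holds A (imp1 x z) ↔ (A x = true → A z = true) := by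
  simp only [holds, imp1, List.mem_cons, List.not_mem_nil, or_false, exists_eq_or_imp,
    exists_eq_left]
  cases A x <;> cases A z <;> simp

theorem holds_unit (A : ℕ → Bool) (z : ℕ) (s : Bool) : holds A (unit z s) ↔ A z = s := by
  simp [holds, unit]

theorem holds_or2 (A : ℕ → Bool) (x z : ℕ) :
    holds A (or2 x z) ↔ (A x = false → A z = true) := by
  simp only [holds, or2, List.mem_cons, List.not_mem_nil, or_false, exists_eq_or_imp,
    exists_eq_left]
  cases A x <;> cases A z <;> simp

theorem holds_impn (A : ℕ → Bool) (x y z : ℕ) :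
    holds A (impn x y z) ↔ (A x = true → A y = false → A z = true) := by
  simp only [holds, impn, List.mem_cons, List.not_mem_nil, or_false, exists_eq_or_imp,
    exists_eq_left]
  cases A x <;> cases A y <;> cases A z <;> simp

/-- Variable with time `t`, position `i` and finite code `c`. -/
def var (t i c : ℕ) : ℕ := Nat.pair (Nat.pair t i) c

theorem var_inj {t i c t' i' c' : ℕ} : var t i c = var t' i' c' ↔ t = t' ∧ i = i' ∧ c = c' := by
  simp [var, Nat.pair_eq_pair, and_assoc]

/-- The three transition clauses at time `t`, position `i`, for one row of the table. -/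
def transCl (t i : ℕ) (r : (ℕ × ℕ × ℕ × ℕ) × ℕ × ℕ × ℕ) : List (List (ℕ × Bool)) :=
  [imp2 (var t 0 r.1.1) (var t 0 r.1.2.1) (var t 0 r.1.2.2.1),
   imp1 (var t 0 r.1.2.2.1) (var (t + 1) 0 r.1.2.2.2),
   if r.2.1 = 2 ∧ i = 0 then imp1 (var t 0 r.1.2.2.1) (var (t + 1) 0 r.2.2.1)
   else imp2 (var t 0 r.1.2.2.1)
     (var t (if r.2.1 = 0 then i else if r.2.1 = 1 then i + 1 else i - 1) r.2.2.2)
     (var (t + 1) i r.2.2.2)]

/-- The clauses for position `i` of the input stack at time zero. -/
def initCl (cN cT cF : ℕ) (pre : List Bool) (i : ℕ) : List (List (ℕ × Bool)) :=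
  if i < pre.length then [unit (var 0 i (if pre.getD i false = true then cT else cF)) true]
  else
    [or2 (var ((i - pre.length) / 3) 0 0) (var 0 i cN),
     imp2 (var ((i - pre.length) / 3) 0 0) (var ((i - pre.length) / 3) 0 1)
       (var 0 i (if (i - pre.length) % 3 = 2 then cF else cT)),
     impn (var ((i - pre.length) / 3) 0 0) (var ((i - pre.length) / 3) 0 1)
       (var 0 i (if (i - pre.length) % 3 = 0 then cT else cF))]

/-- The whole formula, from numeric data. -/
def form (tr : List ((ℕ × ℕ × ℕ × ℕ) × ℕ × ℕ × ℕ)) (others : List ℕ) (s0 sR cN cT cF : ℕ)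
    (pre : List Bool) (P T : ℕ) : List (List (ℕ × Bool)) :=
  [unit (var 0 0 s0) true, unit (var T 0 sR) false, unit (var P 0 0) false] ++
  (List.range T).flatMap (fun i =>
    imp1 (var (i + 1) 0 0) (var i 0 0) ::
      (others.map (fun c => unit (var 0 i c) true) ++ initCl cN cT cF pre i)) ++
  (List.range T).flatMap (fun t => (List.range T).flatMap fun i => tr.flatMap (transCl t i))

theorem form_length (tr : List ((ℕ × ℕ × ℕ × ℕ) × ℕ × ℕ × ℕ)) (others : List ℕ)
    (s0 sR cN cT cF : ℕ) (pre : List Bool) (P T : ℕ) :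
    ∀ c ∈ form tr others s0 sR cN cT cF pre P T, c.length = 3 := by
  intro c hc
  simp only [form, List.mem_append, List.mem_cons, List.not_mem_nil, or_false, List.mem_flatMap,
    List.mem_map] at hc
  rcases hc with ((rfl | rfl | rfl) | ⟨i, -, rfl | ⟨x, -, rfl⟩ | h⟩) | ⟨t, -, i, -, r, -, h⟩
  · rfl
  · rfl
  · rfl
  · rfl
  · rfl
  · unfold initCl at h
    by_cases hi : i < pre.length
    · rw [if_pos hi, List.mem_singleton] at h
      rw [h]; rfl
    · rw [if_neg hi] at h
      simp only [List.mem_cons, List.not_mem_nil, or_false] at h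
      rcases h with rfl | rfl | rfl <;> rfl
  · simp only [transCl, List.mem_cons, List.not_mem_nil, or_false] at h
    rcases h with rfl | rfl | rfl
    · rfl
    · rfl
    · split_ifs <;> rfl

theorem form_iff (A : ℕ → Bool) (tr : List ((ℕ × ℕ × ℕ × ℕ) × ℕ × ℕ × ℕ)) (others : List ℕ)
    (s0 sR cN cT cF : ℕ) (pre : List Bool) (P T : ℕ) :
    (∀ c ∈ form tr others s0 sR cN cT cF pre P T, holds A c) ↔
      A (var 0 0 s0) = true ∧ A (var T 0 sR) = false ∧ A (var P 0 0) = false ∧
      (∀ i < T, A (var (i + 1) 0 0) = true → A (var i 0 0) = true) ∧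
      (∀ i < T, ∀ c ∈ others, A (var 0 i c) = true) ∧
      (∀ i < T, ∀ c ∈ initCl cN cT cF pre i, holds A c) ∧
      (∀ t < T, ∀ i < T, ∀ r ∈ tr, ∀ c ∈ transCl t i r, holds A c) := by
  simp only [form, List.forall_mem_append, List.forall_mem_cons, List.forall_mem_flatMap,
    List.forall_mem_map, List.mem_range, holds_unit, holds_imp1, List.not_mem_nil, false_imp_iff,
    implies_true, and_true, imp_and, forall_and, and_assoc]

section machine

variable {a b d : ℕ} (M : NM (Fin a) (Fin b) (Fin d))

def oc : Option (Fin d) → ℕ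
  | none => 0
  | some g => g.val + 1

theorem oc_inj {x y : Option (Fin d)} : oc x = oc y ↔ x = y := by
  cases x <;> cases y <;> simp [oc, Fin.val_inj]

def cS (q : Fin a) : ℕ := 2 + 3 * q.val
def cC (k : Fin b) (og : Option (Fin d)) : ℕ := 3 + 3 * Nat.pair k.val (oc og)
def cE (q : Fin a) (og : Option (Fin d)) : ℕ := 4 + 3 * Nat.pair q.val (oc og)

theorem cS_inj {q q' : Fin a} : cS q = cS q' ↔ q = q' := by
  simp [cS, Fin.val_inj]

theorem cC_inj {k k' : Fin b} {x y : Option (Fin d)} : cC k x = cC k' y ↔ k = k' ∧ x = y := by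
  simp [cC, Fin.val_inj, Nat.pair_eq_pair, oc_inj]

theorem cE_inj {k k' : Fin a} {x y : Option (Fin d)} : cE k x = cE k' y ↔ k = k' ∧ x = y := by
  simp [cE, Fin.val_inj, Nat.pair_eq_pair, oc_inj]

def mode : Op (Fin d) → ℕ
  | .nop => 0
  | .pop => 1
  | .push _ => 2

def pushed : Op (Fin d) → Option (Fin d)
  | .push g => some g
  | _ => none

/-- The operation performed on stack `k`. -/
def opOn (q : Fin a) (og : Option (Fin d)) (k : Fin b) : Op (Fin d) :=
  if k = M.stk q then M.op q og else .nop

def row (z : Fin a × Option (Fin d) × Fin b × Option (Fin d)) : (ℕ × ℕ × ℕ × ℕ) × ℕ × ℕ × ℕ :=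
  ((cS z.1, cC (M.stk z.1) z.2.1, cE z.1 z.2.1, cS (M.nxt z.1 z.2.1)),
    mode (opOn M z.1 z.2.1 z.2.2.1), cC z.2.2.1 (pushed (opOn M z.1 z.2.1 z.2.2.1)),
    cC z.2.2.1 z.2.2.2)

noncomputable def rows : List ((ℕ × ℕ × ℕ × ℕ) × ℕ × ℕ × ℕ) :=
  (Finset.univ.toList).map (row M)

theorem step_snd (c : Fin a × (Fin b → List (Fin d))) (k : Fin b) :
    (M.step c).2 k = (opOn M c.1 (c.2 (M.stk c.1))[0]? k).apply (c.2 k) := by
  unfold NM.step opOn
  by_cases h : k = M.stk c.1
  · subst h; simp [List.head?_eq_getElem?]
  · simp [h, Op.apply]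

theorem step_fst (c : Fin a × (Fin b → List (Fin d))) :
    (M.step c).1 = M.nxt c.1 (c.2 (M.stk c.1))[0]? := by
  simp [NM.step, List.head?_eq_getElem?]

theorem apply_get (o : Op (Fin d)) (l : List (Fin d)) (i : ℕ) :
    (o.apply l)[i]? = if mode o = 2 ∧ i = 0 then pushed o
      else l[if mode o = 0 then i else if mode o = 1 then i + 1 else i - 1]? := by
  cases o with
  | nop => simp [mode, Op.apply]
  | pop => simp [mode, Op.apply]
  | push g => cases i <;> simp [mode, Op.apply, pushed]

def tri (β : Bool) : List Bool := [true, β, false]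

theorem flatMap_tri_get (w : List Bool) (j : ℕ) :
    (w.flatMap tri)[j]? = (w[j / 3]?).map fun β =>
      if j % 3 = 0 then true else if j % 3 = 1 then β else false := by
  induction w generalizing j with
  | nil => simp
  | cons β w ih =>
    match j with
    | 0 => simp [tri]
    | 1 => simp [tri]
    | 2 => simp [tri]
    | j + 3 =>
      have e1 : (j + 3) / 3 = j / 3 + 1 := by omega
      have e2 : (j + 3) % 3 = j % 3 := by omega
      rw [e1, e2, List.getElem?_cons_succ, ← ih]
      simp [tri]

variable (q0 qrej : Fin a) (k0 : Fin b) (ι : Bool → Fin d)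

noncomputable def others : List ℕ :=
  ((Finset.univ.filter fun k : Fin b => k ≠ k0).toList).map fun k => cC (d := d) k none

/-- The tableau formula of a machine. -/
noncomputable def tab (pre : List Bool) (P T : ℕ) : List (List (ℕ × Bool)) :=
  form (rows M) (others (d := d) k0) (cS q0) (cS qrej) (cC (d := d) k0 none)
    (cC k0 (some (ι true))) (cC k0 (some (ι false))) pre P T

/-- The start configuration for a witness. -/
def start (pre w : List Bool) : Fin a × (Fin b → List (Fin d)) :=
  (q0, Function.update (fun _ => []) k0 ((pre ++ w.flatMap tri).map ι))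

theorem start_get (pre w : List Bool) (i : ℕ) : ((start q0 k0 ι pre w).2 k0)[i]? =
    if i < pre.length then some (ι (pre.getD i false))
    else (w[(i - pre.length) / 3]?).map fun β =>
      ι (if (i - pre.length) % 3 = 0 then true else if (i - pre.length) % 3 = 1 then β
        else false) := by
  simp only [start, Function.update_self, List.getElem?_map]
  by_cases h : i < pre.length
  · simp [h, List.getElem?_append_left h]
  · rw [if_neg h, List.getElem?_append_right (by omega), flatMap_tri_get, Option.map_map]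
    rfl

theorem tab_sound (pre : List Bool) (P T : ℕ) (A : ℕ → Bool)
    (h : ∀ c ∈ tab M q0 qrej k0 ι pre P T, holds A c) :
    ∃ w : List Bool, w.length ≤ P ∧ (M.step^[T] (start q0 k0 ι pre w)).1 ≠ qrej := by
  rw [tab, form_iff] at h
  obtain ⟨h0, hR, hP, hch, hot, hin, htr⟩ := h
  have ex : ∃ u, A (var u 0 0) = false := ⟨P, hP⟩
  let L := Nat.find ex
  have hL1 : ∀ u < L, A (var u 0 0) = true := fun u hu => by
    simpa using Nat.find_min ex hu
  have hL2 : ∀ u, L ≤ u → u ≤ T → A (var u 0 0) = false := by
    intro u hu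
    induction u, hu using Nat.le_induction with
    | base => intro _; exact Nat.find_spec ex
    | succ u hu ih =>
      intro hT
      by_contra hc
      simp only [Bool.not_eq_false] at hc
      have := hch u (by omega) hc
      rw [ih (by omega)] at this
      cases this
  let w : List Bool := (List.range L).map fun u => A (var u 0 1)
  have hw : ∀ u, w[u]? = if u < L then some (A (var u 0 1)) else none := by
    intro u
    by_cases hu : u < L <;> simp [w, hu]
  refine ⟨w, by simp only [w, List.length_map, List.length_range]; exact Nat.find_min' ex hP, ?_⟩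
  have key : ∀ t ≤ T, A (var t 0 (cS (M.step^[t] (start q0 k0 ι pre w)).1)) = true ∧
      ∀ k i, i + t < T →
        A (var t i (cC k ((M.step^[t] (start q0 k0 ι pre w)).2 k)[i]?)) = true := by
    intro t
    induction t with
    | zero =>
      intro _
      refine ⟨h0, ?_⟩
      intro k i hi
      simp only [Function.iterate_zero, id]
      by_cases hk : k = k0
      · subst hk
        have hc := hin i hi
        rw [start_get]
        unfold initCl at hc
        by_cases hp : i < pre.length
        · rw [if_pos hp] at hc ⊢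
          have := hc _ (List.mem_singleton_self _)
          rw [holds_unit] at this
          revert this
          cases pre.getD i false <;> simp
        · rw [if_neg hp] at hc ⊢
          simp only [List.forall_mem_cons, holds_or2, holds_imp2, holds_impn] at hc
          obtain ⟨c1, c2, c3, -⟩ := hc
          rw [hw]
          by_cases hu : (i - pre.length) / 3 < L
          · rw [if_pos hu, Option.map_some]
            have e := hL1 _ hu
            have m3 : (i - pre.length) % 3 = 0 ∨ (i - pre.length) % 3 = 1 ∨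
              (i - pre.length) % 3 = 2 := by omega
            cases hb : A (var ((i - pre.length) / 3) 0 1)
            · have := c3 e hb
              rcases m3 with m | m | m <;> simpa [m] using this
            · have := c2 e hb
              rcases m3 with m | m | m <;> simpa [m] using this
          · rw [if_neg hu, Option.map_none]
            exact c1 (hL2 _ (by omega) (by omega))
      · have : (start q0 k0 ι pre w).2 k = [] := by simp [start, hk]
        rw [this]
        refine hot i hi _ ?_
        simp only [others, List.mem_map, Finset.mem_toList, Finset.mem_filter, Finset.mem_univ,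
          true_and]
        exact ⟨k, hk, rfl⟩
    | succ t ih =>
      intro ht
      obtain ⟨i1, i2⟩ := ih (by omega)
      rw [Function.iterate_succ_apply']
      generalize M.step^[t] (start q0 k0 ι pre w) = c at i1 i2
      have hz : ∀ i < T, ∀ z, ∀ cl ∈ transCl t i (row M z), holds A cl := fun i hi z =>
        htr t (by omega) i hi _ (List.mem_map.2 ⟨z, by simp, rfl⟩)
      have e0 := hz 0 (by omega) (c.1, (c.2 (M.stk c.1))[0]?, k0, none)
      simp only [transCl, row, List.forall_mem_cons, holds_imp2, holds_imp1] at e0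
      have ev := e0.1 i1 (i2 _ 0 (by omega))
      refine ⟨by rw [step_fst]; exact e0.2.1 ev, ?_⟩
      intro k i hi
      rw [step_snd, apply_get]
      set o := opOn M c.1 (c.2 (M.stk c.1))[0]? k with ho
      have e1 := hz i (by omega) (c.1, (c.2 (M.stk c.1))[0]?, k,
        (c.2 k)[if mode o = 0 then i else if mode o = 1 then i + 1 else i - 1]?)
      simp only [transCl, row, List.forall_mem_cons, ← ho] at e1
      have e2 := e1.2.2.1
      by_cases hm : mode o = 2 ∧ i = 0
      · rw [if_pos hm] at e2 ⊢
        rw [holds_imp1] at e2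
        rw [hm.2]
        exact e2 ev
      · rw [if_neg hm] at e2 ⊢
        rw [holds_imp2] at e2
        refine e2 ev (i2 _ _ ?_)
        split_ifs <;> omega
  intro e
  have := (key T le_rfl).1
  rw [e, hR] at this
  cases this

theorem tab_complete (pre : List Bool) (P T : ℕ) (w : List Bool) (hw : w.length ≤ P)
    (h : (M.step^[T] (start q0 k0 ι pre w)).1 ≠ qrej) :
    ∃ A : ℕ → Bool, ∀ c ∈ tab M q0 qrej k0 ι pre P T, holds A c := by
  classical
  let c : ℕ → Fin a × (Fin b → List (Fin d)) := fun t => M.step^[t] (start q0 k0 ι pre w)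
  let H : ℕ → ℕ → ℕ → Prop := fun t i x =>
    (x = 0 ∧ t < w.length) ∨ (x = 1 ∧ w[t]? = some true) ∨ x = cS (c t).1 ∨
    (∃ k, x = cC k ((c t).2 k)[i]?) ∨ x = cE (c t).1 ((c t).2 (M.stk (c t).1))[0]?
  let A : ℕ → Bool := fun n => decide (H n.unpair.1.unpair.1 n.unpair.1.unpair.2 n.unpair.2)
  have hA : ∀ t i x, A (var t i x) = decide (H t i x) := by
    intro t i x; simp [A, var]
  have n1 : ∀ q : Fin a, 0 ≠ cS q := fun q => by unfold cS; omega
  have n2 : ∀ (k : Fin b) (x : Option (Fin d)), 0 ≠ cC k x := fun k x => by unfold cC; omega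
  have n3 : ∀ (k : Fin a) (x : Option (Fin d)), 0 ≠ cE k x := fun k x => by unfold cE; omega
  have n4 : ∀ q : Fin a, 1 ≠ cS q := fun q => by unfold cS; omega
  have n5 : ∀ (k : Fin b) (x : Option (Fin d)), 1 ≠ cC k x := fun k x => by unfold cC; omega
  have n6 : ∀ (k : Fin a) (x : Option (Fin d)), 1 ≠ cE k x := fun k x => by unfold cE; omega
  have n7 : ∀ (q : Fin a) (k : Fin b) (x : Option (Fin d)), cS q ≠ cC k x := fun q k x => by
    unfold cS cC; omega
  have n8 : ∀ (q : Fin a) (k : Fin a) (x : Option (Fin d)), cS q ≠ cE k x := fun q k x => by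
    unfold cS cE; omega
  have n9 : ∀ (k : Fin b) (x : Option (Fin d)) (q : Fin a) (y : Option (Fin d)),
      cC k x ≠ cE q y := fun k x q y => by unfold cC cE; omega
  have a0 : ∀ t i, A (var t i 0) = true ↔ t < w.length := by
    intro t i; simp [hA, H, n1, n2, n3]
  have a1 : ∀ t i, A (var t i 1) = true ↔ w[t]? = some true := by
    intro t i; simp [hA, H, n4, n5, n6]
  have aS : ∀ t i q, A (var t i (cS q)) = true ↔ q = (c t).1 := by
    intro t i q; simp [hA, H, (n1 _).symm, (n4 _).symm, n7, n8, cS_inj]
  have aC : ∀ t i k x, A (var t i (cC k x)) = true ↔ x = ((c t).2 k)[i]? := by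
    intro t i k x; simp [hA, H, (n2 _ _).symm, (n5 _ _).symm, (n7 _ _ _).symm, n9, cC_inj]
  have aE : ∀ t i q x, A (var t i (cE q x)) = true ↔
      q = (c t).1 ∧ x = ((c t).2 (M.stk (c t).1))[0]? := by
    intro t i q x
    simp [hA, H, (n3 _ _).symm, (n6 _ _).symm, (n8 _ _ _).symm, (n9 _ _ _ _).symm, cE_inj]
  have cs : ∀ t, c (t + 1) = M.step (c t) := fun t => Function.iterate_succ_apply' _ _ _
  have c0 : c 0 = start q0 k0 ι pre w := rfl
  replace h : (c T).1 ≠ qrej := h
  clear hA
  clear_value A
  clear H
  clear_value c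
  refine ⟨A, ?_⟩
  rw [tab, form_iff]
  refine ⟨(aS _ _ _).2 (by rw [c0]; rfl), ?_, ?_, ?_, ?_, ?_, ?_⟩
  · rw [← Bool.not_eq_true, aS]
    exact fun e => h e.symm
  · rw [← Bool.not_eq_true, a0]
    omega
  · intro i _
    rw [a0, a0]
    omega
  · intro i _ x hx
    simp only [others, List.mem_map, Finset.mem_toList, Finset.mem_filter, Finset.mem_univ,
      true_and] at hx
    obtain ⟨k, hk, rfl⟩ := hx
    rw [aC, c0]
    simp [start, hk]
  · intro i _
    have hs := start_get q0 k0 ι pre w i
    rw [← c0] at hs
    unfold initCl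
    by_cases hp : i < pre.length
    · rw [if_pos hp] at hs ⊢
      simp only [List.forall_mem_cons, holds_unit, List.not_mem_nil, false_imp_iff, implies_true,
        and_true]
      revert hs
      cases pre.getD i false
      · intro hs
        simp only [Bool.false_eq_true, if_false]
        rw [aC]; exact hs.symm
      · intro hs
        simp only [if_true]
        rw [aC]; exact hs.symm
    · rw [if_neg hp] at hs ⊢
      have m3 : (i - pre.length) % 3 = 0 ∨ (i - pre.length) % 3 = 1 ∨
        (i - pre.length) % 3 = 2 := by omega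
      simp only [List.forall_mem_cons, holds_or2, holds_imp2, holds_impn, List.not_mem_nil,
        false_imp_iff, implies_true, and_true]
      refine ⟨?_, ?_, ?_⟩
      · rw [← Bool.not_eq_true, a0, aC]
        intro hu
        rw [List.getElem?_eq_none (l := w) (by omega)] at hs
        exact hs.symm
      · rw [a1]
        intro _ hb
        rw [hb] at hs
        rcases m3 with m | m | m <;> simp only [m] at hs ⊢ <;>
          exact (aC _ _ _ _).2 hs.symm
      · rw [a0, ← Bool.not_eq_true, a1]
        intro hu hb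
        have : w[(i - pre.length) / 3]? = some false := by
          rw [List.getElem?_eq_getElem hu] at hb ⊢
          simpa using hb
        rw [this] at hs
        rcases m3 with m | m | m <;> simp only [m] at hs ⊢ <;>
          exact (aC _ _ _ _).2 hs.symm
  · intro t _ i _ r hr
    obtain ⟨⟨q, og, k, og'⟩, -, rfl⟩ := List.mem_map.1 hr
    simp only [transCl, row, List.forall_mem_cons, holds_imp2, holds_imp1, List.not_mem_nil,
      false_imp_iff, implies_true, and_true, aS, aC, aE]
    refine ⟨?_, ?_, ?_⟩
    · rintro rfl e; exact ⟨rfl, e⟩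
    · rintro ⟨rfl, rfl⟩
      rw [cs, step_fst]
    · by_cases hm : mode (opOn M q og k) = 2 ∧ i = 0
      · rw [if_pos hm, holds_imp1, aE, aC]
        rintro ⟨rfl, rfl⟩
        rw [cs, step_snd, apply_get, if_pos ⟨hm.1, rfl⟩]
      · rw [if_neg hm, holds_imp2, aE, aC, aC]
        rintro ⟨rfl, rfl⟩ e
        rw [cs, step_snd, apply_get, if_neg hm]
        exact e

theorem tab_iff (pre : List Bool) (P T : ℕ) :
    (∃ A : ℕ → Bool, ∀ c ∈ tab M q0 qrej k0 ι pre P T, ∃ l ∈ c, A l.1 = l.2) ↔
      ∃ w : List Bool, w.length ≤ P ∧ (M.step^[T] (start q0 k0 ι pre w)).1 ≠ qrej :=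
  ⟨fun ⟨A, h⟩ => tab_sound M q0 qrej k0 ι pre P T A h,
    fun ⟨w, hw, h⟩ => tab_complete M q0 qrej k0 ι pre P T w hw h⟩

end machine

end Tab

end Pool.Agent.Lib.Cx
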