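import Mathlib
import Pool.Prelude.Def_H_3587d628
import Pool.Agent.Lib.Cx.Tableau

/-!
Cook-Levin, correctness part: membership in a language of `NP` is satisfiability of the tableau.
-/

namespace Pool.Agent.Lib.Cx

open Turing

namespace Tab

/-- The fixed part of the input tape. -/
def preOf (x : List Bool) : List Bool :=
  x.flatMap (fun b => [true, true, true, b, true, false]) ++ [false]

theorem delimit_append (l l' : List Bool) : N487b59b3.delimit (l ++ l') =
    l.flatMap (fun b => [true, b]) ++ N487b59b3.delimit l' := by
  induction l with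
  | nil => rfl
  | cons b l ih => simp [N487b59b3.delimit, ih]

theorem encode_list (w : List Bool) : N487b59b3.bitEncode w = w.flatMap tri := by
  change ((w.map N487b59b3.bitEncode).map N487b59b3.delimit).flatten = _
  induction w with
  | nil => rfl
  | cons b w ih =>
    simp only [List.map_cons, List.flatten_cons, List.flatMap_cons, ih]
    rfl

theorem delimit_tri (x : List Bool) : N487b59b3.delimit (x.flatMap tri) = preOf x := by
  induction x with
  | nil => rfl
  | cons b x ih =>
    rw [List.flatMap_cons, delimit_append, ih]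
    simp [preOf, tri]

theorem encode_pair (x w : List Bool) :
    N487b59b3.bitEncode (x, w) = preOf x ++ w.flatMap tri := by
  change N487b59b3.delimit (N487b59b3.bitEncode x) ++ N487b59b3.bitEncode w = _
  rw [encode_list, encode_list, delimit_tri]

theorem length_pair (x w : List Bool) :
    (preOf x ++ w.flatMap tri).length = 6 * x.length + 1 + 3 * w.length := by
  simp [preOf, tri, List.length_flatMap]
  omega

theorem eval_mono (p : Polynomial ℕ) {m n : ℕ} (h : m ≤ n) : p.eval m ≤ p.eval n := by
  induction p using Polynomial.induction_on' with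
  | add p q hp hq => simp only [Polynomial.eval_add]; omega
  | monomial k a =>
    simp only [Polynomial.eval_monomial]
    exact Nat.mul_le_mul_left _ (Nat.pow_le_pow_left h _)

end Tab

open Tab in
/-- Every language in `NP` is described by the satisfiability of tableau formulas. -/
theorem cook_levin_pure (L : N68a2faeb.DecisionProblem) (hL : L ∈ N68a2faeb.NP) :
    ∃ (tr : List ((ℕ × ℕ × ℕ × ℕ) × ℕ × ℕ × ℕ)) (others : List ℕ) (s0 sR cN cT cF : ℕ)
      (p q : Polynomial ℕ), ∀ x : List Bool, L x = true ↔
        ∃ A : ℕ → Bool, ∀ c ∈ form tr others s0 sR cN cT cF (preOf x) (p.eval x.length)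
          (q.eval x.length), ∃ l ∈ c, A l.1 = l.2 := by
  obtain ⟨p, R, ⟨tmc⟩, hR⟩ := hL
  obtain ⟨a, b, d, M, q0, qacc, qrej, k0, ι, c, hne, -, -, htime, -⟩ :=
    exists_NM tmc.tm tmc.outputAlphabet
  refine ⟨rows M, others (d := d) k0, cS q0, cS qrej, cC (d := d) k0 none,
    cC k0 (some (ι (tmc.inputAlphabet.symm true))), cC k0 (some (ι (tmc.inputAlphabet.symm false))),
    p, Polynomial.C c * (tmc.time.comp (6 * Polynomial.X + 1 + 3 * p) + 1), fun x => ?_⟩
  have key := tab_iff M q0 qrej k0 (fun β => ι (tmc.inputAlphabet.symm β)) (preOf x)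
    (p.eval x.length)
    ((Polynomial.C c * (tmc.time.comp (6 * Polynomial.X + 1 + 3 * p) + 1)).eval x.length)
  rw [tab] at key
  rw [key, hR]
  refine exists_congr fun w => and_congr_right fun hw => ?_
  obtain ⟨⟨n, hn⟩, hle⟩ := tmc.outputsFun (x, w)
  have e : N487b59b3.toEncoding.encode (x, w) = preOf x ++ w.flatMap tri := encode_pair x w
  dsimp only at hle
  rw [e] at hn hle
  have h1 := htime _ (tmc.outputAlphabet.symm (R (x, w))) n hn
    ((Polynomial.C c * (tmc.time.comp (6 * Polynomial.X + 1 + 3 * p) + 1)).eval x.length) (by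
      simp only [Polynomial.eval_mul, Polynomial.eval_C, Polynomial.eval_add, Polynomial.eval_comp,
        Polynomial.eval_one, Polynomial.eval_X, Polynomial.eval_ofNat]
      refine Nat.mul_le_mul_left _ (Nat.add_le_add_right (hle.trans (eval_mono _ ?_)) _)
      rw [length_pair]
      omega)
  have e2 : start q0 k0 (fun β => ι (tmc.inputAlphabet.symm β)) (preOf x) w =
      (q0, Function.update (fun _ => []) k0
        ((List.map tmc.inputAlphabet.invFun (preOf x ++ w.flatMap tri)).map ι)) := by
    simp only [start, List.map_map]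
    rfl
  rw [e2, h1]
  cases R (x, w) <;> simp [hne]

end Pool.Agent.Lib.Cx
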