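import Mathlib
import Pool.Agent.Lib.Cx.LSList
import Pool.Agent.Lib.Cx.CookLevinPure

/-!
The Cook-Levin theorem for the class `NP` of the prelude, in `LS` form.
-/

namespace Pool.Agent.Lib.Cx

open Tab

variable {α : Type} [Obj α]

@[fun_prop] theorem ls_var {f g h : α → ℕ} (hf : LS f) (hg : LS g) (hh : LS h) :
    LS fun x => var (f x) (g x) (h x) := by
  unfold var; fun_prop

@[fun_prop] theorem ls_imp2 {f g h : α → ℕ} (hf : LS f) (hg : LS g) (hh : LS h) :
    LS fun x => imp2 (f x) (g x) (h x) := by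
  unfold imp2; fun_prop

@[fun_prop] theorem ls_impn {f g h : α → ℕ} (hf : LS f) (hg : LS g) (hh : LS h) :
    LS fun x => impn (f x) (g x) (h x) := by
  unfold impn; fun_prop

@[fun_prop] theorem ls_imp1 {f g : α → ℕ} (hf : LS f) (hg : LS g) :
    LS fun x => imp1 (f x) (g x) := by
  unfold imp1; fun_prop

@[fun_prop] theorem ls_or2 {f g : α → ℕ} (hf : LS f) (hg : LS g) :
    LS fun x => or2 (f x) (g x) := by
  unfold or2; fun_prop

@[fun_prop] theorem ls_unit {f : α → ℕ} {g : α → Bool} (hf : LS f) (hg : LS g) :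
    LS fun x => Tab.unit (f x) (g x) := by
  unfold Tab.unit; fun_prop

@[fun_prop] theorem ls_transCl {f g : α → ℕ} {r : α → (ℕ × ℕ × ℕ × ℕ) × ℕ × ℕ × ℕ} (hf : LS f)
    (hg : LS g) (hr : LS r) : LS fun x => transCl (f x) (g x) (r x) := by
  unfold transCl; fun_prop

@[fun_prop] theorem ls_initCl (cN cT cF : ℕ) {pre : α → List Bool} {i : α → ℕ} (hp : LS pre)
    (hi : LS i) : LS fun x => initCl cN cT cF (pre x) (i x) := by
  unfold initCl; fun_prop

theorem ls_form (tr : List ((ℕ × ℕ × ℕ × ℕ) × ℕ × ℕ × ℕ)) (others : List ℕ)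
    (s0 sR cN cT cF : ℕ) {pre : α → List Bool} {P T : α → ℕ} (hp : LS pre) (hP : LS P)
    (hT : LS T) : LS fun x => form tr others s0 sR cN cT cF (pre x) (P x) (T x) := by
  unfold form; fun_prop

/-- **Cook-Levin**: every language in `NP` reduces by an `LS` map to the satisfiability of
formulas whose clauses have exactly three literals (repetitions allowed). -/
theorem cook_levin_ls (L : N68a2faeb.DecisionProblem) (hL : L ∈ N68a2faeb.NP) :
    ∃ φ : List Bool → List (List (ℕ × Bool)), LS φ ∧ (∀ x, ∀ c ∈ φ x, c.length = 3) ∧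
      ∀ x, L x = true ↔ ∃ a : ℕ → Bool, ∀ c ∈ φ x, ∃ l ∈ c, a l.1 = l.2 := by
  obtain ⟨tr, others, s0, sR, cN, cT, cF, p, q, h⟩ := cook_levin_pure L hL
  refine ⟨_, ls_form tr others s0 sR cN cT cF (pre := preOf) (P := fun x => p.eval x.length)
    (T := fun x => q.eval x.length) ?_ (by fun_prop) (by fun_prop),
    fun x => form_length _ _ _ _ _ _ _ _ _ _, h⟩
  unfold preOf; fun_prop

end Pool.Agent.Lib.Cx
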