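import Pool.Agent.Lib.Cx.Savitch

/-!
Intersection of deterministic finite automata is `PSPACE`-hard (for `LS`-uniform families).
-/

namespace Pool.Agent.Lib.Cx

open Function Obj Turing

section

variable {a b d : ℕ} (M : NM (Fin a) (Fin b) (Fin d))

/-- The finite part of the state: dead, or control state and content of the watched cell. -/
abbrev ZS (a d : ℕ) : Type := Option (Fin a × Option (Fin d))

/-- The finite transition table: new finite part, increment and decrement of the height. -/
def fz : ZS a d × Option (Fin d) × Bool × Bool × Bool × Bool → ZS a d × ℕ × ℕ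
  | (none, _) => (none, 0, 0)
  | (some (q, c), γ, bk, b0, b1, b2) =>
    if bk then
      if (b0 ∧ γ ≠ none) ∨ (b1 ∧ γ ≠ c) then (none, 0, 0)
      else match M.op q γ with
        | .nop => (some (M.nxt q γ, c), 0, 0)
        | .pop => (some (M.nxt q γ, if b1 then none else c), 0, 1)
        | .push g => (some (M.nxt q γ, if b2 then some g else c), 1, 0)
    else (some (M.nxt q γ, c), 0, 0)

/-- The active stack. -/
def zstk : ZS a d → ℕ
  | none => 0
  | some (q, _) => (M.stk q).val

/-- The transition of the automaton watching cell `i` of stack `k`. -/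
def ztr (k i : ℕ) (s : ZS a d × ℕ) (γ : Option (Fin d)) : ZS a d × ℕ :=
  ((fz M (s.1, γ, decide (zstk M s.1 = k), decide (s.2 = 0), decide (s.2 = i + 1),
      decide (s.2 = i))).1,
    s.2 + (fz M (s.1, γ, decide (zstk M s.1 = k), decide (s.2 = 0), decide (s.2 = i + 1),
      decide (s.2 = i))).2.1 - (fz M (s.1, γ, decide (zstk M s.1 = k), decide (s.2 = 0),
        decide (s.2 = i + 1), decide (s.2 = i))).2.2)

/-- What that automaton knows about a configuration. -/
def zabs (k : Fin b) (i : ℕ) (c : Fin a × (Fin b → List (Fin d))) : ZS a d × ℕ :=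
  (some (c.1, (c.2 k).reverse[i]?), (c.2 k).length)

/-- The symbol scanned in a configuration. -/
def ztop (c : Fin a × (Fin b → List (Fin d))) : Option (Fin d) := (c.2 (M.stk c.1)).head?

theorem ztr_cell (q : Fin a) (i : ℕ) (l : List (Fin d)) :
    ztr M (M.stk q) i (some (q, l.reverse[i]?), l.length) l.head? =
      (some (M.nxt q l.head?, ((M.op q l.head?).apply l).reverse[i]?),
        ((M.op q l.head?).apply l).length) := by
  have hc : ¬((l.length = 0 ∧ l.head? ≠ none) ∨
      (l.length = i + 1 ∧ l.head? ≠ l.reverse[i]?)) := by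
    rcases l with _ | ⟨g, l⟩
    · simp
    · rintro (h | ⟨h1, h2⟩)
      · simp at h
      · obtain rfl : l.length = i := by simpa using h1
        simp at h2
  simp only [ztr, zstk, fz, decide_true, if_true, decide_eq_true_eq, if_neg hc]
  cases M.op q l.head? with
  | nop => simp [Op.apply]
  | pop =>
    rcases l with _ | ⟨g, l⟩
    · simp [Op.apply]
    · by_cases hi : l.length = i
      · subst hi; simp [Op.apply]
      · simp only [Op.apply, List.length_cons, Nat.add_right_cancel_iff, hi,
          List.tail_cons, List.reverse_cons, if_false, Prod.mk.injEq,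
          Option.some.injEq, true_and]
        refine ⟨?_, by omega⟩
        rw [List.getElem?_append]
        split_ifs with h
        · rfl
        · simp only [List.length_reverse] at h
          rw [List.getElem?_eq_none (by simp; omega), List.getElem?_eq_none (by simp; omega)]
  | push g' =>
    by_cases hi : l.length = i
    · subst hi
      simp [Op.apply]
    · simp only [Op.apply, hi, if_false, Prod.mk.injEq, Option.some.injEq, true_and]
      refine ⟨?_, by simp⟩
      rw [List.reverse_cons (a := g'), List.getElem?_append]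
      split_ifs with h
      · rfl
      · simp only [List.length_reverse] at h
        rw [List.getElem?_eq_none (by simp; omega), List.getElem?_eq_none (by simp; omega)]

theorem ztr_top (k : Fin b) (i : ℕ) (c : Fin a × (Fin b → List (Fin d))) :
    ztr M k i (zabs k i c) (ztop M c) = zabs k i (M.step c) := by
  obtain ⟨q, S⟩ := c
  by_cases hk : M.stk q = k
  · subst hk
    simp only [zabs, ztop, NM.step, update_self]
    exact ztr_cell M q i _
  · have hk' : ¬(M.stk q).val = k.val := fun e => hk (Fin.ext e)
    simp [ztr, zabs, ztop, zstk, fz, NM.step, hk', update_of_ne (Ne.symm hk)]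

theorem ztr_wrong (c : Fin a × (Fin b → List (Fin d))) {γ : Option (Fin d)} (h : γ ≠ ztop M c) :
    (ztr M (M.stk c.1) ((c.2 (M.stk c.1)).length - 1)
      (zabs (M.stk c.1) ((c.2 (M.stk c.1)).length - 1) c) γ).1 = none := by
  obtain ⟨q, S⟩ := c
  simp only [zabs, ztop] at h ⊢
  generalize S (M.stk q) = l at h ⊢
  simp only [ztr, zstk, fz, decide_true, if_true, decide_eq_true_eq]
  rw [if_pos]
  rcases l with _ | ⟨g, l⟩ <;> simp_all

theorem ztr_dead (k i : ℕ) (w : List (Option (Fin d))) (s : ZS a d × ℕ) (h : s.1 = none) :
    (w.foldl (ztr M k i) s).1 = none := by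
  induction w generalizing s with
  | nil => exact h
  | cons γ w ih => exact ih _ (by simp [ztr, h, fz])

end

/-- Intersection of automata is `PSPACE`-hard. -/
theorem exists_fam_of_PSPACE {L : List Bool → Bool} (hL : L ∈ PSPACE) :
    ∃ g, ∃ F : Fam g, ∀ x, L x = true ↔ ∃ w, ∀ i < F.n x, F.Acc x i w := by
  classical
  obtain ⟨T, p, hT⟩ := hL
  obtain ⟨a, b, d, M, q0, qacc, qrej, k0, ι, c, hne, habs, habs', htime, hspace⟩ :=
    exists_NM T.tm T.outputAlphabet
  let κ : Bool → Fin d := fun β => ι (T.inputAlphabet.invFun β)
  let c0 : List Bool → Fin a × (Fin b → List (Fin d)) := fun x =>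
    (q0, update (fun _ => []) k0 (x.map κ))
  let s1 : List Bool → ℕ := fun x => p.eval x.length + c + 1
  have hsp : ∀ x t k, ((M.step^[t] (c0 x)).2 k).length < s1 x := fun x t k => by
    have := hspace _ _ (hT x) t k
    rw [List.map_map] at this
    exact Nat.lt_succ_of_le this
  have htm : ∀ x, ∃ t0, ∀ t, t0 ≤ t → (M.step^[t] (c0 x)).1 = if L x then qacc else qrej :=
    fun x => by
    obtain ⟨n, hn⟩ := T.outputsFun x
    refine ⟨c * (n + 1), fun t ht => ?_⟩
    have := htime _ (T.outputAlphabet.symm (L x)) n hn t ht
    rw [List.map_map, Equiv.apply_symm_apply] at this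
    exact this
  let zl : List (ZS a d) := Finset.univ.toList
  let z : ℕ := zl.length
  have hz : ∀ ζ, zl.idxOf ζ < z := fun ζ => List.idxOf_lt_length_of_mem (by simp [zl])
  have hz' : ∀ ζ, zl.getD (zl.idxOf ζ) none = ζ := fun ζ => by
    rw [List.getD_eq_getElem _ _ (hz ζ), List.getElem_idxOf]
  let en : List Bool → ZS a d × ℕ → ℕ := fun x s => min s.2 (s1 x) * z + zl.idxOf s.1
  let de : ℕ → ZS a d × ℕ := fun j => (zl.getD (j % z) none, j / z)
  have hen : ∀ x s, en x s < (s1 x + 1) * z := fun x s => pr_lt (by omega) (hz _)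
  have hde1 : ∀ x s, (de (en x s)).1 = s.1 := fun x s => by simp only [de, en, pr_mod (hz _), hz']
  have hde : ∀ x s, s.2 ≤ s1 x → de (en x s) = s := fun x s h => by
    refine Prod.ext (hde1 x s) ?_
    simp only [de, en, pr_div (hz _), min_eq_left h]
  have lsz : ∀ {α : Type} [Obj α] {k i : α → ℕ} {s : α → ZS a d × ℕ} {γ : α → Option (Fin d)},
      LS k → LS i → LS s → LS γ → LS fun u => ztr M (k u) (i u) (s u) (γ u) := by
    intro α _ k i s γ hk hi hs hγ
    have h1 : LS fun u => zstk M (s u).1 := LS.finite_comp _ hs.fst
    have h2 : LS fun u => fz M ((s u).1, γ u, decide (zstk M (s u).1 = k u), decide ((s u).2 = 0),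
        decide ((s u).2 = i u + 1), decide ((s u).2 = i u)) :=
      LS.finite_comp _ (by fun_prop)
    unfold ztr
    fun_prop
  have hb : 0 < b := k0.pos
  let F : Fam (d + 1) :=
    { n := fun x => s1 x * b
      S := fun x => (s1 x + 1) * z
      δ := fun x i j γ => en x (ztr M (i % b) (i / b) (de j) (finSuccEquiv d γ))
      st := fun x i => en x (if i % b = k0.val then (some (q0, (x.reverse[i / b]?).map κ), x.length)
        else (some (q0, none), 0))
      acc := fun _ _ j => decide ((de j).1.map Prod.fst = some qacc)
      ls_n := by fun_prop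
      ls_S := by fun_prop
      ls_δ := by
        have := lsz (α := List Bool × ℕ × ℕ × Fin (d + 1)) (k := fun p => p.2.1 % b)
          (i := fun p => p.2.1 / b) (s := fun p => de p.2.2.1)
          (γ := fun p => finSuccEquiv d p.2.2.2) (by fun_prop) (by fun_prop) (by fun_prop)
          (LS.finite_comp _ (by fun_prop))
        fun_prop
      ls_st := by
        have : LS fun p : List Bool × ℕ => (p.1.reverse[p.2 / b]?).map κ :=
          LS.finite_comp (Option.map κ) (by fun_prop)
        fun_prop
      ls_acc := by fun_prop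
      st_lt := fun x i _ => hen _ _
      δ_lt := fun x i d _ _ _ => hen _ _ }
  have hst : ∀ x (k : Fin b) i, F.st x (i * b + k) = en x (zabs k i (c0 x)) := fun x k i => by
    simp only [F, pr_mod k.2, pr_div k.2, zabs, c0]
    by_cases hk : k = k0
    · subst hk; simp [← List.map_reverse]
    · rw [if_neg (fun e => hk (Fin.ext e)), update_of_ne hk]; simp
  have hδ : ∀ x (k : Fin b) i s γ, s.2 ≤ s1 x →
      F.δ x (i * b + k) (en x s) γ = en x (ztr M k i s (finSuccEquiv d γ)) := fun x k i s γ h => by
    simp only [F, pr_mod k.2, pr_div k.2, hde x s h]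
  have hdead : ∀ x i w j, (de j).1 = none → (de (List.foldl (F.δ x i) j w)).1 = none := by
    intro x i w
    induction w with
    | nil => exact fun _ h => h
    | cons γ w ih =>
      intro j h
      refine ih _ ?_
      simp only [F, hde1]
      exact ztr_dead M _ _ [_] _ h
  refine ⟨d + 1, F, fun x => ⟨fun h => ?_, fun ⟨w, hw⟩ => ?_⟩⟩
  · obtain ⟨t0, ht0⟩ := htm x
    refine ⟨(List.range t0).map fun t => (finSuccEquiv d).symm (ztop M (M.step^[t] (c0 x))),
      fun i hi => ?_⟩
    obtain ⟨k, i, rfl⟩ : ∃ (k : Fin b) (j : ℕ), i = j * b + k :=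
      ⟨⟨i % b, Nat.mod_lt _ hb⟩, i / b, (Nat.div_add_mod' i b).symm⟩
    have key : ∀ t, ((List.range t).map fun t => (finSuccEquiv d).symm
        (ztop M (M.step^[t] (c0 x)))).foldl (F.δ x (i * b + k)) (F.st x (i * b + k)) =
        en x (zabs k i (M.step^[t] (c0 x))) := by
      intro t
      induction t with
      | zero => exact hst x k i
      | succ t ih =>
        rw [List.range_succ, List.map_append, List.foldl_append, ih, List.map_singleton,
          List.foldl_cons, List.foldl_nil, hδ _ _ _ _ _ (hsp x t k).le, Equiv.apply_symm_apply,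
          ztr_top, Function.iterate_succ_apply']
    unfold Fam.Acc
    rw [key]
    simp only [F, hde1, zabs, ht0 t0 le_rfl, h]
    simp
  · have key : ∀ (w : List (Fin (d + 1))) t, (∀ (k : Fin b), ∀ i < s1 x,
        F.acc x (i * b + k) (w.foldl (F.δ x (i * b + k)) (en x (zabs k i (M.step^[t] (c0 x))))) =
          true) → (M.step^[t + w.length] (c0 x)).1 = qacc := by
      intro w
      induction w with
      | nil =>
        intro t h
        have := h k0 0 (by simp [s1])
        simpa [F, hde1, zabs] using this
      | cons γ w ih =>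
        intro t h
        have hγ : finSuccEquiv d γ = ztop M (M.step^[t] (c0 x)) := by
          by_contra hne
          have h1 := h (M.stk (M.step^[t] (c0 x)).1) _
            ((Nat.sub_le _ 1).trans_lt (hsp x t (M.stk (M.step^[t] (c0 x)).1)))
          rw [List.foldl_cons, hδ _ _ _ _ _ (hsp x t _).le] at h1
          simp only [F] at h1
          rw [hdead _ _ _ _ (by rw [hde1]; exact ztr_wrong M _ hne)] at h1
          simp at h1
        rw [List.length_cons, ← Nat.add_assoc, Nat.add_right_comm]
        refine ih (t + 1) fun k i hi => ?_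
        have h1 := h k i hi
        rwa [List.foldl_cons, hδ _ _ _ _ _ (hsp x t _).le, hγ, ztr_top,
          ← Function.iterate_succ_apply' M.step] at h1
    have h1 := key w 0 fun k i hi => by
      have := hw (i * b + k) (pr_lt hi k.2)
      rwa [Fam.Acc, hst] at this
    obtain ⟨t0, ht0⟩ := htm x
    have h2 := ht0 (t0 + (0 + w.length)) (by omega)
    rw [Function.iterate_add_apply, ← Prod.mk.eta (p := M.step^[0 + w.length] (c0 x)), h1,
      M.iterate_absorbing habs] at h2
    by_contra hx
    rw [if_neg hx] at h2
    exact hne h2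

end Pool.Agent.Lib.Cx
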