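import Mathlib.Algebra.Polynomial.Eval.Defs
import Mathlib.Algebra.Order.BigOperators.Group.Finset
import Mathlib.Tactic

/-!
A first-order expression language with bounded iteration over natural numbers, reading a family
of bit strings.  Expressions whose intermediate values stay polynomially bounded describe
logarithmic-space computations.
-/

namespace Pool.Agent.Lib.Cx

/-- Environments: a family of bit strings. -/
abbrev Env := ℕ → List Bool

/-- The unary string standing for the number `n`. -/
def un (n : ℕ) : List Bool := List.replicate n false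

@[simp] theorem length_un (n : ℕ) : (un n).length = n := by simp [un]

/-- The `i`-th bit of a string as a number (zero out of range). -/
def bitv (s : List Bool) (i : ℕ) : ℕ := (s.getD i false).toNat

@[simp] theorem bitv_un (n i : ℕ) : bitv (un n) i = 0 := by
  unfold bitv un
  rcases lt_or_ge i n with h | h
  · simp [List.getD, h]
  · simp [List.getD, Nat.not_lt.2 h]

@[simp] theorem bitv_nil (i : ℕ) : bitv [] i = 0 := by simp [bitv]

theorem bitv_le_one (s : List Bool) (i : ℕ) : bitv s i ≤ 1 := by
  unfold bitv; cases s.getD i false <;> simp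

/-- Push a string in front of an environment. -/
def Env.cons (x : List Bool) (env : Env) : Env
  | 0 => x
  | j + 1 => env j

@[simp] theorem Env.cons_zero (x : List Bool) (env : Env) : Env.cons x env 0 = x := rfl
@[simp] theorem Env.cons_succ (x : List Bool) (env : Env) (j : ℕ) :
    Env.cons x env (j + 1) = env j := rfl

/-- Expressions. -/
inductive E : Type
  | zero : E
  | succ : E → E
  | pred : E → E
  | len : ℕ → E
  | bit : ℕ → E → E
  | ifz : E → E → E → E
  | lett : E → E → E
  | ren : (ℕ → ℕ) → E → E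
  | iter : E → E → E → E

namespace E

/-- The value of an expression. -/
def eval : E → Env → ℕ
  | zero, _ => 0
  | succ e, env => eval e env + 1
  | pred e, env => eval e env - 1
  | len j, env => (env j).length
  | bit j e, env => bitv (env j) (eval e env)
  | ifz c a b, env => if eval c env = 0 then eval a env else eval b env
  | lett e f, env => eval f (Env.cons (un (eval e env)) env)
  | ren ρ e, env => eval e (fun j => env (ρ j))
  | iter n s t, env =>
      Nat.rec (eval s env) (fun i acc => eval t (Env.cons (un acc) (Env.cons (un i) env)))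
        (eval n env)

/-- The accumulator of an iteration after `i` rounds. -/
def acc (s t : E) (env : Env) (i : ℕ) : ℕ :=
  Nat.rec (eval s env) (fun i acc => eval t (Env.cons (un acc) (Env.cons (un i) env))) i

@[simp] theorem acc_zero (s t : E) (env : Env) : acc s t env 0 = eval s env := rfl
theorem acc_succ (s t : E) (env : Env) (i : ℕ) :
    acc s t env (i + 1) = eval t (Env.cons (un (acc s t env i)) (Env.cons (un i) env)) := rfl
theorem eval_iter (n s t : E) (env : Env) : eval (iter n s t) env = acc s t env (eval n env) := rfl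

/-- All intermediate values of the evaluation are at most `B`. -/
def Bdd (B : ℕ) : E → Env → Prop
  | zero, _ => True
  | succ e, env => Bdd B e env ∧ eval e env + 1 ≤ B
  | pred e, env => Bdd B e env
  | len j, env => (env j).length ≤ B
  | bit _ e, env => Bdd B e env ∧ 1 ≤ B
  | ifz c a b, env => Bdd B c env ∧ (eval c env = 0 → Bdd B a env) ∧ (eval c env ≠ 0 → Bdd B b env)
  | lett e f, env => Bdd B e env ∧ Bdd B f (Env.cons (un (eval e env)) env)
  | ren ρ e, env => Bdd B e (fun j => env (ρ j))
  | iter n s t, env => Bdd B n env ∧ Bdd B s env ∧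
      ∀ i < eval n env, Bdd B t (Env.cons (un (acc s t env i)) (Env.cons (un i) env))

theorem Bdd.mono {B B' : ℕ} (h : B ≤ B') : ∀ {e : E} {env : Env}, Bdd B e env → Bdd B' e env
  | zero, _, _ => trivial
  | succ _, _, ⟨h1, h2⟩ => ⟨h1.mono h, h2.trans h⟩
  | pred e, _, h1 => Bdd.mono h (e := e) h1
  | len _, _, h1 => le_trans h1 h
  | bit _ _, _, ⟨h1, h2⟩ => ⟨h1.mono h, h2.trans h⟩
  | ifz _ _ _, _, ⟨h1, h2, h3⟩ => ⟨h1.mono h, fun hc => (h2 hc).mono h, fun hc => (h3 hc).mono h⟩
  | lett _ _, _, ⟨h1, h2⟩ => ⟨h1.mono h, h2.mono h⟩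
  | ren _ e, _, h1 => Bdd.mono h (e := e) h1
  | iter _ _ _, _, ⟨h1, h2, h3⟩ => ⟨h1.mono h, h2.mono h, fun i hi => (h3 i hi).mono h⟩

theorem Bdd.eval_le {B : ℕ} : ∀ {e : E} {env : Env}, Bdd B e env → eval e env ≤ B
  | zero, _, _ => Nat.zero_le _
  | succ _, _, ⟨_, h2⟩ => h2
  | pred e, _, h1 => le_trans (Nat.sub_le _ _) (Bdd.eval_le (e := e) h1)
  | len _, _, h1 => h1
  | bit _ _, _, ⟨_, h2⟩ => (bitv_le_one _ _).trans h2
  | ifz c a b, env, ⟨_, h2, h3⟩ => by
      by_cases hc : eval c env = 0
      · simpa [eval, hc] using (h2 hc).eval_le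
      · simpa [eval, hc] using (h3 hc).eval_le
  | lett _ f, _, ⟨_, h2⟩ => Bdd.eval_le (e := f) h2
  | ren _ e, _, h1 => Bdd.eval_le (e := e) h1
  | iter n s t, env, ⟨_, h2, h3⟩ => by
      rw [eval_iter]
      rcases hn : eval n env with _ | m
      · exact h2.eval_le
      · rw [acc_succ]; exact Bdd.eval_le (e := t) (h3 m (by omega))

theorem Bdd.acc_le {B : ℕ} {n s t : E} {env : Env} (h : Bdd B (iter n s t) env) {i : ℕ}
    (hi : i ≤ eval n env) : acc s t env i ≤ B := by
  rcases i with _ | m
  · exact h.2.1.eval_le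
  · rw [acc_succ]; exact (h.2.2 m (by omega)).eval_le

/-- Lift a description of virtual strings under one binder. -/
def up (τ : ℕ → E × E) : ℕ → E × E
  | 0 => (len 0, zero)
  | j + 1 => (ren (· + 1) (τ j).1, ren (fun i => if i = 0 then 0 else i + 1) (τ j).2)

/-- Substitute descriptions (length, bit function) for the strings of the environment. -/
def subst : E → (ℕ → E × E) → E
  | zero, _ => zero
  | succ e, τ => succ (subst e τ)
  | pred e, τ => pred (subst e τ)
  | len j, τ => (τ j).1
  | bit j e, τ => lett (subst e τ) (τ j).2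
  | ifz c a b, τ => ifz (subst c τ) (subst a τ) (subst b τ)
  | lett e f, τ => lett (subst e τ) (subst f (up τ))
  | ren ρ e, τ => subst e (fun j => τ (ρ j))
  | iter n s t, τ => iter (subst n τ) (subst s τ) (subst t (up (up τ)))

/-- `τ` describes the environment `virt` inside `real`. -/
def Rep (B B' : ℕ) (τ : ℕ → E × E) (real virt : Env) : Prop :=
  ∀ j, (eval (τ j).1 real = (virt j).length ∧ ((virt j).length ≤ B → Bdd B' (τ j).1 real)) ∧
    ∀ i ≤ B, eval (τ j).2 (Env.cons (un i) real) = bitv (virt j) i ∧
      Bdd B' (τ j).2 (Env.cons (un i) real)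

theorem Rep.up {B B' : ℕ} (hB : B ≤ B') {τ : ℕ → E × E} {real virt : Env}
    (h : Rep B B' τ real virt) (v : ℕ) :
    Rep B B' (up τ) (Env.cons (un v) real) (Env.cons (un v) virt) := by
  intro j
  rcases j with _ | j
  · refine ⟨⟨by simp [E.up, eval], fun hv => ?_⟩, fun i _ => ⟨by simp [E.up, eval], trivial⟩⟩
    simp only [E.up, Bdd, Env.cons_zero] at hv ⊢
    exact hv.trans hB
  · have e1 : (fun j => Env.cons (un v) real (j + 1)) = real := rfl
    have e2 : ∀ i, (fun j => Env.cons (un i) (Env.cons (un v) real) (if j = 0 then 0 else j + 1))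
        = Env.cons (un i) real := by
      intro i; funext j; rcases j with _ | j <;> simp
    refine ⟨⟨?_, fun hv => ?_⟩, fun i hi => ⟨?_, ?_⟩⟩
    · simpa only [E.up, eval, e1, Env.cons_succ] using (h j).1.1
    · simpa only [E.up, Bdd, e1] using (h j).1.2 hv
    · simpa only [E.up, eval, e2, Env.cons_succ] using ((h j).2 i hi).1
    · simpa only [E.up, Bdd, e2] using ((h j).2 i hi).2

theorem subst_spec {B B' : ℕ} (hB : B ≤ B') : ∀ (e : E) {τ : ℕ → E × E} {real virt : Env},
    Rep B B' τ real virt → Bdd B e virt →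
      eval (subst e τ) real = eval e virt ∧ Bdd B' (subst e τ) real
  | zero, _, _, _, _, _ => ⟨rfl, trivial⟩
  | succ e, _, _, _, h, ⟨h1, h2⟩ => by
      obtain ⟨a, b⟩ := subst_spec hB e h h1
      exact ⟨by simp [subst, eval, a], b, by rw [a]; exact h2.trans hB⟩
  | pred e, _, _, _, h, h1 => by
      obtain ⟨a, b⟩ := subst_spec hB e h h1
      exact ⟨by simp [subst, eval, a], b⟩
  | len j, _, _, _, h, h1 => ⟨(h j).1.1, (h j).1.2 h1⟩
  | bit j e, _, _, _, h, ⟨h1, _⟩ => by
      obtain ⟨a, b⟩ := subst_spec hB e h h1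
      have := (h j).2 _ h1.eval_le
      refine ⟨?_, b, ?_⟩
      · simp only [subst, eval, a, this.1]
      · rw [a]; exact this.2
  | ifz c x y, _, _, virt, h, ⟨h1, h2, h3⟩ => by
      obtain ⟨a, b⟩ := subst_spec hB c h h1
      by_cases hc : eval c virt = 0
      · obtain ⟨a', b'⟩ := subst_spec hB x h (h2 hc)
        exact ⟨by simp [subst, eval, a, a', hc], b, fun _ => b', fun h' => absurd (a ▸ hc) h'⟩
      · obtain ⟨a', b'⟩ := subst_spec hB y h (h3 hc)
        exact ⟨by simp [subst, eval, a, a', hc], b, fun h' => absurd (a ▸ h') hc, fun _ => b'⟩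
  | lett e f, _, _, virt, h, ⟨h1, h2⟩ => by
      obtain ⟨a, b⟩ := subst_spec hB e h h1
      obtain ⟨a', b'⟩ := subst_spec hB f (h.up hB (eval e virt)) h2
      refine ⟨by simp only [subst, eval, a, a'], b, ?_⟩
      rw [a]; exact b'
  | ren ρ e, τ, real, virt, h, h1 =>
      subst_spec hB e (τ := fun j => τ (ρ j)) (virt := fun j => virt (ρ j)) (fun j => h (ρ j)) h1
  | iter n s t, τ, real, virt, h, ⟨h1, h2, h3⟩ => by
      obtain ⟨a, b⟩ := subst_spec hB n h h1
      obtain ⟨a', b'⟩ := subst_spec hB s h h2
      have key : ∀ i ≤ eval n virt,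
          acc (subst s τ) (subst t (up (up τ))) real i = acc s t virt i := by
        intro i hi
        induction i with
        | zero => simpa using a'
        | succ i ih =>
          rw [acc_succ, acc_succ, ih (by omega)]
          exact (subst_spec hB t ((h.up hB i).up hB _) (h3 i (by omega))).1
      refine ⟨?_, b, b', fun i hi => ?_⟩
      · simp only [subst, eval_iter, a, key _ le_rfl]
      · rw [a] at hi
        rw [key i hi.le]
        exact (subst_spec hB t ((h.up hB i).up hB _) (h3 i hi)).2

end E

end Pool.Agent.Lib.Cx
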