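import Pool.Agent.Lib.Cx.Classes
import Pool.Agent.Lib.Cx.Bits
import Pool.Agent.Lib.Cx.Bridge

/-!
Iterating an `LS` step function: membership in `P`, `NP` and `PSPACE`.
-/

namespace Pool.Agent.Lib.Cx

open Function Prog Obj N487b59b3 N68a2faeb Turing

variable {α : Type} [Obj α]

/-- All components of an object in one string. -/
def flat (a : α) : List Bool := ((List.range (ar α)).map (enc a)).flatMap dl

theorem blk_flat (a : α) {j : ℕ} (hj : j < ar α) : blk (flat a) j = enc a j := by
  have := blk_flatMap ((List.range (ar α)).map (enc a)) [] j (by simpa using hj)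
  simpa [flat] using this

theorem flat_inj : Function.Injective (flat : α → List Bool) := fun a b h => by
  apply enc_inj
  funext j
  by_cases hj : j < ar α
  · rw [← blk_flat a hj, h, blk_flat b hj]
  · rw [enc_ge _ _ (by omega), enc_ge _ _ (by omega)]

theorem length_flat (a : α) : (flat a).length = 2 * sz a + ar α := by
  simp only [flat, List.flatMap_map, length_flatMap_range, length_dl, sz, Finset.sum_add_distrib,
    Finset.mul_sum]
  simp

@[fun_prop] theorem LS.flat {β : Type} [Obj β] {f : β → α} (hf : LS f) :
    LS (fun b => flat (f b)) := by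
  have : ∀ n, LS (fun b => ((List.range n).map (enc (f b))).flatMap dl) := by
    intro n
    induction n with
    | zero => exact LS.const _
    | succ n ih =>
      simp only [List.range_succ, List.map_append, List.flatMap_append, List.map_cons,
        List.map_nil, List.flatMap_cons, List.flatMap_nil, List.append_nil]
      fun_prop
  exact this _

/-- A copy of a type, encoded by a flag followed by the flattened components. -/
structure Flagged {α : Type} (g : α → Bool) : Type where
  val : α

instance (g : α → Bool) : Obj (Flagged g) :=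
  Obj.single (fun a => g a.val :: flat a.val)
    (fun ⟨_⟩ ⟨_⟩ h => congrArg Flagged.mk (flat_inj (List.cons.inj h).2))

theorem LS.exists_sp_flag {f : α → List Bool} (hf : LS f) (g : α → Bool) :
    ∃ (P : SP) (q : Polynomial ℕ), ∀ a,
      SComp P (g a :: Cx.flat a) (f a) (q.eval (2 * sz a + ar α + 1)) := by
  have h0 : LS (fun a : Flagged g => a.val) := by
    refine LS.of_encStr fun j hj => ?_
    have : LS (fun a : Flagged g => Str.mk (blk (enc a 0).tail j)) := by fun_prop
    exact this.congr fun a => congrArg Str.mk (blk_flat a.val hj)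
  have h1 : LS (fun a : Flagged g => Str.mk (f a.val)) := LS.strMk (LS.comp f _ hf h0)
  obtain ⟨P, q, h⟩ := h1.exists_sp (fun a => g a.val :: Cx.flat a.val) (fun _ => rfl)
  refine ⟨P, q, fun a => ?_⟩
  have := h ⟨a⟩
  rwa [List.length_cons, length_flat] at this

theorem sinv_one {x : List Bool} {B : ℕ} (h : x.length ≤ B) : SInv B (Env.one x) :=
  fun j => by rcases j with _ | j <;> simp [h]

theorem SComp.bounded {P : SP} {x y : List Bool} {n S : ℕ} (h : SComp P x y n)
    (hS : x.length + n ≤ S) : RunLe ssem (SInv S) P (Env.one x) (Env.one y) S :=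
  ((RunLe.space h (sinv_one le_rfl)).imp fun _ h' k => (h' k).trans hS).mono (by omega)

/-- The stack program iterating `step` until `done`. -/
theorem exists_iter_sp {init : List Bool → α} {step : α → α} {done ans : α → Bool}
    (hi : LS init) (hs : LS step) (hd : LS done) (ha : LS ans) :
    ∃ (P : SP) (q : Polynomial ℕ), ∀ x T B, (∀ t < T, done (step^[t] (init x)) = false) →
      done (step^[T] (init x)) = true → (∀ t ≤ T, sz (step^[t] (init x)) ≤ B) → x.length ≤ B →
      RunLe ssem (SInv (q.eval B)) P (Env.one x) (Env.one [ans (step^[T] (init x))])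
        ((T + 3) * (q.eval B + 1)) := by
  have h1 : LS (fun s : Str => Str.mk (done (init s.val) :: flat (init s.val))) := by fun_prop
  obtain ⟨P1, q1, e1⟩ := h1.exists_sp Str.val (fun _ => rfl)
  obtain ⟨P2, q2, e2⟩ := LS.exists_sp_flag
    (f := fun a => done (step a) :: flat (step a)) (by fun_prop) done
  obtain ⟨P3, q3, e3⟩ := LS.exists_sp_flag (f := fun a => [ans a]) (by fun_prop) done
  let r : Polynomial ℕ := 2 * Polynomial.X + Polynomial.C (ar α) + 1
  have hr : ∀ B, r.eval B = 2 * B + ar α + 1 := fun B => by simp [r]
  refine ⟨.seq P1 (.seq (.loop (SP.top 0 (· == some false)) P2) P3),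
    r + q1 + q2.comp r + q3.comp r, fun x T B h1 h2 h3 h4 => ?_⟩
  set S := (r + q1 + q2.comp r + q3.comp r).eval B with hS
  have hS' : S = 2 * B + ar α + 1 + q1.eval B + q2.eval (2 * B + ar α + 1) +
      q3.eval (2 * B + ar α + 1) := by
    simp only [hS, Polynomial.eval_add, Polynomial.eval_comp, hr]
  have l1 := (e1 (Str.mk x)).bounded (S := S) (by
    have := peval_mono q1 h4
    simp only [Str.val_mk]; omega)
  have l2 := RunLe.loop_seq (M := ssem) (I := SInv S) (t := SP.top 0 (· == some false)) (P := P2)
    (fun t => Env.one (done (step^[t] (init x)) :: flat (step^[t] (init x)))) T S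
    (fun t ht => ⟨by simp [ssem, SP.top, h1 t ht], by
      rw [Function.iterate_succ_apply']
      refine (e2 _).bounded ?_
      have := h3 t ht.le
      have := peval_mono q2 (a := 2 * sz (step^[t] (init x)) + ar α + 1) (b := 2 * B + ar α + 1)
        (by omega)
      rw [List.length_cons, length_flat]; omega⟩)
    (by simp [ssem, SP.top, h2])
  have l3 := (e3 (step^[T] (init x))).bounded (S := S) (by
    have := h3 T le_rfl
    have := peval_mono q3 (a := 2 * sz (step^[T] (init x)) + ar α + 1) (b := 2 * B + ar α + 1)
      (by omega)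
    rw [List.length_cons, length_flat]; omega)
  exact (l1.seq (l2.seq l3)).mono (by ring_nf; omega)

/-- Predicates computed by a stack program in polynomial time. -/
def PTime (F : List Bool → Bool) : Prop :=
  ∃ (P : SP) (q : Polynomial ℕ), ∀ x, SComp P x [F x] (q.eval x.length)

theorem PTime.congr {F G : List Bool → Bool} (h : PTime F) (e : ∀ x, F x = G x) : PTime G := by
  rwa [show G = F from funext fun a => (e a).symm]

/-- Polynomially many iterations of an `LS` step on polynomial-size states. -/
theorem PTime.of_iter {init : List Bool → α} {step : α → α} {ans : α → Bool} {N : List Bool → ℕ}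
    (hi : LS init) (hs : LS step) (ha : LS ans) (hN : LS N) (B : List Bool → ℕ) (hB : LS B)
    (h : ∀ x, ∀ t ≤ N x, sz (step^[t] (init x)) ≤ B x) :
    PTime (fun x => ans (step^[N x] (init x))) := by
  obtain ⟨P, q, e⟩ := exists_iter_sp (α := α × ℕ) (init := fun x => (init x, N x))
    (step := fun p => (step p.1, p.2 - 1)) (done := fun p => decide (p.2 = 0))
    (ans := fun p => ans p.1) (by fun_prop) (by fun_prop) (by fun_prop) (by fun_prop)
  have h0 : LS (fun s : Str => B s.val + N s.val + s.val.length) := by fun_prop
  obtain ⟨r, hr⟩ := h0.bound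
  refine ⟨P, (r + 3) * (q.comp r + 1), fun x => ?_⟩
  have hr' : B x + N x + x.length ≤ r.eval x.length := by simpa using hr (Str.mk x)
  have it : ∀ t, (fun p : α × ℕ => (step p.1, p.2 - 1))^[t] (init x, N x) =
      (step^[t] (init x), N x - t) := by
    intro t
    induction t with
    | zero => rfl
    | succ t ih => simp only [Function.iterate_succ_apply', ih, Nat.sub_sub]
  have := e x (N x) (r.eval x.length) (fun t ht => by simp [it]; omega) (by simp [it])
    (fun t ht => by have := h x t ht; simp only [it, sz_prod, sz_nat]; omega) (by omega)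
  rw [it] at this
  refine (this.imp fun _ _ => trivial).mono ?_
  simp only [Polynomial.eval_mul, Polynomial.eval_add, Polynomial.eval_comp, Polynomial.eval_one,
    Polynomial.eval_ofNat]
  exact Nat.mul_le_mul_right _ (by omega)

theorem PTime.isPolyTime {β : Type} [N487b59b3 β] {F : List Bool → Bool} (hF : PTime F)
    (f : β → Bool) (h : ∀ b, F (bitEncode b) = f b) : IsPolyTime f := by
  obtain ⟨P, q, e⟩ := hF
  refine SP.polyTime _ _ f P q fun b => ?_
  have := e (bitEncode b)
  rw [h] at this
  exact this

theorem PTime.mem_P {L : List Bool → Bool} (h : PTime fun s => L (unTri s)) :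
    L ∈ N68a2faeb.P :=
  h.isPolyTime L fun b => by rw [unTri_bitEncode]

theorem PTime.mem_NP {L : List Bool → Bool} (p : Polynomial ℕ) (R : List Bool × List Bool → Bool)
    (hR : PTime fun s => R (unPair s))
    (h : ∀ x, L x = true ↔ ∃ w : List Bool, w.length ≤ p.eval x.length ∧ R (x, w)) :
    L ∈ N68a2faeb.NP :=
  ⟨p, R, hR.isPolyTime R fun b => by rw [unPair_bitEncode], h⟩

/-- Arbitrarily many iterations of an `LS` step on polynomial-size states. -/
theorem mem_PSPACE_of_iter {init : List Bool → α} {step : α → α} {done ans : α → Bool}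
    (hi : LS init) (hs : LS step) (hd : LS done) (ha : LS ans) (B : List Bool → ℕ) (hB : LS B)
    {L : List Bool → Bool}
    (h : ∀ x, ∃ T, (∀ t < T, done (step^[t] (init x)) = false) ∧ done (step^[T] (init x)) = true ∧
      (∀ t ≤ T, sz (step^[t] (init x)) ≤ B x) ∧ ans (step^[T] (init x)) = L x) : L ∈ PSPACE := by
  obtain ⟨P, q, e⟩ := exists_iter_sp hi hs hd ha
  have h0 : LS (fun s : Str => B s.val + s.val.length) := by fun_prop
  obtain ⟨r, hr⟩ := h0.bound
  obtain ⟨m, hm⟩ := P.exists_tm
  have key : ∀ x : List Bool, Nonempty (TM2Outputs (P.tm m) x (some [L x])) ∧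
      ∀ t d, (flip Bind.bind (P.tm m).step)^[t] (some (initList (P.tm m) x)) = some d →
        ∀ k, (d.stk k).length ≤ (q.comp r + Polynomial.X).eval x.length := fun x => by
    have hr' : B x + x.length ≤ r.eval x.length := by simpa using hr (Str.mk x)
    obtain ⟨T, h1, h2, h3, h4⟩ := h x
    have := e x T (r.eval x.length) h1 h2 (fun t ht => (h3 t ht).trans (by omega)) (by omega)
    rw [h4] at this
    obtain ⟨⟨a⟩, b⟩ := hm x [L x] _ ((q.comp r + Polynomial.X).eval x.length) (by simp)
      (this.imp fun _ h' k => (h' k).trans (by simp))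
    exact ⟨⟨a.toTM2Outputs⟩, b⟩
  have e1 : ∀ l l' : List Bool, Nonempty (TM2Outputs (P.tm m) l (some l'))
      → Nonempty (TM2Outputs (P.tm m) (List.map id l : List Bool)
        (some (List.map id l' : List Bool))) := fun l l' h => by
    rwa [List.map_id, List.map_id]
  refine ⟨⟨P.aux m, fun x => Classical.choice (e1 _ _ (key x).1)⟩, q.comp r + Polynomial.X,
    fun x n c hc => (key x).2 n c ?_⟩
  have e2 : (List.map id x : List Bool) = x := List.map_id x
  rw [← e2]
  exact hc

end Pool.Agent.Lib.Cx
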