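import Pool.Agent.Lib.Cx.LSCore

/-!
Arithmetic, comparisons, Boolean connectives, bounded sums and searches are `LS`.
-/

namespace Pool.Agent.Lib.Cx

open Obj

variable {α β γ : Type} [Obj α] [Obj β] [Obj γ]

namespace LS

@[fun_prop] theorem succ {f : α → ℕ} (hf : LS f) : LS (fun a => (f a).succ) :=
  nat_iff.2 (nat_iff.1 hf).succ

@[fun_prop] theorem pred {f : α → ℕ} (hf : LS f) : LS (fun a => (f a).pred) :=
  nat_iff.2 (nat_iff.1 hf).pred

theorem add' : LS (fun p : ℕ × ℕ => p.1 + p.2) := by
  have key : ∀ (p : ℕ × ℕ) i, (Nat.rec p.1 (fun _ acc => acc.succ) i : ℕ) = p.1 + i := by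
    intro p i; induction i with
    | zero => rfl
    | succ i ih => simp only [ih]; rfl
  refine (natRec_poly (n := fun p : ℕ × ℕ => p.2) (s := fun p => p.1) (t := fun q => q.1.succ)
    (by fun_prop) (by fun_prop) (by fun_prop) Polynomial.X fun p i hi => ?_).congr fun p => key p _
  rw [key, sz_prod' p]; simp; omega

@[fun_prop] theorem add {f g : α → ℕ} (hf : LS f) (hg : LS g) : LS (fun a => f a + g a) :=
  comp _ _ add' (pair hf hg)

theorem sub' : LS (fun p : ℕ × ℕ => p.1 - p.2) := by
  have key : ∀ (p : ℕ × ℕ) i, (Nat.rec p.1 (fun _ acc => acc.pred) i : ℕ) = p.1 - i := by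
    intro p i; induction i with
    | zero => rfl
    | succ i ih => simp only [ih]; rfl
  refine (natRec (n := fun p : ℕ × ℕ => p.2) (s := fun p => p.1) (t := fun q => q.1.pred)
    (by fun_prop) (by fun_prop) (by fun_prop) (fun p => p.1) (by fun_prop)
    fun p i _ => ?_).congr fun p => key p _
  rw [key]; omega

@[fun_prop] theorem sub {f g : α → ℕ} (hf : LS f) (hg : LS g) : LS (fun a => f a - g a) :=
  comp _ _ sub' (pair hf hg)

theorem mul' : LS (fun p : ℕ × ℕ => p.1 * p.2) := by
  have key : ∀ (p : ℕ × ℕ) i, (Nat.rec 0 (fun _ acc => acc + p.1) i : ℕ) = p.1 * i := by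
    intro p i; induction i with
    | zero => rfl
    | succ i ih => simp only [ih]; rfl
  refine (natRec_poly (n := fun p : ℕ × ℕ => p.2) (s := fun _ => 0) (t := fun q => q.1 + q.2.2.1)
    (by fun_prop) (by fun_prop) (by fun_prop) (Polynomial.X * Polynomial.X)
    fun p i hi => ?_).congr fun p => key p _
  rw [key, sz_prod' p]
  simp only [sz_nat, Polynomial.eval_mul, Polynomial.eval_X]
  exact Nat.mul_le_mul (by omega) (by omega)

@[fun_prop] theorem mul {f g : α → ℕ} (hf : LS f) (hg : LS g) : LS (fun a => f a * g a) :=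
  comp _ _ mul' (pair hf hg)

@[fun_prop] theorem pow_const {f : α → ℕ} (hf : LS f) (k : ℕ) : LS (fun a => f a ^ k) := by
  induction k with
  | zero => simpa using const 1
  | succ k ih => simpa [pow_succ] using ih.mul hf

@[fun_prop] theorem peval {f : α → ℕ} (hf : LS f) (p : Polynomial ℕ) :
    LS (fun a => p.eval (f a)) := by
  induction p using Polynomial.induction_on' with
  | add p q hp hq => simpa using hp.add hq
  | monomial n c => simpa using (const c).mul (hf.pow_const n)

@[fun_prop] theorem size : LS (fun a : α => sz a) := by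
  unfold sz
  generalize ar α = k
  induction k with
  | zero => simpa using const 0
  | succ k ih => simpa [Finset.sum_range_succ] using ih.add (nat_iff.2 (NF.len k))

@[fun_prop] theorem not {f : α → Bool} (hf : LS f) : LS (fun a => !f a) :=
  (cond hf (const false) (const true)).congr fun a => by cases f a <;> rfl

@[fun_prop] theorem and {f g : α → Bool} (hf : LS f) (hg : LS g) : LS (fun a => f a && g a) :=
  (cond hf hg (const false)).congr fun a => by cases f a <;> rfl

@[fun_prop] theorem or {f g : α → Bool} (hf : LS f) (hg : LS g) : LS (fun a => f a || g a) :=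
  (cond hf (const true) hg).congr fun a => by cases f a <;> rfl

@[fun_prop] theorem xor {f g : α → Bool} (hf : LS f) (hg : LS g) : LS (fun a => (f a ^^ g a)) :=
  (cond hf hg.not hg).congr fun a => by cases f a <;> simp

theorem decide_le {f g : α → ℕ} {inst : ∀ a, Decidable (f a ≤ g a)} (hf : LS f)
    (hg : LS g) : LS (fun a => @decide (f a ≤ g a) (inst a)) :=
  (ifz (hf.sub hg) (const true) (const false)).congr fun a => by
    by_cases h : f a ≤ g a
    · simp [h, Nat.sub_eq_zero_of_le h]
    · simp [h, Nat.sub_ne_zero_of_lt (Nat.lt_of_not_le h)]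

theorem decide_lt {f g : α → ℕ} {inst : ∀ a, Decidable (f a < g a)} (hf : LS f)
    (hg : LS g) : LS (fun a => @decide (f a < g a) (inst a)) :=
  (decide_le (inst := fun _ => inferInstance) hf.succ hg).congr fun a => by
    simp

theorem decide_ge {f g : α → ℕ} {inst : ∀ a, Decidable (f a ≥ g a)} (hf : LS f)
    (hg : LS g) : LS (fun a => @decide (f a ≥ g a) (inst a)) :=
  decide_le hg hf

theorem decide_gt {f g : α → ℕ} {inst : ∀ a, Decidable (f a > g a)} (hf : LS f)
    (hg : LS g) : LS (fun a => @decide (f a > g a) (inst a)) :=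
  decide_lt hg hf

theorem decide_eq_nat {f g : α → ℕ} {inst : ∀ a, Decidable (f a = g a)} (hf : LS f)
    (hg : LS g) : LS (fun a => @decide (f a = g a) (inst a)) :=
  ((decide_le (inst := fun _ => inferInstance) hf hg).and
    (decide_le (inst := fun _ => inferInstance) hg hf)).congr fun a => by
    rw [← Bool.decide_and]; simp [le_antisymm_iff]

theorem decide_not {p : α → Prop} {i1 : ∀ a, Decidable (¬p a)}
    [i2 : ∀ a, Decidable (p a)] (hp : LS (fun a => decide (p a))) :
    LS (fun a => @decide (¬p a) (i1 a)) :=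
  hp.not.congr fun a => by simp

theorem decide_and {p q : α → Prop} {i1 : ∀ a, Decidable (p a ∧ q a)}
    [i2 : ∀ a, Decidable (p a)] [i3 : ∀ a, Decidable (q a)] (hp : LS (fun a => decide (p a)))
    (hq : LS (fun a => decide (q a))) : LS (fun a => @decide (p a ∧ q a) (i1 a)) :=
  (hp.and hq).congr fun a => by simp

theorem decide_or {p q : α → Prop} {i1 : ∀ a, Decidable (p a ∨ q a)}
    [i2 : ∀ a, Decidable (p a)] [i3 : ∀ a, Decidable (q a)] (hp : LS (fun a => decide (p a)))
    (hq : LS (fun a => decide (q a))) : LS (fun a => @decide (p a ∨ q a) (i1 a)) :=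
  (hp.or hq).congr fun a => by simp

theorem decide_imp {p q : α → Prop} {i1 : ∀ a, Decidable (p a → q a)}
    [i2 : ∀ a, Decidable (p a)] [i3 : ∀ a, Decidable (q a)] (hp : LS (fun a => decide (p a)))
    (hq : LS (fun a => decide (q a))) : LS (fun a => @decide (p a → q a) (i1 a)) :=
  (hp.not.or hq).congr fun a => by by_cases h : p a <;> simp [h]

theorem decide_iff {p q : α → Prop} {i1 : ∀ a, Decidable (p a ↔ q a)}
    [i2 : ∀ a, Decidable (p a)] [i3 : ∀ a, Decidable (q a)] (hp : LS (fun a => decide (p a)))
    (hq : LS (fun a => decide (q a))) : LS (fun a => @decide (p a ↔ q a) (i1 a)) :=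
  (hp.xor hq).not.congr fun a => by by_cases h : p a <;> by_cases h' : q a <;> simp [h, h']

end LS

/-- Atomic predicates decided by an `LS` function. -/
@[fun_prop] structure LSP {α : Type} [Obj α] (p : α → Prop) : Prop where
  out : LS (fun a => @decide (p a) (Classical.propDecidable _))

namespace LSP

@[fun_prop] theorem comp (p : β → Prop) (g : α → β) (hp : LSP p) (hg : LS g) :
    LSP (fun a => p (g a)) := ⟨LS.comp _ g hp.out hg⟩

@[fun_prop] theorem const (p : Prop) : LSP (fun _ : α => p) := ⟨LS.const _⟩

@[fun_prop] theorem le {f g : α → ℕ} (hf : LS f) (hg : LS g) : LSP (fun a => f a ≤ g a) :=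
  ⟨LS.decide_le hf hg⟩

@[fun_prop] theorem lt {f g : α → ℕ} (hf : LS f) (hg : LS g) : LSP (fun a => f a < g a) :=
  ⟨LS.decide_lt hf hg⟩

@[fun_prop] theorem finLe {n : ℕ} {f g : α → Fin n} (hf : LS f) (hg : LS g) :
    LSP (fun a => f a ≤ g a) := ⟨LS.decide_le hf.finVal hg.finVal⟩

@[fun_prop] theorem finLt {n : ℕ} {f g : α → Fin n} (hf : LS f) (hg : LS g) :
    LSP (fun a => f a < g a) := ⟨LS.decide_lt hf.finVal hg.finVal⟩

theorem of_decide {p : α → Prop} {inst : ∀ a, Decidable (p a)}
    (h : LS (fun a => @decide (p a) (inst a))) : LSP p :=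
  ⟨h.congr fun _ => by congr⟩

end LSP

namespace LS

@[fun_prop] theorem decide_lsp {p : α → Prop} {inst : ∀ a, Decidable (p a)} (h : LSP p) :
    LS (fun a => @decide (p a) (inst a)) :=
  LS.congr h.out fun _ => by congr

@[fun_prop] theorem dec_not {p : α → Prop} {i : ∀ a, Decidable (p a)}
    (hp : LS (fun a => @decide (p a) (i a))) :
    LS (fun a => @decide (¬p a) (@instDecidableNot _ (i a))) := decide_not hp

@[fun_prop] theorem dec_and {p q : α → Prop} {i : ∀ a, Decidable (p a)} {j : ∀ a, Decidable (q a)}
    (hp : LS (fun a => @decide (p a) (i a))) (hq : LS (fun a => @decide (q a) (j a))) :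
    LS (fun a => @decide (p a ∧ q a) (@instDecidableAnd _ _ (i a) (j a))) := decide_and hp hq

@[fun_prop] theorem dec_or {p q : α → Prop} {i : ∀ a, Decidable (p a)} {j : ∀ a, Decidable (q a)}
    (hp : LS (fun a => @decide (p a) (i a))) (hq : LS (fun a => @decide (q a) (j a))) :
    LS (fun a => @decide (p a ∨ q a) (@instDecidableOr _ _ (i a) (j a))) := decide_or hp hq

@[fun_prop] theorem dec_iff {p q : α → Prop} {i : ∀ a, Decidable (p a)} {j : ∀ a, Decidable (q a)}
    (hp : LS (fun a => @decide (p a) (i a))) (hq : LS (fun a => @decide (q a) (j a))) :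
    LS (fun a => @decide (p a ↔ q a) (@instDecidableIff _ _ (i a) (j a))) := decide_iff hp hq

@[fun_prop] theorem dec_imp {p q : α → Prop} {i : ∀ a, Decidable (p a)} {j : ∀ a, Decidable (q a)}
    (hp : LS (fun a => @decide (p a) (i a))) (hq : LS (fun a => @decide (q a) (j a))) :
    LS (fun a => @decide (p a → q a)
      (@forall_prop_decidable (p a) (fun _ => q a) (i a) (fun _ => j a))) := decide_imp hp hq

@[fun_prop] theorem dec_imp' {p q : α → Prop} {i : ∀ a, Decidable (p a)} {j : ∀ a, Decidable (q a)}
    (hp : LS (fun a => @decide (p a) (i a))) (hq : LS (fun a => @decide (q a) (j a))) :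
    LS (fun a => @decide (p a → q a) (@instDecidableForall (p a) (q a) (i a) (j a))) :=
  decide_imp hp hq

@[fun_prop] theorem dec_ite {c p q : α → Prop} {k : ∀ a, Decidable (c a)}
    {i : ∀ a, Decidable (p a)} {j : ∀ a, Decidable (q a)} (hc : LS (fun a => @decide (c a) (k a)))
    (hp : LS (fun a => @decide (p a) (i a))) (hq : LS (fun a => @decide (q a) (j a))) :
    LS (fun a => @decide (@_root_.ite Prop (c a) (k a) (p a) (q a))
      (@instDecidableIte _ _ _ (k a) (i a) (j a))) :=
  (cond hc hp hq).congr fun a => by by_cases h : c a <;> simp [h]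

@[fun_prop] theorem min {f g : α → ℕ} (hf : LS f) (hg : LS g) : LS (fun a => min (f a) (g a)) :=
  (hf.sub (hf.sub hg)).congr fun a => by omega

@[fun_prop] theorem max {f g : α → ℕ} (hf : LS f) (hg : LS g) : LS (fun a => max (f a) (g a)) :=
  (hg.add (hf.sub hg)).congr fun a => by omega

/-- Sums over an initial segment. -/
@[fun_prop] theorem sumRange {n : α → ℕ} {g : α → ℕ → ℕ} (hn : LS n)
    (hg : LS (fun p : α × ℕ => g p.1 p.2)) :
    LS (fun a => ∑ i ∈ Finset.range (n a), g a i) := by
  have key : ∀ a i, (Nat.rec 0 (fun i acc => acc + g a i) i : ℕ) = ∑ j ∈ Finset.range i, g a j := by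
    intro a i; induction i with
    | zero => rfl
    | succ i ih => simp only [ih, Finset.sum_range_succ]
  obtain ⟨p, hp⟩ := hg.bound
  obtain ⟨q, hq⟩ := hn.bound
  refine (natRec_poly (n := n) (s := fun _ => 0) (t := fun q => q.1 + g q.2.2 q.2.1)
    hn (by fun_prop) (by fun_prop) (q * p.comp (q + Polynomial.X))
    fun a i hi => ?_).congr fun a => key a _
  rw [key]
  have h1 : n a ≤ q.eval (sz a) := by simpa using hq a
  calc ∑ j ∈ Finset.range i, g a j
      ≤ ∑ j ∈ Finset.range i, p.eval (q.eval (sz a) + sz a) := by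
        refine Finset.sum_le_sum fun j hj => ?_
        have h2 := hp (a, j)
        simp only [sz_nat, sz_prod] at h2
        have := Finset.mem_range.1 hj
        exact h2.trans (peval_mono _ (by omega))
    _ ≤ _ := by
        simp only [Finset.sum_const, Finset.card_range, smul_eq_mul, Polynomial.eval_mul,
          Polynomial.eval_comp, Polynomial.eval_add, Polynomial.eval_X]
        exact Nat.mul_le_mul_right _ (by omega)

end LS

/-- The least `i < n` with `p i`, or `n` if there is none. -/
def findLt (n : ℕ) (p : ℕ → Bool) : ℕ :=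
  Nat.rec 0 (fun i acc => if acc = i ∧ p i = false then i + 1 else acc) n

theorem findLt_succ (n : ℕ) (p : ℕ → Bool) :
    findLt (n + 1) p = if findLt n p = n ∧ p n = false then n + 1 else findLt n p := rfl

theorem findLt_le (n : ℕ) (p : ℕ → Bool) : findLt n p ≤ n := by
  induction n with
  | zero => exact le_rfl
  | succ n ih => rw [findLt_succ]; split_ifs <;> omega

theorem findLt_min {n : ℕ} {p : ℕ → Bool} {i : ℕ} (hi : i < findLt n p) : p i = false := by
  induction n with
  | zero => simp [findLt] at hi
  | succ n ih =>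
    rw [findLt_succ] at hi
    split_ifs at hi with h
    · rcases Nat.lt_succ_iff_lt_or_eq.1 hi with h' | rfl
      · exact ih (by omega)
      · exact h.2
    · exact ih hi

theorem findLt_spec {n : ℕ} {p : ℕ → Bool} (h : findLt n p < n) : p (findLt n p) = true := by
  induction n with
  | zero => omega
  | succ n ih =>
    rw [findLt_succ] at h ⊢
    split_ifs at h ⊢ with h'
    · omega
    · rcases Nat.lt_succ_iff_lt_or_eq.1 h with h'' | h''
      · exact ih h''
      · rw [h'']; simpa [h''] using h'

theorem findLt_eq {n : ℕ} {p : ℕ → Bool} {m : ℕ} (hm : m ≤ n) (h1 : m < n → p m = true)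
    (h2 : ∀ i < m, p i = false) : findLt n p = m := by
  have := findLt_le n p
  rcases lt_trichotomy (findLt n p) m with h | h | h
  · have := findLt_spec (n := n) (p := p) (by omega)
    rw [h2 _ h] at this; cases this
  · exact h
  · have := findLt_min h
    rw [h1 (by omega)] at this; cases this

theorem findLt_lt_iff {n : ℕ} {p : ℕ → Bool} : findLt n p < n ↔ ∃ i < n, p i = true := by
  refine ⟨fun h => ⟨_, h, findLt_spec h⟩, fun ⟨i, hi, hp⟩ => ?_⟩
  by_contra h
  have := findLt_min (n := n) (p := p) (i := i) (by omega)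
  rw [hp] at this; cases this

namespace LS

theorem decide_eq_true {f : α → Bool} {inst : ∀ a, Decidable (f a = true)}
    (hf : LS f) : LS (fun a => @decide (f a = true) (inst a)) :=
  hf.congr fun a => by simp

theorem decide_eq_false {f : α → Bool} {inst : ∀ a, Decidable (f a = false)}
    (hf : LS f) : LS (fun a => @decide (f a = false) (inst a)) :=
  hf.not.congr fun a => by simp

@[fun_prop] theorem findLt {n : α → ℕ} {p : α → ℕ → Bool} (hn : LS n)
    (hp : LS (fun q : α × ℕ => p q.1 q.2)) : LS (fun a => findLt (n a) (p a)) := by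
  refine natRec (n := n) (s := fun _ => 0)
    (t := fun q => if q.1 = q.2.1 ∧ p q.2.2 q.2.1 = false then q.2.1 + 1 else q.1)
    hn (by fun_prop) ?_ n hn fun a i hi => (findLt_le i (p a)).trans hi.le
  refine ite (decide_and (decide_eq_nat ?_ ?_) (decide_eq_false ?_)) ?_ ?_ <;> fun_prop

theorem decide_exists_lt {n : α → ℕ} {p : α → ℕ → Prop}
    {i1 : ∀ a, Decidable (∃ i < n a, p a i)} [i2 : ∀ a i, Decidable (p a i)] (hn : LS n)
    (hp : LS (fun q : α × ℕ => decide (p q.1 q.2))) :
    LS (fun a => @decide (∃ i < n a, p a i) (i1 a)) :=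
  (decide_lt (inst := fun _ => inferInstance)
    (findLt (p := fun a i => decide (p a i)) hn hp) hn).congr fun a => by
      simp [findLt_lt_iff]

theorem decide_forall_lt {n : α → ℕ} {p : α → ℕ → Prop}
    {i1 : ∀ a, Decidable (∀ i < n a, p a i)} [i2 : ∀ a i, Decidable (p a i)] (hn : LS n)
    (hp : LS (fun q : α × ℕ => decide (p q.1 q.2))) :
    LS (fun a => @decide (∀ i < n a, p a i) (i1 a)) :=
  (decide_exists_lt (p := fun a i => ¬ p a i) (i1 := fun _ => inferInstance) hn
    (decide_not (i1 := fun _ => inferInstance) hp)).not.congr fun a => by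
      by_cases h : ∀ i < n a, p a i
      · simp only [_root_.decide_eq_true h]; simpa using h
      · simp only [_root_.decide_eq_false h]; simpa using h

@[fun_prop] theorem dec_exists_lt {n : α → ℕ} {p : α → ℕ → Prop} {i : ∀ a k, Decidable (p a k)}
    (hn : LS n) (hp : LS (fun q : α × ℕ => @decide (p q.1 q.2) (i q.1 q.2))) :
    LS (fun a => @decide (∃ k < n a, p a k) (@Nat.decidableExistsLT (p a) (i a) (n a))) :=
  decide_exists_lt hn hp

@[fun_prop] theorem dec_forall_lt {n : α → ℕ} {p : α → ℕ → Prop} {i : ∀ a k, Decidable (p a k)}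
    (hn : LS n) (hp : LS (fun q : α × ℕ => @decide (p q.1 q.2) (i q.1 q.2))) :
    LS (fun a => @decide (∀ k < n a, p a k)
      (@Nat.decidableBallLT (n a) (fun k _ => p a k) (fun k _ => i a k))) :=
  decide_forall_lt hn hp

@[fun_prop] theorem dec_exists_le {n : α → ℕ} {p : α → ℕ → Prop} {i : ∀ a k, Decidable (p a k)}
    (hn : LS n) (hp : LS (fun q : α × ℕ => @decide (p q.1 q.2) (i q.1 q.2))) :
    LS (fun a => @decide (∃ k ≤ n a, p a k) (@Nat.decidableExistsLE (p a) (i a) (n a))) :=
  (dec_exists_lt hn.succ hp).congr fun a => by simp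

@[fun_prop] theorem dec_forall_le {n : α → ℕ} {p : α → ℕ → Prop} {i : ∀ a k, Decidable (p a k)}
    (hn : LS n) (hp : LS (fun q : α × ℕ => @decide (p q.1 q.2) (i q.1 q.2))) :
    LS (fun a => @decide (∀ k ≤ n a, p a k)
      (@Nat.decidableBallLE (n a) (fun k _ => p a k) (fun k _ => i a k))) :=
  (dec_forall_lt hn.succ hp).congr fun a => by simp

@[fun_prop] theorem div {f g : α → ℕ} (hf : LS f) (hg : LS g) : LS (fun a => f a / g a) := by
  have : LS fun a => if g a = 0 then 0 else
      Cx.findLt (f a) (fun q => decide (f a < (q + 1) * g a)) :=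
    ifz hg (const 0) (by fun_prop)
  refine this.congr fun a => ?_
  split_ifs with h
  · simp [h]
  · have hpos : 0 < g a := Nat.pos_of_ne_zero h
    refine findLt_eq (Nat.div_le_self _ _) (fun _ => ?_) (fun i hi => ?_)
    · simpa [mul_comm] using Nat.lt_mul_div_succ (f a) hpos
    · simp only [decide_eq_false_iff_not, not_lt]
      exact (Nat.le_div_iff_mul_le hpos).1 hi

@[fun_prop] theorem mod {f g : α → ℕ} (hf : LS f) (hg : LS g) : LS (fun a => f a % g a) :=
  (hf.sub (hg.mul (hf.div hg))).congr fun a => by rw [Nat.mod_def]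

theorem decide_dvd {f g : α → ℕ} {inst : ∀ a, Decidable (f a ∣ g a)} (hf : LS f)
    (hg : LS g) : LS (fun a => @decide (f a ∣ g a) (inst a)) :=
  (decide_eq_nat (inst := fun _ => inferInstance) (hg.mod hf) (const 0)).congr fun a => by
    simp [Nat.dvd_iff_mod_eq_zero]

@[fun_prop] theorem sqrt {f : α → ℕ} (hf : LS f) : LS (fun a => Nat.sqrt (f a)) := by
  have : LS fun a => Cx.findLt (f a) (fun q => decide (f a < (q + 1) * (q + 1))) := by fun_prop
  refine this.congr fun a => ?_
  refine findLt_eq (Nat.sqrt_le_self _) (fun _ => ?_) (fun i hi => ?_)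
  · simpa using Nat.lt_succ_sqrt (f a)
  · simp only [decide_eq_false_iff_not, not_lt]
    exact Nat.le_sqrt.1 hi

@[fun_prop] theorem natPair {f g : α → ℕ} (hf : LS f) (hg : LS g) :
    LS (fun a => Nat.pair (f a) (g a)) := by
  unfold Nat.pair; fun_prop

@[fun_prop] theorem natUnpair {f : α → ℕ} (hf : LS f) : LS (fun a => Nat.unpair (f a)) := by
  unfold Nat.unpair; fun_prop

@[fun_prop] theorem strGetD {f : α → Str} {g : α → ℕ} (hf : LS f) (hg : LS g) :
    LS (fun a => (f a).val.getD (g a) false) :=
  of_toNat (strBitv hf hg)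

theorem strEq {f g : α → Str} {inst : ∀ a, Decidable (f a = g a)} (hf : LS f) (hg : LS g) :
    LS (fun a => @decide (f a = g a) (inst a)) := by
  have : LS fun a => decide ((f a).val.length = (g a).val.length ∧
      ∀ i < (f a).val.length, bitv (f a).val i = bitv (g a).val i) :=
    decide_and (decide_eq_nat (by fun_prop) (by fun_prop))
      (decide_forall_lt (by fun_prop) (decide_eq_nat (by fun_prop) (by fun_prop)))
  refine this.congr fun a => ?_
  refine decide_eq_decide.2 ⟨fun ⟨h1, h2⟩ => ?_, fun h => by simp [h]⟩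
  refine List.ext_getElem h1 fun i hi hi' => ?_
  have := h2 i hi
  simp only [bitv, List.getD_eq_getElem?_getD, List.getElem?_eq_getElem (l := (f a).val) hi,
    List.getElem?_eq_getElem (l := (g a).val) hi', Option.getD_some] at this
  revert this
  change (f a).val[i].toNat = (g a).val[i].toNat → (f a).val[i] = (g a).val[i]
  cases (f a).val[i] <;> cases (g a).val[i] <;> simp

/-- Equality of encoded objects. -/
theorem decide_eq {f g : α → β} {inst : ∀ a, Decidable (f a = g a)} (hf : LS f)
    (hg : LS g) : LS (fun a => @decide (f a = g a) (inst a)) := by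
  classical
  have key : ∀ k, LS fun a => decide (∀ j < k, enc (f a) j = enc (g a) j) := by
    intro k
    induction k with
    | zero => simpa using const true
    | succ k ih =>
      refine (ih.and (strEq (inst := fun _ => inferInstance) (comp _ _ (encStr k) hf)
        (comp _ _ (encStr k) hg))).congr fun a => ?_
      rw [← Bool.decide_and]
      exact decide_eq_decide.2 (Nat.forall_lt_succ_right.symm)
  refine (key (ar β)).congr fun a => decide_eq_decide.2 ⟨fun h => ?_, fun h => by simp [h]⟩
  apply enc_inj
  funext j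
  by_cases hj : j < ar β
  · exact h j hj
  · rw [enc_ge _ _ (by omega), enc_ge _ _ (by omega)]

theorem decide_ne {f g : α → β} {inst : ∀ a, Decidable (f a ≠ g a)} (hf : LS f)
    (hg : LS g) : LS (fun a => @decide (f a ≠ g a) (inst a)) := by
  classical
  exact (decide_eq (inst := fun _ => inferInstance) hf hg).not.congr fun a => by simp

end LS

@[fun_prop] theorem LSP.eq {f g : α → β} (hf : LS f) (hg : LS g) : LSP (fun a => f a = g a) :=
  ⟨LS.decide_eq hf hg⟩

@[fun_prop] theorem LSP.dvd {f g : α → ℕ} (hf : LS f) (hg : LS g) : LSP (fun a => f a ∣ g a) :=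
  ⟨LS.decide_dvd hf hg⟩

@[fun_prop] theorem LSP.not {p : α → Prop} (hp : LSP p) : LSP (fun a => ¬p a) :=
  ⟨LS.decide_not (i2 := fun _ => Classical.propDecidable _) hp.out⟩

namespace LS

@[fun_prop] theorem beq [BEq β] [LawfulBEq β] {f g : α → β} (hf : LS f)
    (hg : LS g) : LS (fun a => f a == g a) := by
  classical
  exact (decide_eq (inst := fun _ => inferInstance) hf hg).congr fun a => by
    by_cases h : f a = g a <;> simp [h]

@[fun_prop] theorem bne [BEq β] [LawfulBEq β] {f g : α → β} (hf : LS f)
    (hg : LS g) : LS (fun a => f a != g a) := (beq hf hg).not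

/-- A function that is constant outside a finite set. -/
theorem of_finset (f : α → β) (s : Finset α) (b : β) (h : ∀ a ∉ s, f a = b) : LS f := by
  classical
  induction s using Finset.induction_on generalizing f with
  | empty => exact (const b).congr fun a => (h a (by simp)).symm
  | insert x s _ ih =>
    have h1 := ih (fun a => if a = x then b else f a) fun a ha => by
      by_cases hx : a = x
      · simp [hx]
      · simp only [hx, if_false]; exact h a (by simp [hx, ha])
    have h2 : LS fun a => if a = x then f x else if a = x then b else f a :=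
      ite (decide_eq id' (const x)) (const _) h1
    exact h2.congr fun a => by by_cases hx : a = x <;> simp [hx]

/-- Every function on a finite type is `LS`. -/
theorem of_finite [Finite α] (f : α → β) : LS f := by
  classical
  rcases isEmpty_or_nonempty α with h | ⟨⟨a⟩⟩
  · exact ⟨fun _ => ⟨⟨.zero, 0, fun a => h.elim a⟩, ⟨.zero, 0, fun a => h.elim a.2⟩⟩⟩
  · have := Fintype.ofFinite α
    exact of_finset f Finset.univ (f a) (by simp)

theorem of_isEmpty [h : IsEmpty α] (f : α → β) : LS f := of_finite f

/-- Apply an arbitrary function on a finite type. -/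
theorem finite_comp [Finite β] (f : β → γ) {g : α → β} (hg : LS g) : LS (fun a => f (g a)) :=
  comp _ _ (of_finite f) hg

/-- A family indexed by a finite type. -/
theorem finite_family [Finite β] {f : β → α → γ} (hf : ∀ b, LS (f b)) {g : α → β} (hg : LS g) :
    LS (fun a => f (g a) a) := by
  classical
  rcases isEmpty_or_nonempty α with h | ⟨⟨a₀⟩⟩
  · exact of_isEmpty _
  have := Fintype.ofFinite β
  have key : ∀ s : Finset β, LS (fun a => if g a ∈ s then f (g a) a else f (g a₀) a) := by
    intro s
    induction s using Finset.induction_on with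
    | empty => simpa using hf _
    | insert x s _ ih =>
      have h2 : LS fun a => if g a = x then f x a else if g a ∈ s then f (g a) a else f (g a₀) a :=
        ite (decide_eq hg (const x)) (hf x) ih
      exact h2.congr fun a => by by_cases hx : g a = x <;> simp [hx]
  simpa using key Finset.univ

end LS

/-- Any finite type can be encoded. -/
@[reducible] noncomputable def Obj.ofFinite (α : Type) [Finite α] : Obj α :=
  Obj.ofInj (fun a => (Finite.equivFin α a : ℕ))
    (Fin.val_injective.comp (Finite.equivFin α).injective)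

end Pool.Agent.Lib.Cx
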