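import Pool.Agent.Lib.Cx.LSNat

/-!
Raw strings: tabulation, concatenation and parsing of delimited blocks are `LS`.
-/

namespace Pool.Agent.Lib.Cx

open Obj

variable {α β γ : Type} [Obj α] [Obj β] [Obj γ]

/-- Self-delimiting code of a bit string. -/
def dl : List Bool → List Bool
  | [] => [false]
  | b :: l => true :: b :: dl l

@[simp] theorem length_dl (l : List Bool) : (dl l).length = 2 * l.length + 1 := by
  induction l with
  | nil => rfl
  | cons b l ih => simp [dl, ih]; omega

theorem getD_dl_append_even (l r : List Bool) (m : ℕ) (hm : m ≤ l.length) :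
    (dl l ++ r).getD (2 * m) false = decide (m < l.length) := by
  induction l generalizing m with
  | nil => obtain rfl : m = 0 := by simpa using hm
           simp [dl]
  | cons b l ih =>
    rcases m with _ | m
    · simp [dl]
    · have := ih m (by simpa using hm)
      simp only [dl, Nat.mul_succ, List.cons_append, List.getD_cons_succ, this]
      simp

theorem getD_dl_append_odd (l r : List Bool) (m : ℕ) (hm : m < l.length) :
    (dl l ++ r).getD (2 * m + 1) false = l.getD m false := by
  induction l generalizing m with
  | nil => simp at hm
  | cons b l ih =>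
    rcases m with _ | m
    · simp [dl]
    · have := ih m (by simpa using hm)
      simp only [dl, Nat.mul_succ, List.cons_append, List.getD_cons_succ, this]

theorem getD_dl (l : List Bool) (m : ℕ) : (dl l).getD m false =
    if m % 2 = 0 then decide (m / 2 < l.length) else l.getD (m / 2) false := by
  induction l generalizing m with
  | nil => rcases m with _ | m <;> simp [dl]
  | cons b l ih =>
    rcases m with _ | _ | m
    · simp [dl]
    · simp [dl]
    · simp only [dl, List.getD_cons_succ, ih]
      have h1 : (m + 1 + 1) % 2 = m % 2 := by omega
      have h2 : (m + 1 + 1) / 2 = m / 2 + 1 := by omega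
      simp [h1, h2]

theorem getD_append' {δ : Type} (s t : List δ) (d : δ) (m : ℕ) :
    (s ++ t).getD m d = if m < s.length then s.getD m d else t.getD (m - s.length) d := by
  simp only [List.getD_eq_getElem?_getD, List.getElem?_append]
  split_ifs <;> rfl

theorem getD_map_range {δ : Type} (n : ℕ) (g : ℕ → δ) (d : δ) (m : ℕ) :
    ((List.range n).map g).getD m d = if m < n then g m else d := by
  simp only [List.getD_eq_getElem?_getD, List.getElem?_map]
  split_ifs with h
  · simp [h]
  · simp [List.getElem?_eq_none (l := List.range n) (i := m) (by simpa using h)]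

theorem eq_map_range_getD {δ : Type} (l : List δ) (d : δ) :
    l = (List.range l.length).map (fun i => l.getD i d) := by
  refine List.ext_getElem (by simp) fun i h1 _ => ?_
  simp [List.getD_eq_getElem?_getD, List.getElem?_eq_getElem h1]

theorem length_flatMap_range {δ : Type} (n : ℕ) (g : ℕ → List δ) :
    ((List.range n).flatMap g).length = ∑ j ∈ Finset.range n, (g j).length := by
  induction n with
  | zero => simp
  | succ n ih => simp [List.range_succ, List.flatMap_append, Finset.sum_range_succ, ← ih]

theorem getD_flatMap_range {δ : Type} (n : ℕ) (g : ℕ → List δ) (d : δ) (m : ℕ) :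
    ((List.range n).flatMap g).getD m d =
      if findLt n (fun i => decide (m < ∑ j ∈ Finset.range (i + 1), (g j).length)) < n then
        (g (findLt n (fun i => decide (m < ∑ j ∈ Finset.range (i + 1), (g j).length)))).getD
          (m - ∑ j ∈ Finset.range
            (findLt n (fun i => decide (m < ∑ j ∈ Finset.range (i + 1), (g j).length))),
              (g j).length) d
      else d := by
  induction n with
  | zero => simp
  | succ n ih =>
    rw [List.range_succ, List.flatMap_append, getD_append', length_flatMap_range]
    set p : ℕ → Bool := fun i => decide (m < ∑ j ∈ Finset.range (i + 1), (g j).length) with hp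
    have hle := findLt_le n p
    by_cases h1 : m < ∑ j ∈ Finset.range n, (g j).length
    · have h2 : findLt n p < n := by
        rcases n with _ | n
        · simp at h1
        · exact findLt_lt_iff.2 ⟨n, by omega, by simpa [hp] using h1⟩
      have h3 : findLt (n + 1) p = findLt n p := by rw [findLt_succ, if_neg (by omega)]
      rw [if_pos h1, ih, if_pos h2, h3, if_pos (by omega)]
    · have h2 : findLt n p = n := by
        refine findLt_eq le_rfl (by omega) fun i hi => ?_
        simp only [hp, decide_eq_false_iff_not, not_lt] at h1 ⊢
        exact le_trans (Finset.sum_le_sum_of_subset (Finset.range_mono hi)) h1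
      rw [if_neg h1]
      by_cases h3 : p n = false
      · have h4 : findLt (n + 1) p = n + 1 := by rw [findLt_succ, if_pos ⟨h2, h3⟩]
        rw [h4, if_neg (by omega)]
        simp only [hp, decide_eq_false_iff_not, not_lt, Finset.sum_range_succ] at h3
        simp only [List.flatMap_cons, List.flatMap_nil, List.append_nil,
          List.getD_eq_getElem?_getD]
        rw [List.getElem?_eq_none (by omega)]; rfl
      · have h4 : findLt (n + 1) p = n := by rw [findLt_succ, if_neg (by simp [h3]), h2]
        rw [h4, if_pos (by omega)]
        simp

/-- Length of the delimited block starting at `pos`. -/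
def blen (s : List Bool) (pos : ℕ) : ℕ := findLt s.length (fun m => !s.getD (pos + 2 * m) false)

/-- Starting position of the `i`-th delimited block. -/
def bstart (s : List Bool) (i : ℕ) : ℕ := Nat.rec 0 (fun _ acc => acc + 2 * blen s acc + 1) i

/-- The `i`-th delimited block of a string. -/
def blk (s : List Bool) (i : ℕ) : List Bool :=
  (List.range (blen s (bstart s i))).map fun m => s.getD (bstart s i + 2 * m + 1) false

theorem bstart_succ (s : List Bool) (i : ℕ) :
    bstart s (i + 1) = bstart s i + 2 * blen s (bstart s i) + 1 := rfl

theorem blen_eq (pre b post : List Bool) : blen (pre ++ (dl b ++ post)) pre.length = b.length := by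
  refine findLt_eq (by simp; omega) (fun _ => ?_) fun i hi => ?_
  · rw [getD_append', if_neg (by omega), Nat.add_sub_cancel_left,
      getD_dl_append_even _ _ _ le_rfl]; simp
  · rw [getD_append', if_neg (by omega), Nat.add_sub_cancel_left,
      getD_dl_append_even _ _ _ hi.le]; simp [hi]

theorem flatMap_dl_split (l : List (List Bool)) (i : ℕ) (hi : i < l.length) (r : List Bool) :
    l.flatMap dl ++ r =
      (l.take i).flatMap dl ++ (dl l[i] ++ ((l.drop (i + 1)).flatMap dl ++ r)) := by
  conv_lhs => rw [← List.take_append_drop i l, List.drop_eq_getElem_cons hi]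
  simp only [List.flatMap_append, List.flatMap_cons, List.append_assoc]

theorem bstart_flatMap (l : List (List Bool)) (r : List Bool) (i : ℕ) (hi : i ≤ l.length) :
    bstart (l.flatMap dl ++ r) i = ((l.take i).flatMap dl).length := by
  induction i with
  | zero => rfl
  | succ i ih =>
    rw [bstart_succ, ih (by omega)]
    conv_lhs => rw [flatMap_dl_split l i hi, blen_eq]
    rw [List.take_succ_eq_append_getElem hi, List.flatMap_append, List.length_append]
    simp; omega

theorem blk_flatMap (l : List (List Bool)) (r : List Bool) (i : ℕ) (hi : i < l.length) :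
    blk (l.flatMap dl ++ r) i = l[i] := by
  unfold blk
  rw [bstart_flatMap l r i hi.le, flatMap_dl_split l i hi, blen_eq]
  conv_rhs => rw [eq_map_range_getD l[i] false]
  refine List.map_congr_left fun m hm => ?_
  rw [getD_append', if_neg (by omega), Nat.add_assoc, Nat.add_sub_cancel_left,
    getD_dl_append_odd _ _ _ (by simpa using hm)]

namespace LS

theorem str_of' {f : α → List Bool} (h1 : LS (fun a => (f a).length))
    (h2 : LS (fun p : α × ℕ => (f p.1).getD p.2 false)) : LS (fun a => Str.mk (f a)) :=
  str_of h1 (toNat (comp (fun p : α × ℕ => (f p.1).getD p.2 false) (fun p : ℕ × α => (p.2, p.1))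
    h2 (by fun_prop)))

theorem strMapRange {n : α → ℕ} {g : α → ℕ → Bool} (hn : LS n)
    (hg : LS (fun p : α × ℕ => g p.1 p.2)) :
    LS (fun a => Str.mk ((List.range (n a)).map (g a))) := by
  refine str_of' (by simpa using hn) ?_
  simp only [getD_map_range]
  fun_prop

theorem strAppend {f g : α → Str} (hf : LS f) (hg : LS g) :
    LS (fun a => Str.mk ((f a).val ++ (g a).val)) := by
  refine str_of' (by simp only [List.length_append]; fun_prop) ?_
  simp only [getD_append']
  fun_prop

theorem strFlatRange {n : α → ℕ} {g : α → ℕ → Str} (hn : LS n)
    (hg : LS (fun p : α × ℕ => g p.1 p.2)) :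
    LS (fun a => Str.mk ((List.range (n a)).flatMap (fun i => (g a i).val))) := by
  refine str_of' (by simp only [length_flatMap_range]; fun_prop) ?_
  simp only [getD_flatMap_range]
  fun_prop

theorem strDl {f : α → Str} (hf : LS f) : LS (fun a => Str.mk (dl (f a).val)) := by
  refine str_of' (by simp only [length_dl]; fun_prop) ?_
  simp only [getD_dl]
  fun_prop

@[fun_prop] theorem strBlen {f : α → Str} {g : α → ℕ} (hf : LS f) (hg : LS g) :
    LS (fun a => blen (f a).val (g a)) := by
  unfold blen; fun_prop

@[fun_prop] theorem strBstart {f : α → Str} {g : α → ℕ} (hf : LS f) (hg : LS g) :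
    LS (fun a => bstart (f a).val (g a)) := by
  refine natRec (n := g) (s := fun _ => 0) (t := fun q => q.1 + 2 * blen (f q.2.2).val q.1 + 1)
    hg (by fun_prop) (by fun_prop) (fun a => g a * (2 * (f a).val.length + 1)) (by fun_prop)
    fun a i hi => ?_
  have key : ∀ i, bstart (f a).val i ≤ i * (2 * (f a).val.length + 1) := by
    intro i
    induction i with
    | zero => simp [bstart]
    | succ i ih =>
      have := findLt_le (f a).val.length
        (fun m => !(f a).val.getD (bstart (f a).val i + 2 * m) false)
      rw [bstart_succ, blen, Nat.add_mul i 1]; omega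
  exact (key i).trans (Nat.mul_le_mul_right _ hi.le)

theorem strBlk {f : α → Str} {g : α → ℕ} (hf : LS f) (hg : LS g) :
    LS (fun a => Str.mk (blk (f a).val (g a))) :=
  strMapRange (by fun_prop) (by fun_prop)

theorem strDrop {f : α → Str} {g : α → ℕ} (hf : LS f) (hg : LS g) :
    LS (fun a => Str.mk ((f a).val.drop (g a))) := by
  refine str_of' (by simp only [List.length_drop]; fun_prop) ?_
  have : LS fun p : α × ℕ => (f p.1).val.getD (g p.1 + p.2) false := by fun_prop
  exact this.congr fun p => by simp [List.getD_eq_getElem?_getD]

end LS

end Pool.Agent.Lib.Cx
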