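import Pool.Agent.Lib.Cx.Classes
import Pool.Agent.Lib.Cx.Bits

/-!
`LS` string functions are computed by logarithmic-space transducers.
-/

namespace Pool.Agent.Lib.Cx

open Function Prog Obj

/-- The largest stack index of an offline action. -/
def OA.idx : OA → ℕ
  | .push k _ => k
  | .pop k => k
  | _ => 0

/-- The largest stack index of an offline test. -/
def OT.idx : OT → ℕ
  | .top k _ => k
  | _ => 0

/-- The transition of the transducer at a flowchart node. -/
def nodeDelta (m : ℕ) {L : Type} (l : L) (ph : Bool) (sym : Option Bool)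
    (tops : Fin m → Option Bool) : Node OA OT (Option L) →
    (Option L × Bool) × Move × (Fin m → Option Bool × Move) × Option Bool
  | .nop q => ((q, false), .stay, fun i => (tops i, .stay), none)
  | .act (.push k b) q =>
    if ph then ((q, false), .stay, fun i => (if i.val = k then some b else tops i, .stay), none)
    else ((some l, true), .stay, fun i => (tops i, if i.val = k then .right else .stay), none)
  | .act (.pop k) q =>
    ((q, false), .stay, fun i => if i.val = k then (none, .left) else (tops i, .stay), none)
  | .act .mvL q => ((q, false), .left, fun i => (tops i, .stay), none)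
  | .act .mvR q => ((q, false), .right, fun i => (tops i, .stay), none)
  | .act (.out b) q => ((q, false), .stay, fun i => (tops i, .stay), some b)
  | .test (.top k φ) q q' =>
    ((if φ (if h : k < m then tops ⟨k, h⟩ else none) then q else q', false), .stay,
      fun i => (tops i, .stay), none)
  | .test (.sym φ) q q' => ((if φ sym then q else q', false), .stay, fun i => (tops i, .stay), none)

/-- The transducer of an offline stack program. -/
def OP.tr (P : OP) (m : ℕ) : Transducer where
  Q := Option (Lbl P) × Bool
  Γ := Option Bool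
  finQ := inferInstance
  finΓ := inferInstance
  k := m
  start := (some (entry P), false)
  blank := none
  δ q sym tops := q.1.map fun l => nodeDelta m l q.2 sym tops (node P l)

/-- A stack on a tape. -/
def tapeOf (l : List Bool) : ℕ → Option Bool := inputSym l.reverse

theorem tapeOf_top (l : List Bool) : tapeOf l l.length = l.head? := by
  cases l <;> simp [tapeOf, inputSym]

theorem tapeOf_push (l : List Bool) (b : Bool) :
    update (tapeOf l) (l.length + 1) (some b) = tapeOf (b :: l) := by
  funext j
  simp only [update_apply, tapeOf, inputSym, List.reverse_cons]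
  split_ifs with h1 h2 h2
  · omega
  · subst h1; simp
  · rfl
  · rw [List.getElem?_append]
    split_ifs with h3
    · rfl
    · simp only [List.length_reverse] at h3 ⊢
      rw [List.getElem?_eq_none (by simp; omega), List.getElem?_eq_none (by simp; omega)]

theorem tapeOf_pop (l : List Bool) : update (tapeOf l) l.length none = tapeOf l.tail := by
  cases l with
  | nil => funext j; simp [update_apply, tapeOf, inputSym]
  | cons b l =>
    rw [← tapeOf_push, List.length_cons, update_idem, List.tail_cons]
    apply update_eq_self_iff.2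
    simp [tapeOf, inputSym]

/-- The transducer configuration of a flowchart configuration. -/
def OP.cfg (P : OP) (m : ℕ) (c : Option (Lbl P) × OS) : (P.tr m).Cfg :=
  ⟨(c.1, false), c.2.pos, fun i => tapeOf (c.2.stk i.val), fun i => (c.2.stk i.val).length,
    c.2.out⟩

theorem OP.step_cfg (P : OP) (m : ℕ) (x : List Bool)
    (hP : All (fun a => a.idx < m) (fun t => t.idx < m) P) (l : Lbl P) (s : OS)
    (hs : s.pos ≤ x.length + 1) :
    (((node P l).exec (osem x) s).2.pos ≤ x.length + 1) ∧
    ((P.tr m).step x (P.cfg m (some l, s)) = some (P.cfg m ((node P l).exec (osem x) s)) ∨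
      ∃ d, (P.tr m).step x (P.cfg m (some l, s)) = some d ∧
        (P.tr m).step x d = some (P.cfg m ((node P l).exec (osem x) s)) ∧
        d.head = (P.cfg m ((node P l).exec (osem x) s)).head) := by
  have h := hP.node l
  have hmin : min s.pos (x.length + 1) = s.pos := min_eq_left hs
  have hmin' : min (s.pos - 1) (x.length + 1) = s.pos - 1 := min_eq_left (by omega)
  simp only [Transducer.step, OP.tr, OP.cfg, Option.map_some, Option.some.injEq]
  revert h
  rcases hn : node P l with q | ⟨⟨k, b⟩ | k | _ | _ | b, q⟩ | ⟨⟨k, φ⟩ | φ, q, q'⟩ <;> intro h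
  · exact ⟨hs, .inl (by simp [nodeDelta, Node.exec, Move.apply, hmin])⟩
  · refine ⟨hs, .inr ⟨_, rfl, ?_, ?_⟩⟩
    · simp only [nodeDelta, Node.exec, Move.apply, hmin, osem, Option.map_some, hn, if_true,
        Bool.false_eq_true, if_false, update_eq_self, Option.toList_none, List.append_nil,
        Option.some.injEq]
      congr 1
      · funext i
        by_cases hi : i.val = k
        · subst hi; simp [tapeOf_push]
        · simp [hi]
      · funext i
        by_cases hi : i.val = k
        · subst hi; simp
        · simp [hi]
    · funext i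
      simp only [nodeDelta, Node.exec, Move.apply, osem, Bool.false_eq_true, if_false]
      by_cases hi : i.val = k
      · subst hi; simp
      · simp [hi]
  · refine ⟨hs, .inl ?_⟩
    simp only [nodeDelta, Node.exec, Move.apply, hmin, osem, Option.toList_none, List.append_nil]
    congr 1
    · funext i
      by_cases hi : i.val = k
      · subst hi; simp [tapeOf_pop]
      · simp [hi]
    · funext i
      by_cases hi : i.val = k
      · subst hi; simp
      · simp [hi]
  · exact ⟨by simp only [Node.exec, osem]; omega,
      .inl (by simp [nodeDelta, Node.exec, Move.apply, hmin', osem])⟩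
  · exact ⟨by simp only [Node.exec, osem]; omega,
      .inl (by simp [nodeDelta, Node.exec, Move.apply, osem])⟩
  · exact ⟨hs, .inl (by simp [nodeDelta, Node.exec, Move.apply, hmin, osem])⟩
  · have h' : k < m := h
    refine ⟨hs, .inl ?_⟩
    simp only [nodeDelta, Node.exec, Move.apply, hmin, osem, h', update_eq_self, dif_pos,
      Option.toList_none, List.append_nil]
    simp only [tapeOf_top]
    rfl
  · exact ⟨hs, .inl (by simp [nodeDelta, Node.exec, Move.apply, hmin, osem, rd, inputSym])⟩

theorem iterate_optBind_none {σ : Type} (f : σ → Option σ) (n : ℕ) :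
    (fun o : Option σ => o.bind f)^[n] none = none :=
  Function.iterate_fixed rfl n

theorem Steps.tr {P : OP} {m S : ℕ} {x : List Bool}
    (hP : All (fun a => a.idx < m) (fun t => t.idx < m) P)
    {c c' : Option (Lbl P) × OS} {n : ℕ} (h : Steps (osem x) (OInv S) (node P) c c' n)
    (hc : OInv S c.2) (hp : c.2.pos ≤ x.length + 1) (hc' : c'.1 = none) :
    (∃ t, (fun o => o.bind ((P.tr m).step x))^[t] (some (P.cfg m c)) = some (P.cfg m c')) ∧
      ∀ t d, (fun o => o.bind ((P.tr m).step x))^[t] (some (P.cfg m c)) = some d →
        ∀ i, d.head i ≤ S := by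
  induction h with
  | refl c =>
    refine ⟨⟨0, rfl⟩, fun t d hd => ?_⟩
    rcases t with _ | t
    · obtain rfl := Option.some.inj hd
      exact fun i => hc _
    · obtain ⟨o, s⟩ := c
      obtain rfl : o = none := hc'
      rw [Function.iterate_succ_apply] at hd
      change (fun o : Option (P.tr m).Cfg => o.bind ((P.tr m).step x))^[t] none = _ at hd
      rw [iterate_optBind_none] at hd; cases hd
  | step l s hI _ ih =>
    obtain ⟨h1, h2⟩ := P.step_cfg m x hP l s hp
    obtain ⟨⟨t0, a⟩, b⟩ := ih hI h1 hc'
    rcases h2 with e | ⟨d0, e1, e2, e3⟩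
    · refine ⟨⟨t0 + 1, by rw [Function.iterate_succ_apply, Option.bind_some, e, a]⟩,
        fun t d hd => ?_⟩
      rcases t with _ | t
      · obtain rfl := Option.some.inj hd
        exact fun i => hc _
      · rw [Function.iterate_succ_apply, Option.bind_some, e] at hd
        exact b t d hd
    · refine ⟨⟨t0 + 1 + 1, by
        rw [Function.iterate_succ_apply, Option.bind_some, e1, Function.iterate_succ_apply,
          Option.bind_some, e2, a]⟩, fun t d hd => ?_⟩
      rcases t with _ | _ | t
      · obtain rfl := Option.some.inj hd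
        exact fun i => hc _
      · rw [Function.iterate_succ_apply, Option.bind_some, e1] at hd
        obtain rfl := Option.some.inj hd
        rw [e3]
        exact fun i => hI _
      · rw [Function.iterate_succ_apply, Option.bind_some, e1, Function.iterate_succ_apply,
          Option.bind_some, e2] at hd
        exact b t d hd

theorem exists_log_bound (p : Polynomial ℕ) :
    ∃ C, ∀ n, Nat.log 2 (p.eval n) + 1 ≤ C * Nat.log 2 n + C := by
  have key : ∃ C, ∀ n, p.eval n < 2 ^ (C * Nat.log 2 n + C) := by
    induction p using Polynomial.induction_on' with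
    | add p q hp hq =>
      obtain ⟨a, ha⟩ := hp
      obtain ⟨b, hb⟩ := hq
      refine ⟨a + b + 1, fun n => ?_⟩
      have h1 : 2 ^ (a * Nat.log 2 n + a) ≤ 2 ^ ((a + b) * Nat.log 2 n + (a + b)) :=
        Nat.pow_le_pow_right (by norm_num) (by nlinarith)
      have h2 : 2 ^ (b * Nat.log 2 n + b) ≤ 2 ^ ((a + b) * Nat.log 2 n + (a + b)) :=
        Nat.pow_le_pow_right (by norm_num) (by nlinarith)
      have h3 : 2 ^ ((a + b) * Nat.log 2 n + (a + b) + 1) ≤
          2 ^ ((a + b + 1) * Nat.log 2 n + (a + b + 1)) :=
        Nat.pow_le_pow_right (by norm_num) (by nlinarith)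
      have := ha n; have := hb n
      rw [Polynomial.eval_add]
      rw [pow_succ] at h3
      omega
    | monomial k a =>
      refine ⟨k + a, fun n => ?_⟩
      rw [Polynomial.eval_monomial]
      have h1 : n < 2 ^ (Nat.log 2 n + 1) := Nat.lt_pow_succ_log_self (by norm_num) n
      have h2 : n ^ k ≤ (2 ^ (Nat.log 2 n + 1)) ^ k := Nat.pow_le_pow_left h1.le k
      have h3 : a < 2 ^ a := Nat.lt_two_pow_self
      calc a * n ^ k ≤ a * (2 ^ (Nat.log 2 n + 1)) ^ k := Nat.mul_le_mul_left _ h2
        _ < 2 ^ a * (2 ^ (Nat.log 2 n + 1)) ^ k := Nat.mul_lt_mul_of_pos_right h3 (by positivity)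
        _ = 2 ^ (a + (Nat.log 2 n + 1) * k) := by rw [← pow_mul, ← pow_add]
        _ ≤ _ := Nat.pow_le_pow_right (by norm_num) (by nlinarith)
  obtain ⟨C, hC⟩ := key
  refine ⟨C + 1, fun n => ?_⟩
  have : Nat.log 2 (p.eval n) ≤ C * Nat.log 2 n + C := by
    rcases Nat.eq_zero_or_pos (p.eval n) with h | h
    · simp [h]
    · exact (Nat.log_lt_of_lt_pow h.ne' (hC n)).le
  nlinarith

/-- `LS` functions on bit strings are computable in logarithmic space. -/
theorem LS.logspaceComputable {F : List Bool → List Bool} (hF : LS F) : LogspaceComputable F := by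
  have h1 : LS (fun s : Str => Str.mk (F s.val)) := by fun_prop
  obtain ⟨P, p, q, h⟩ := h1.exists_op Str.val (fun _ => rfl)
  obtain ⟨m, hm⟩ := exists_all_lt OA.idx OT.idx P
  obtain ⟨C, hC⟩ := exists_log_bound p
  refine ⟨P.tr m, C, fun x => ?_⟩
  obtain ⟨n, -, hn⟩ := h (Str.mk x)
  have hI : OInv (Nat.log 2 (p.eval x.length) + 1) ⟨fun _ => [], 0, []⟩ := fun _ => Nat.zero_le _
  obtain ⟨⟨t, a⟩, b⟩ := Steps.tr hm (hn.steps hI) hI (Nat.zero_le _) rfl
  have e : P.cfg m (Option.some (entry P), ⟨fun _ => [], 0, []⟩) =
      ⟨(P.tr m).start, 0, fun _ _ => (P.tr m).blank, fun _ => 0, []⟩ := by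
    simp only [OP.cfg, OP.tr]
    congr 1
    funext i j
    simp [tapeOf, inputSym]
  rw [e] at a b
  exact ⟨⟨t, _, a, rfl, rfl⟩, fun t c hc i => (b t c hc i).trans (hC _)⟩

theorem LS.logReducible {A B : N68a2faeb.DecisionProblem} {F : List Bool → List Bool} (hF : LS F)
    (h : ∀ x, A x = B (F x)) : LogReducible A B := ⟨F, hF.logspaceComputable, h⟩

end Pool.Agent.Lib.Cx
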