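import Mathlib.Tactic

/-!
Structured programs over an abstract store, their big-step semantics with step counts and
invariants, simulation, and translation to flowcharts.
-/

namespace Pool.Agent.Lib.Cx

/-- Structured programs with actions `A` and tests `T`. -/
inductive Prog (A T : Type) : Type
  | skip : Prog A T
  | act : A → Prog A T
  | seq : Prog A T → Prog A T → Prog A T
  | ite : T → Prog A T → Prog A T → Prog A T
  | loop : T → Prog A T → Prog A T

/-- An interpretation of actions and tests on a store. -/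
structure Sem (A T S : Type) where
  act : A → S → S
  test : T → S → Bool

namespace Prog

variable {A T S A' T' S' : Type}

/-- Big-step semantics: exact number of steps, and `I` holds after every action. -/
inductive Run (M : Sem A T S) (I : S → Prop) : Prog A T → S → S → ℕ → Prop
  | skip (s : S) : Run M I skip s s 1
  | act (a : A) (s : S) : I (M.act a s) → Run M I (act a) s (M.act a s) 1
  | seq {P Q : Prog A T} {s s' s'' : S} {n m : ℕ} :
      Run M I P s s' n → Run M I Q s' s'' m → Run M I (seq P Q) s s'' (n + m)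
  | iteT {t : T} {P Q : Prog A T} {s s' : S} {n : ℕ} :
      M.test t s = true → Run M I P s s' n → Run M I (ite t P Q) s s' (n + 1)
  | iteF {t : T} {P Q : Prog A T} {s s' : S} {n : ℕ} :
      M.test t s = false → Run M I Q s s' n → Run M I (ite t P Q) s s' (n + 1)
  | loopF {t : T} {P : Prog A T} {s : S} : M.test t s = false → Run M I (loop t P) s s 1
  | loopT {t : T} {P : Prog A T} {s s' s'' : S} {n m : ℕ} :
      M.test t s = true → Run M I P s s' n → Run M I (loop t P) s' s'' m →
        Run M I (loop t P) s s'' (n + m + 1)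

theorem Run.inv {M : Sem A T S} {I : S → Prop} {P : Prog A T} {s s' : S} {n : ℕ}
    (h : Run M I P s s' n) (hs : I s) : I s' := by
  induction h with
  | skip => exact hs
  | act _ _ h => exact h
  | seq _ _ ih1 ih2 => exact ih2 (ih1 hs)
  | iteT _ _ ih => exact ih hs
  | iteF _ _ ih => exact ih hs
  | loopF => exact hs
  | loopT _ _ _ ih1 ih2 => exact ih2 (ih1 hs)

theorem Run.imp {M : Sem A T S} {I I' : S → Prop} (hI : ∀ s, I s → I' s) {P : Prog A T} {s s' : S}
    {n : ℕ} (h : Run M I P s s' n) : Run M I' P s s' n := by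
  induction h with
  | skip => exact .skip _
  | act a s h => exact .act a s (hI _ h)
  | seq _ _ ih1 ih2 => exact .seq ih1 ih2
  | iteT h _ ih => exact .iteT h ih
  | iteF h _ ih => exact .iteF h ih
  | loopF h => exact .loopF h
  | loopT h _ _ ih1 ih2 => exact .loopT h ih1 ih2

/-- Termination within `n` steps. -/
def RunLe (M : Sem A T S) (I : S → Prop) (P : Prog A T) (s s' : S) (n : ℕ) : Prop :=
  ∃ m ≤ n, Run M I P s s' m

namespace RunLe

variable {M : Sem A T S} {I : S → Prop}

theorem mono {P : Prog A T} {s s' : S} {n n' : ℕ} (h : RunLe M I P s s' n) (hn : n ≤ n') :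
    RunLe M I P s s' n' :=
  let ⟨m, hm, h⟩ := h; ⟨m, hm.trans hn, h⟩

theorem imp {I' : S → Prop} (hI : ∀ s, I s → I' s) {P : Prog A T} {s s' : S} {n : ℕ}
    (h : RunLe M I P s s' n) : RunLe M I' P s s' n :=
  let ⟨m, hm, h⟩ := h; ⟨m, hm, h.imp hI⟩

theorem inv {P : Prog A T} {s s' : S} {n : ℕ} (h : RunLe M I P s s' n) (hs : I s) : I s' :=
  let ⟨_, _, h⟩ := h; h.inv hs

theorem cast {P : Prog A T} {s s' s'' : S} {n : ℕ} (h : RunLe M I P s s' n) (e : s' = s'') :
    RunLe M I P s s'' n := e ▸ h

theorem skip (s : S) : RunLe M I skip s s 1 := ⟨1, le_rfl, .skip s⟩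

theorem act (a : A) (s : S) {s' : S} (e : M.act a s = s') (h : I s') :
    RunLe M I (act a) s s' 1 := by
  subst e; exact ⟨1, le_rfl, .act a s h⟩

theorem seq {P Q : Prog A T} {s s' s'' : S} {n m : ℕ} (h1 : RunLe M I P s s' n)
    (h2 : RunLe M I Q s' s'' m) : RunLe M I (seq P Q) s s'' (n + m) :=
  let ⟨_, a, h1⟩ := h1; let ⟨_, b, h2⟩ := h2; ⟨_, Nat.add_le_add a b, .seq h1 h2⟩

theorem iteT {t : T} {P Q : Prog A T} {s s' : S} {n : ℕ} (h : M.test t s = true)
    (h1 : RunLe M I P s s' n) : RunLe M I (ite t P Q) s s' (n + 1) :=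
  let ⟨_, a, h1⟩ := h1; ⟨_, Nat.succ_le_succ a, .iteT h h1⟩

theorem iteF {t : T} {P Q : Prog A T} {s s' : S} {n : ℕ} (h : M.test t s = false)
    (h1 : RunLe M I Q s s' n) : RunLe M I (ite t P Q) s s' (n + 1) :=
  let ⟨_, a, h1⟩ := h1; ⟨_, Nat.succ_le_succ a, .iteF h h1⟩

theorem loopF {t : T} {P : Prog A T} {s : S} (h : M.test t s = false) :
    RunLe M I (loop t P) s s 1 := ⟨1, le_rfl, .loopF h⟩

theorem loopT {t : T} {P : Prog A T} {s s' s'' : S} {n m : ℕ} (h : M.test t s = true)
    (h1 : RunLe M I P s s' n) (h2 : RunLe M I (loop t P) s' s'' m) :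
    RunLe M I (loop t P) s s'' (n + m + 1) :=
  let ⟨_, a, h1⟩ := h1; let ⟨_, b, h2⟩ := h2
  ⟨_, Nat.succ_le_succ (Nat.add_le_add a b), .loopT h h1 h2⟩

/-- A loop whose states are given by an explicit sequence. -/
theorem loop_seq {t : T} {P : Prog A T} (f : ℕ → S) (k c : ℕ)
    (h1 : ∀ i < k, M.test t (f i) = true ∧ RunLe M I P (f i) (f (i + 1)) c)
    (h2 : M.test t (f k) = false) : RunLe M I (loop t P) (f 0) (f k) (k * (c + 1) + 1) := by
  induction k generalizing f with
  | zero => simpa using loopF h2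
  | succ k ih =>
    have := loopT (h1 0 (by omega)).1 (h1 0 (by omega)).2
      (ih (fun i => f (i + 1)) (fun i hi => h1 (i + 1) (by omega)) h2)
    exact this.mono (by ring_nf; omega)

end RunLe

/-- All actions and tests of the program satisfy the given predicates. -/
def All (pa : A → Prop) (pt : T → Prop) : Prog A T → Prop
  | skip => True
  | act a => pa a
  | seq P Q => All pa pt P ∧ All pa pt Q
  | ite t P Q => pt t ∧ All pa pt P ∧ All pa pt Q
  | loop t P => pt t ∧ All pa pt P

theorem All.mono {pa pa' : A → Prop} {pt pt' : T → Prop} (h1 : ∀ a, pa a → pa' a)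
    (h2 : ∀ t, pt t → pt' t) : ∀ {P : Prog A T}, All pa pt P → All pa' pt' P
  | skip, _ => trivial
  | act _, h => h1 _ h
  | seq _ _, h => ⟨h.1.mono h1 h2, h.2.mono h1 h2⟩
  | ite _ _ _, h => ⟨h2 _ h.1, h.2.1.mono h1 h2, h.2.2.mono h1 h2⟩
  | loop _ _, h => ⟨h2 _ h.1, h.2.mono h1 h2⟩

theorem all_true (P : Prog A T) : All (fun _ => True) (fun _ => True) P := by
  induction P <;> simp_all [All]

theorem exists_all_lt (f : A → ℕ) (g : T → ℕ) (P : Prog A T) :
    ∃ m, All (fun a => f a < m) (fun t => g t < m) P := by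
  have mono : ∀ {m m' : ℕ} (_ : m ≤ m') {P : Prog A T},
      All (fun a => f a < m) (fun t => g t < m) P → All (fun a => f a < m') (fun t => g t < m') P :=
    fun h _ h' => h'.mono (fun _ h'' => h''.trans_le h) (fun _ h'' => h''.trans_le h)
  induction P with
  | skip => exact ⟨0, trivial⟩
  | act a => exact ⟨f a + 1, Nat.lt_succ_self _⟩
  | seq P Q ih1 ih2 =>
    obtain ⟨a, h1⟩ := ih1; obtain ⟨b, h2⟩ := ih2
    exact ⟨a + b, mono (by omega) h1, mono (by omega) h2⟩
  | ite t P Q ih1 ih2 =>
    obtain ⟨a, h1⟩ := ih1; obtain ⟨b, h2⟩ := ih2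
    exact ⟨a + b + g t + 1, by dsimp only; omega, mono (by omega) h1, mono (by omega) h2⟩
  | loop t P ih1 =>
    obtain ⟨a, h1⟩ := ih1
    exact ⟨a + g t + 1, by dsimp only; omega, mono (by omega) h1⟩

/-- Replace actions by programs and tests by tests. -/
def bind (f : A → Prog A' T') (g : T → T') : Prog A T → Prog A' T'
  | skip => skip
  | act a => f a
  | seq P Q => seq (bind f g P) (bind f g Q)
  | ite t P Q => ite (g t) (bind f g P) (bind f g Q)
  | loop t P => loop (g t) (bind f g P)

theorem Run.bind {M : Sem A T S} {M' : Sem A' T' S'} {I : S → Prop} {I' : S' → Prop}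
    {f : A → Prog A' T'} {g : T → T'} {pa : A → Prop} {pt : T → Prop} (R : S → S' → Prop)
    {c : ℕ} (hc : 1 ≤ c)
    (hact : ∀ a, pa a → ∀ s s', R s s' → I s → I (M.act a s) →
      ∃ u', RunLe M' I' (f a) s' u' c ∧ R (M.act a s) u')
    (htest : ∀ t, pt t → ∀ s s', R s s' → M'.test (g t) s' = M.test t s)
    {P : Prog A T} {s u : S} {n : ℕ} (h : Run M I P s u n) (hP : All pa pt P) (hs : I s)
    {s' : S'} (hR : R s s') : ∃ u', RunLe M' I' (P.bind f g) s' u' (c * n) ∧ R u u' := by
  induction h generalizing s' with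
  | skip s => exact ⟨s', (RunLe.skip _).mono (by omega), hR⟩
  | act a s h => simpa [Prog.bind] using hact a hP s s' hR hs h
  | seq h1 _ ih1 ih2 =>
    obtain ⟨u1, a1, b1⟩ := ih1 hP.1 hs hR
    obtain ⟨u2, a2, b2⟩ := ih2 hP.2 (h1.inv hs) b1
    exact ⟨u2, (a1.seq a2).mono (by ring_nf; omega), b2⟩
  | iteT ht _ ih =>
    obtain ⟨u1, a1, b1⟩ := ih hP.2.1 hs hR
    exact ⟨u1, (a1.iteT ((htest _ hP.1 _ _ hR).trans ht)).mono (by ring_nf; omega), b1⟩
  | iteF ht _ ih =>
    obtain ⟨u1, a1, b1⟩ := ih hP.2.2 hs hR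
    exact ⟨u1, (a1.iteF ((htest _ hP.1 _ _ hR).trans ht)).mono (by ring_nf; omega), b1⟩
  | loopF ht =>
    exact ⟨s', (RunLe.loopF ((htest _ hP.1 _ _ hR).trans ht)).mono (by omega), hR⟩
  | loopT ht h1 _ ih1 ih2 =>
    obtain ⟨u1, a1, b1⟩ := ih1 hP.2 hs hR
    obtain ⟨u2, a2, b2⟩ := ih2 hP (h1.inv hs) b1
    exact ⟨u2, (RunLe.loopT ((htest _ hP.1 _ _ hR).trans ht) a1 a2).mono (by ring_nf; omega), b2⟩

theorem RunLe.bind {M : Sem A T S} {M' : Sem A' T' S'} {I : S → Prop} {I' : S' → Prop}
    {f : A → Prog A' T'} {g : T → T'} {pa : A → Prop} {pt : T → Prop} (R : S → S' → Prop)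
    {c : ℕ} (hc : 1 ≤ c)
    (hact : ∀ a, pa a → ∀ s s', R s s' → I s → I (M.act a s) →
      ∃ u', RunLe M' I' (f a) s' u' c ∧ R (M.act a s) u')
    (htest : ∀ t, pt t → ∀ s s', R s s' → M'.test (g t) s' = M.test t s)
    {P : Prog A T} {s u : S} {n : ℕ} (h : RunLe M I P s u n) (hP : All pa pt P) (hs : I s)
    {s' : S'} (hR : R s s') : ∃ u', RunLe M' I' (P.bind f g) s' u' (c * n) ∧ R u u' := by
  obtain ⟨m, hm, h⟩ := h
  obtain ⟨u', a, b⟩ := h.bind R hc hact htest hP hs hR
  exact ⟨u', a.mono (Nat.mul_le_mul_left _ hm), b⟩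

end Prog

/-- Flowchart nodes. -/
inductive Node (A T Q : Type) : Type
  | nop : Q → Node A T Q
  | act : A → Q → Node A T Q
  | test : T → Q → Q → Node A T Q

namespace Node

variable {A T S Q Q' : Type}

/-- Rename the successors. -/
def map (f : Q → Q') : Node A T Q → Node A T Q'
  | nop q => nop (f q)
  | act a q => act a (f q)
  | test t q q' => test t (f q) (f q')

/-- Execute a node. -/
def exec (M : Sem A T S) : Node A T Q → S → Q × S
  | nop q, s => (q, s)
  | act a q, s => (q, M.act a s)
  | test t q q', s => (if M.test t s then q else q', s)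

theorem map_map {Q'' : Type} (f : Q → Q') (g : Q' → Q'') (x : Node A T Q) :
    (x.map f).map g = x.map (g ∘ f) := by cases x <;> rfl

/-- The action or test of the node satisfies the given predicates. -/
def All (pa : A → Prop) (pt : T → Prop) : Node A T Q → Prop
  | nop _ => True
  | act a _ => pa a
  | test t _ _ => pt t

theorem all_map {pa : A → Prop} {pt : T → Prop} (f : Q → Q') (x : Node A T Q) :
    All pa pt (x.map f) ↔ All pa pt x := by cases x <;> rfl

end Node

/-- Runs of a flowchart: exactly `n` steps, with `I` after each step. -/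
inductive Steps {A T S L : Type} (M : Sem A T S) (I : S → Prop) (nd : L → Node A T (Option L)) :
    Option L × S → Option L × S → ℕ → Prop
  | refl (c : Option L × S) : Steps M I nd c c 0
  | step (l : L) (s : S) {c : Option L × S} {n : ℕ} : I ((nd l).exec M s).2 →
      Steps M I nd ((nd l).exec M s) c n → Steps M I nd (some l, s) c (n + 1)

theorem Steps.trans {A T S L : Type} {M : Sem A T S} {I : S → Prop}
    {nd : L → Node A T (Option L)} {c c' c'' : Option L × S} {n m : ℕ}
    (h1 : Steps M I nd c c' n) (h2 : Steps M I nd c' c'' m) : Steps M I nd c c'' (n + m) := by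
  induction h1 with
  | refl => simpa using h2
  | step l s hI _ ih => rw [Nat.add_right_comm]; exact .step l s hI (ih h2)

namespace Prog

variable {A T S : Type}

/-- Program points. -/
def Lbl : Prog A T → Type
  | skip => Unit
  | act _ => Unit
  | seq P Q => Lbl P ⊕ Lbl Q
  | ite _ P Q => Option (Lbl P ⊕ Lbl Q)
  | loop _ P => Option (Lbl P)

instance finiteLbl : ∀ P : Prog A T, Finite (Lbl P)
  | skip => inferInstanceAs (Finite Unit)
  | act _ => inferInstanceAs (Finite Unit)
  | seq P Q => haveI := finiteLbl P; haveI := finiteLbl Q; inferInstanceAs (Finite (Lbl P ⊕ Lbl Q))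
  | ite _ P Q => haveI := finiteLbl P; haveI := finiteLbl Q
      inferInstanceAs (Finite (Option (Lbl P ⊕ Lbl Q)))
  | loop _ P => haveI := finiteLbl P; inferInstanceAs (Finite (Option (Lbl P)))

/-- The entry point. -/
def entry : (P : Prog A T) → Lbl P
  | skip => ()
  | act _ => ()
  | seq P _ => Sum.inl (entry P)
  | ite _ _ _ => none
  | loop _ _ => none

/-- The flowchart of a program. -/
def node : (P : Prog A T) → Lbl P → Node A T (Option (Lbl P))
  | skip, _ => .nop none
  | act a, _ => .act a none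
  | seq P Q, Sum.inl l => (node P l).map fun o => some (o.elim (Sum.inr (entry Q)) Sum.inl)
  | seq _ Q, Sum.inr l => (node Q l).map (Option.map Sum.inr)
  | ite t P Q, none => .test t (some (some (Sum.inl (entry P)))) (some (some (Sum.inr (entry Q))))
  | ite _ P _, some (Sum.inl l) => (node P l).map (Option.map fun x => some (Sum.inl x))
  | ite _ _ Q, some (Sum.inr l) => (node Q l).map (Option.map fun x => some (Sum.inr x))
  | loop t P, none => .test t (some (some (entry P))) none
  | loop _ P, some l => (node P l).map some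

theorem All.node {pa : A → Prop} {pt : T → Prop} :
    ∀ {P : Prog A T}, All pa pt P → ∀ l, Node.All pa pt (node P l)
  | skip, _, _ => trivial
  | act _, h, _ => h
  | seq _ _, h, Sum.inl l => (Node.all_map _ _).2 (h.1.node l)
  | seq _ _, h, Sum.inr l => (Node.all_map _ _).2 (h.2.node l)
  | ite _ _ _, h, none => h.1
  | ite _ _ _, h, some (Sum.inl l) => (Node.all_map _ _).2 (h.2.1.node l)
  | ite _ _ _, h, some (Sum.inr l) => (Node.all_map _ _).2 (h.2.2.node l)
  | loop _ _, h, none => h.1
  | loop _ _, h, some l => (Node.all_map _ _).2 (h.2.node l)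

theorem Run.steps_aux {M : Sem A T S} {I : S → Prop} {P : Prog A T} {s s' : S} {n : ℕ}
    (h : Run M I P s s' n) (hs : I s) {L : Type} (nd : L → Node A T (Option L)) (ι : Lbl P → L)
    (ex : Option L) (hn : ∀ l, nd (ι l) = (node P l).map fun o => o.elim ex (fun x => some (ι x))) :
    Steps M I nd (some (ι (entry P)), s) (ex, s') n := by
  induction h generalizing ex with
  | skip s =>
    refine .step _ _ ?_ ?_ <;> rw [hn]
    · exact hs
    · exact .refl _
  | act a s h =>
    refine .step _ _ ?_ ?_ <;> rw [hn]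
    · exact h
    · exact .refl _
  | @seq P Q _ _ _ _ _ h1 _ ih1 ih2 =>
    refine (ih1 hs (fun l => ι (Sum.inl l)) (some (ι (Sum.inr (entry Q)))) fun l => ?_).trans
      (ih2 (h1.inv hs) (fun l => ι (Sum.inr l)) ex fun l => ?_)
    · rw [hn, node, Node.map_map]; congr 1; funext o; cases o <;> rfl
    · rw [hn, node, Node.map_map]; congr 1; funext o; cases o <;> rfl
  | iteT ht _ ih =>
    refine .step _ _ ?_ ?_ <;> rw [hn]
    · exact hs
    · simp only [entry, node, Node.map, Node.exec, ht, if_true, Option.elim]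
      refine ih hs (fun l => ι (some (Sum.inl l))) ex fun l => ?_
      rw [hn, node, Node.map_map]; congr 1; funext o; cases o <;> rfl
  | iteF ht _ ih =>
    refine .step _ _ ?_ ?_ <;> rw [hn]
    · exact hs
    · simp only [entry, node, Node.map, Node.exec, ht, Option.elim]
      refine ih hs (fun l => ι (some (Sum.inr l))) ex fun l => ?_
      rw [hn, node, Node.map_map]; congr 1; funext o; cases o <;> rfl
  | loopF ht =>
    refine .step _ _ ?_ ?_ <;> rw [hn]
    · exact hs
    · simp only [entry, node, Node.map, Node.exec, ht, Option.elim]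
      exact .refl _
  | loopT ht h1 _ ih1 ih2 =>
    refine .step _ _ ?_ ?_ <;> rw [hn]
    · exact hs
    · simp only [entry, node, Node.map, Node.exec, ht, if_true, Option.elim]
      refine (ih1 hs (fun l => ι (some l)) (some (ι none)) fun l => ?_).trans
        (ih2 (h1.inv hs) ι ex hn)
      rw [hn, node, Node.map_map]; congr 1; funext o; cases o <;> rfl

theorem Run.steps {M : Sem A T S} {I : S → Prop} {P : Prog A T} {s s' : S} {n : ℕ}
    (h : Run M I P s s' n) (hs : I s) : Steps M I (node P) (some (entry P), s) (none, s') n :=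
  h.steps_aux hs (node P) id none fun l => by
    have : (fun o : Option (Lbl P) => o.elim none (fun x => some (id x))) = id := by
      funext o; cases o <;> rfl
    rw [this]; simp only [id]; cases node P l <;> rfl

end Prog

end Pool.Agent.Lib.Cx
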