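import Pool.Agent.Lib.Cx.Prog
import Pool.Agent.Lib.Cx.Expr

/-!
Register programs with a two-way input head and an output tape, and the compilation of
expressions to register programs.
-/

namespace Pool.Agent.Lib.Cx

open Function Prog

/-- The input symbol at head position `h` (positions `0` and `length + 1` are blank). -/
def rd (x : List Bool) (h : ℕ) : Option Bool := if h = 0 then none else x[h - 1]?

/-- Register actions. -/
inductive RA : Type
  | inc : ℕ → RA
  | dec : ℕ → RA
  | mvL : RA
  | mvR : RA
  | out : Bool → RA

/-- Register tests. -/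
inductive RT : Type
  | nz : ℕ → RT
  | sym : (Option Bool → Bool) → RT

/-- Register states. -/
@[ext] structure RS where
  regs : ℕ → ℕ
  pos : ℕ
  out : List Bool

/-- Semantics of register programs on input `x`. -/
def rsem (x : List Bool) : Sem RA RT RS where
  act
    | .inc r, s => ⟨update s.regs r (s.regs r + 1), s.pos, s.out⟩
    | .dec r, s => ⟨update s.regs r (s.regs r - 1), s.pos, s.out⟩
    | .mvL, s => ⟨s.regs, s.pos - 1, s.out⟩
    | .mvR, s => ⟨s.regs, min (s.pos + 1) (x.length + 1), s.out⟩
    | .out b, s => ⟨s.regs, s.pos, s.out ++ [b]⟩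
  test
    | .nz r, s => decide (s.regs r ≠ 0)
    | .sym φ, s => φ (rd x s.pos)

/-- All registers are at most `B`. -/
def RInv (B : ℕ) (s : RS) : Prop := ∀ r, s.regs r ≤ B

/-- Register programs. -/
abbrev RP := Prog RA RT

namespace RP

/-- Set a register to zero. -/
def clear (r : ℕ) : RP := .loop (.nz r) (.act (.dec r))
/-- Add register `a` to register `b` and set `a` to zero. -/
def move (a b : ℕ) : RP := .loop (.nz a) (.seq (.act (.dec a)) (.act (.inc b)))
/-- Copy register `a` to the empty register `b` using the empty register `t`. -/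
def copy (a b t : ℕ) : RP :=
  .seq (.loop (.nz a) (.seq (.act (.dec a)) (.seq (.act (.inc b)) (.act (.inc t))))) (move t a)
/-- Move the input head back to position zero. -/
def rewind : RP := .seq (.act .mvL) (.loop (.sym Option.isSome) (.act .mvL))

variable {x : List Bool} {B : ℕ}

theorem rinv_update {g : ℕ → ℕ} {p : ℕ} {o : List Bool} (h : ∀ r, g r ≤ B) (r : ℕ) {v : ℕ}
    (hv : v ≤ B) : RInv B ⟨update g r v, p, o⟩ := fun r' => by
  simp only [update_apply]; split_ifs
  · exact hv
  · exact h r'

theorem run_inc {g : ℕ → ℕ} {p : ℕ} {o : List Bool} (h : ∀ r, g r ≤ B) (r : ℕ) (hv : g r + 1 ≤ B) :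
    RunLe (rsem x) (RInv B) (.act (.inc r)) ⟨g, p, o⟩ ⟨update g r (g r + 1), p, o⟩ 1 :=
  .act _ _ rfl (rinv_update h r hv)

theorem run_dec {g : ℕ → ℕ} {p : ℕ} {o : List Bool} (h : ∀ r, g r ≤ B) (r : ℕ) :
    RunLe (rsem x) (RInv B) (.act (.dec r)) ⟨g, p, o⟩ ⟨update g r (g r - 1), p, o⟩ 1 :=
  .act _ _ rfl (rinv_update h r ((Nat.sub_le _ _).trans (h r)))

theorem run_clear {g : ℕ → ℕ} {p : ℕ} {o : List Bool} (h : ∀ r, g r ≤ B) (r : ℕ) :
    RunLe (rsem x) (RInv B) (clear r) ⟨g, p, o⟩ ⟨update g r 0, p, o⟩ (2 * B + 1) := by
  have := RunLe.loop_seq (M := rsem x) (I := RInv B) (t := .nz r) (P := .act (.dec r))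
    (fun i => ⟨update g r (g r - i), p, o⟩) (g r) 1 (fun i hi => ⟨by simp [rsem]; omega, by
      refine (run_dec (rinv_update (p := p) (o := o) h r ((Nat.sub_le _ _).trans (h r))) r).cast ?_
      simp [Nat.sub_sub]⟩) (by simp [rsem])
  simp only [Nat.sub_zero, update_eq_self, Nat.sub_self] at this
  exact this.mono (by have := h r; omega)

theorem run_move {g : ℕ → ℕ} {p : ℕ} {o : List Bool} (h : ∀ r, g r ≤ B) {a b : ℕ} (hab : a ≠ b)
    (hv : g b + g a ≤ B) :
    RunLe (rsem x) (RInv B) (move a b) ⟨g, p, o⟩ ⟨update (update g a 0) b (g b + g a), p, o⟩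
      (3 * B + 1) := by
  have := RunLe.loop_seq (M := rsem x) (I := RInv B) (t := .nz a)
    (P := .seq (.act (.dec a)) (.act (.inc b)))
    (fun i => ⟨update (update g a (g a - i)) b (g b + i), p, o⟩) (g a) 2
    (fun i hi => ⟨by simp [rsem, update_of_ne hab]; omega, by
      have h1 : ∀ r, update (update g a (g a - i)) b (g b + i) r ≤ B :=
        rinv_update (p := p) (o := o)
          (rinv_update (p := p) (o := o) h a ((Nat.sub_le _ _).trans (h a))) b (by omega)
      have h2 := run_dec (x := x) (p := p) (o := o) h1 a
      refine (h2.seq (run_inc (h2.inv h1) b ?_)).cast ?_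
      · simp [update_of_ne hab.symm]; omega
      · ext r <;> simp only [update_apply]; split_ifs <;> simp_all <;> omega⟩)
    (by simp [rsem, update_of_ne hab])
  simp only [Nat.sub_zero, update_eq_self, Nat.sub_self, Nat.add_zero] at this
  exact this.mono (by have := h a; omega)

theorem run_copy {g : ℕ → ℕ} {p : ℕ} {o : List Bool} (h : ∀ r, g r ≤ B) {a b t : ℕ} (hab : a ≠ b)
    (hat : a ≠ t) (hbt : b ≠ t) (hb : g b = 0) (ht : g t = 0) :
    RunLe (rsem x) (RInv B) (copy a b t) ⟨g, p, o⟩ ⟨update g b (g a), p, o⟩ (7 * B + 2) := by
  have ha := h a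
  have h0 : ∀ i ≤ g a, ∀ r, update (update (update g a (g a - i)) b i) t i r ≤ B := fun i hi r => by
    have := h r
    simp only [update_apply]; split_ifs <;> omega
  have := RunLe.loop_seq (M := rsem x) (I := RInv B) (t := .nz a)
    (P := .seq (.act (.dec a)) (.seq (.act (.inc b)) (.act (.inc t))))
    (fun i => ⟨update (update (update g a (g a - i)) b i) t i, p, o⟩) (g a) 3
    (fun i hi => ⟨by simp [rsem, update_of_ne hab, update_of_ne hat]; omega, by
      have h1 := h0 i hi.le
      have h2 := run_dec (x := x) (p := p) (o := o) h1 a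
      have h3 := run_inc (x := x) (p := p) (o := o) (h2.inv h1) b
        (by simp [update_of_ne hab.symm, update_of_ne hbt]; omega)
      refine (h2.seq (h3.seq (run_inc (h3.inv (h2.inv h1)) t ?_))).cast ?_
      · simp [update_of_ne hat.symm, update_of_ne hbt.symm]; omega
      · ext r <;> simp only [update_apply]; split_ifs <;> simp_all <;> omega⟩)
    (by simp [rsem, update_of_ne hab, update_of_ne hat])
  have e : update (update (update g a (g a - 0)) b 0) t 0 = g := by
    funext r; simp only [update_apply]; split_ifs <;> simp_all
  simp only [e] at this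
  have h4 := run_move (x := x) (p := p) (o := o) (h0 (g a) le_rfl) hat.symm
    (by simp [update_of_ne hab, update_of_ne hat]; omega)
  refine ((this.seq h4).mono (by omega)).cast ?_
  ext r <;> simp only [update_apply]; split_ifs <;> simp_all

theorem run_rewind {g : ℕ → ℕ} {p : ℕ} {o : List Bool} (h : ∀ r, g r ≤ B) (hp : p ≤ x.length + 1) :
    RunLe (rsem x) (RInv B) rewind ⟨g, p, o⟩ ⟨g, 0, o⟩ (2 * p + 2) := by
  have := RunLe.loop_seq (M := rsem x) (I := RInv B) (t := .sym Option.isSome) (P := .act .mvL)
    (fun i => ⟨g, p - 1 - i, o⟩) (p - 1) 1 (fun i hi => ⟨by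
      have : p - 1 - i - 1 < x.length := by omega
      simp only [rsem, rd]
      rw [if_neg (by omega), List.getElem?_eq_getElem this]; rfl,
      .act _ _ rfl h⟩) (by simp [rsem, rd])
  simp only [Nat.sub_zero, Nat.sub_self] at this
  exact ((RunLe.act (M := rsem x) .mvL ⟨g, p, o⟩ rfl h).seq this).mono (by omega)

end RP

/-- Where a string of the environment lives. -/
inductive Loc : Type
  | reg : ℕ → Loc
  | inp : Loc
  | emp : Loc

/-- Extend a location map. -/
def Loc.cons (l : Loc) (ρ : ℕ → Loc) : ℕ → Loc
  | 0 => l
  | j + 1 => ρ j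

/-- The string stored at a location. -/
def Loc.val (x : List Bool) (g : ℕ → ℕ) : Loc → List Bool
  | .reg r => un (g r)
  | .inp => x
  | .emp => []

/-- The location uses only registers below `d`. -/
def Loc.Lt (d : ℕ) : Loc → Prop
  | .reg r => r < d
  | _ => True

namespace E

open RP

/-- Compilation: the value is put in register `d`, registers above `d` are scratch. -/
def compile : E → (ℕ → Loc) → ℕ → RP
  | zero, _, _ => .skip
  | succ e, ρ, d => .seq (compile e ρ d) (.act (.inc d))
  | pred e, ρ, d => .seq (compile e ρ d) (.act (.dec d))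
  | len j, ρ, d => match ρ j with
      | .reg r => copy r d (d + 1)
      | .inp => .seq (.act .mvR)
          (.seq (.loop (.sym Option.isSome) (.seq (.act (.inc d)) (.act .mvR))) rewind)
      | .emp => .skip
  | bit j e, ρ, d => match ρ j with
      | .inp => .seq (compile e ρ d) (.seq (.act .mvR)
          (.seq (.loop (.nz d) (.seq (.act (.dec d)) (.act .mvR)))
            (.seq (.ite (.sym fun o => o.getD false) (.act (.inc d)) .skip) rewind)))
      | _ => .skip
  | ifz c a b, ρ, d => .seq (compile c ρ d)
      (.ite (.nz d) (.seq (clear d) (compile b ρ d)) (compile a ρ d))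
  | lett e f, ρ, d => .seq (compile e ρ d) (.seq (compile f (Loc.cons (.reg d) ρ) (d + 1))
      (.seq (clear d) (move (d + 1) d)))
  | ren r e, ρ, d => compile e (fun j => ρ (r j)) d
  | iter n s t, ρ, d => .seq (compile s ρ d) (.seq (compile n ρ (d + 2))
      (.seq (.loop (.nz (d + 2)) (.seq (.act (.dec (d + 2)))
        (.seq (compile t (Loc.cons (.reg d) (Loc.cons (.reg (d + 1)) ρ)) (d + 3))
          (.seq (clear d) (.seq (move (d + 3) d) (.act (.inc (d + 1))))))))
        (clear (d + 1))))

/-- A bound on the running time of the compiled program. -/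
noncomputable def cost : E → Polynomial ℕ
  | zero => 1
  | succ e => cost e + 1
  | pred e => cost e + 1
  | len _ => 7 * Polynomial.X + 10
  | bit _ e => cost e + (7 * Polynomial.X + 10)
  | ifz c a b => cost c + cost a + cost b + (2 * Polynomial.X + 2)
  | lett e f => cost e + cost f + (5 * Polynomial.X + 2)
  | ren _ e => cost e
  | iter n s t => cost n + cost s + Polynomial.X * (cost t + (5 * Polynomial.X + 5)) +
      (2 * Polynomial.X + 2)

theorem loc_val_update {x : List Bool} {g : ℕ → ℕ} {d : ℕ} {l : Loc} (h : l.Lt d) {r : ℕ}
    (hr : d ≤ r) (v : ℕ) : l.val x (update g r v) = l.val x g := by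
  cases l with
  | reg r' => simp only [Loc.val]; rw [update_of_ne]; simp only [Loc.Lt] at h; omega
  | inp => rfl
  | emp => rfl

theorem loc_lt_mono {d d' : ℕ} {l : Loc} (h : l.Lt d) (hd : d ≤ d') : l.Lt d' := by
  cases l with
  | reg r' => exact lt_of_lt_of_le h hd
  | inp => trivial
  | emp => trivial

theorem compile_spec {x : List Bool} {B : ℕ} : ∀ (e : E) (ρ : ℕ → Loc) (d : ℕ) (g : ℕ → ℕ)
    (o : List Bool) (env : Env), (∀ j, (ρ j).Lt d) → (∀ j, env j = (ρ j).val x g) →
    (∀ r, d ≤ r → g r = 0) → (∀ r, g r ≤ B) → Bdd B e env →
    RunLe (rsem x) (RInv B) (compile e ρ d) ⟨g, 0, o⟩ ⟨update g d (eval e env), 0, o⟩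
      ((cost e).eval B)
  | zero, ρ, d, g, o, env, _, _, hz, _, _ => by
      refine ((RunLe.skip _).mono (by simp [cost])).cast ?_
      simp [eval, ← hz d le_rfl]
  | succ e, ρ, d, g, o, env, h1, h2, hz, hB, hb => by
      have a := compile_spec e ρ d g o env h1 h2 hz hB hb.1
      refine ((a.seq (run_inc (a.inv hB) d (by simpa using hb.2))).mono (by simp [cost])).cast ?_
      simp [eval]
  | pred e, ρ, d, g, o, env, h1, h2, hz, hB, hb => by
      have a := compile_spec e ρ d g o env h1 h2 hz hB hb
      refine ((a.seq (run_dec (a.inv hB) d)).mono (by simp [cost])).cast ?_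
      simp [eval]
  | len j, ρ, d, g, o, env, h1, h2, hz, hB, hb => by
      have h1j := h1 j
      have h2j := h2 j
      simp only [compile, eval, Bdd] at hb ⊢
      rcases hρ : ρ j with r | _ | _ <;> rw [hρ] at h1j h2j <;> simp only [Loc.val, Loc.Lt] at h1j h2j
      · refine ((run_copy hB (by omega) (by omega) (by omega) (hz d le_rfl)
          (hz _ (by omega))).mono (by simp [cost])).cast ?_
        simp [h2j]
      · rw [h2j] at hb ⊢
        have l1 := RunLe.loop_seq (M := rsem x) (I := RInv B) (t := .sym Option.isSome)
          (P := .seq (.act (.inc d)) (.act .mvR))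
          (fun i => ⟨update g d i, i + 1, o⟩) x.length 2 (fun i hi => ⟨by
            simp [rsem, rd, hi], by
            have a := run_inc (x := x) (p := i + 1) (o := o)
              (rinv_update (p := 0) (o := o) hB d (v := i) (by omega)) d (by simp; omega)
            refine a.seq (.act _ _ ?_ (rinv_update hB d (by omega)))
            simp [rsem]; omega⟩) (by simp [rsem, rd])
        have e0 : update g d 0 = g := by rw [← hz d le_rfl]; exact update_eq_self _ _
        simp only [e0] at l1
        have l2 := run_rewind (x := x) (o := o) (p := x.length + 1)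
          (rinv_update (p := 0) (o := o) hB d hb) le_rfl
        refine ((RunLe.act (M := rsem x) .mvR ⟨g, 0, o⟩ (by simp [rsem]) hB).seq
          (l1.seq l2)).mono ?_
        simp [cost]; omega
      · refine ((RunLe.skip _).mono (by simp [cost])).cast ?_
        simp [h2j, ← hz d le_rfl]
  | bit j e, ρ, d, g, o, env, h1, h2, hz, hB, hb => by
      have h2j := h2 j
      have a := compile_spec e ρ d g o env h1 h2 hz hB hb.1
      have hv := hb.1.eval_le
      have e0 : update g d 0 = g := by rw [← hz d le_rfl]; exact update_eq_self _ _
      simp only [compile, eval]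
      rcases hρ : ρ j with r | _ | _ <;> rw [hρ] at h2j <;> simp only [Loc.val] at h2j
      · refine ((RunLe.skip _).mono (by simp [cost]; omega)).cast ?_
        simp [h2j, e0]
      · set v := eval e env
        have l1 := RunLe.loop_seq (M := rsem x) (I := RInv B) (t := .nz d)
          (P := .seq (.act (.dec d)) (.act .mvR))
          (fun i => ⟨update g d (v - i), min (i + 1) (x.length + 1), o⟩) v 2 (fun i hi => ⟨by
            simp [rsem]; omega, by
            have a := run_dec (x := x) (p := min (i + 1) (x.length + 1)) (o := o)
              (rinv_update (p := 0) (o := o) hB d (v := v - i) (by omega)) d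
            refine a.seq (.act _ _ ?_ (rinv_update hB d (by omega)))
            simp [rsem, Nat.sub_sub]; omega⟩) (by simp [rsem])
        simp only [Nat.sub_self, e0, Nat.sub_zero] at l1
        have l2 : RunLe (rsem x) (RInv B) (.ite (.sym fun o => o.getD false) (.act (.inc d)) .skip)
            ⟨g, min (v + 1) (x.length + 1), o⟩
            ⟨update g d (bitv x v), min (v + 1) (x.length + 1), o⟩ 2 := by
          have ht : (rsem x).test (.sym fun o => o.getD false) ⟨g, min (v + 1) (x.length + 1), o⟩
              = x.getD v false := by
            simp only [rsem, rd, List.getD_eq_getElem?_getD]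
            rw [if_neg (by omega)]
            rcases le_or_gt x.length v with h | h
            · rw [List.getElem?_eq_none (by omega), List.getElem?_eq_none h]
            · congr 2; omega
          cases hx : x.getD v false
          · refine (RunLe.iteF (ht.trans hx) (RunLe.skip _)).cast ?_
            simp only [bitv, hx, Bool.toNat_false, e0]
          · refine (RunLe.iteT (ht.trans hx) (run_inc hB d ?_)).cast ?_
            · rw [hz d le_rfl]; exact hb.2
            · simp only [bitv, hx, Bool.toNat_true, hz d le_rfl]
        have l3 := run_rewind (x := x) (o := o) (p := min (v + 1) (x.length + 1))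
          (l2.inv hB) (min_le_right _ _)
        rw [h2j]
        refine (a.seq ((RunLe.act (M := rsem x) .mvR ⟨update g d v, 0, o⟩
          (s' := ⟨update g d v, min (0 + 1) (x.length + 1), o⟩) rfl (a.inv hB)).seq
          (l1.seq (l2.seq l3)))).mono ?_
        simp [cost]; omega
      · refine ((RunLe.skip _).mono (by simp [cost]; omega)).cast ?_
        simp [h2j, e0]
  | ifz c a b, ρ, d, g, o, env, h1, h2, hz, hB, hb => by
      have l1 := compile_spec c ρ d g o env h1 h2 hz hB hb.1
      have e0 : update g d 0 = g := by rw [← hz d le_rfl]; exact update_eq_self _ _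
      simp only [compile, eval]
      by_cases hc : eval c env = 0
      · rw [hc, e0] at l1
        have l2 := compile_spec a ρ d g o env h1 h2 hz hB (hb.2.1 hc)
        rw [if_pos hc]
        refine (l1.seq (l2.iteF (by simp [rsem, hz d le_rfl]))).mono ?_
        simp [cost]; omega
      · have l2 := run_clear (x := x) (p := 0) (o := o) (l1.inv hB) d
        simp only [update_idem, e0] at l2
        have l3 := compile_spec b ρ d g o env h1 h2 hz hB (hb.2.2 hc)
        rw [if_neg hc]
        refine (l1.seq ((l2.seq l3).iteT (by simp [rsem, hc]))).mono ?_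
        simp [cost]; omega
  | lett e f, ρ, d, g, o, env, h1, h2, hz, hB, hb => by
      have l1 := compile_spec e ρ d g o env h1 h2 hz hB hb.1
      have l2 := compile_spec (x := x) f (Loc.cons (.reg d) ρ) (d + 1) (update g d (eval e env)) o
        (Env.cons (un (eval e env)) env)
        (fun j => by
          rcases j with _ | j
          · exact Nat.lt_succ_self d
          · exact loc_lt_mono (h1 j) (Nat.le_succ d))
        (fun j => by
          rcases j with _ | j
          · simp [Loc.cons, Loc.val]
          · simp only [Loc.cons, Env.cons_succ, loc_val_update (h1 j) le_rfl, h2 j])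
        (fun r hr => by rw [update_of_ne (by omega)]; exact hz r (by omega)) (l1.inv hB) hb.2
      have l3 := run_clear (x := x) (p := 0) (o := o) (l2.inv (l1.inv hB)) d
      have l4 := run_move (x := x) (p := 0) (o := o) (l3.inv (l2.inv (l1.inv hB)))
        (a := d + 1) (b := d) (by omega) (by simpa using hb.2.eval_le)
      refine ((l1.seq (l2.seq (l3.seq l4))).mono (by simp [cost]; omega)).cast ?_
      have := hz (d + 1) (by omega)
      ext r <;> simp only [update_apply, eval]; split_ifs <;> simp_all
  | ren r e, ρ, d, g, o, env, h1, h2, hz, hB, hb =>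
      compile_spec e (fun j => ρ (r j)) d g o (fun j => env (r j)) (fun j => h1 (r j))
        (fun j => h2 (r j)) hz hB hb
  | iter n s t, ρ, d, g, o, env, h1, h2, hz, hB, hb => by
      have l1 := compile_spec s ρ d g o env h1 h2 hz hB hb.2.1
      have l2 := compile_spec (x := x) n ρ (d + 2) (update g d (eval s env)) o env
        (fun j => loc_lt_mono (h1 j) (by omega))
        (fun j => by rw [loc_val_update (h1 j) le_rfl, h2 j])
        (fun r hr => by rw [update_of_ne (by omega)]; exact hz r (by omega)) (l1.inv hB) hb.1
      have hn := hb.1.eval_le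
      let G : ℕ → ℕ → ℕ := fun i =>
        update (update (update g d (acc s t env i)) (d + 1) i) (d + 2) (eval n env - i)
      have hG : ∀ i ≤ eval n env, ∀ r, G i r ≤ B := fun i hi r => by
        have := hB r
        have := hb.acc_le hi
        simp only [G, update_apply]; split_ifs <;> omega
      have l3 := RunLe.loop_seq (M := rsem x) (I := RInv B) (t := .nz (d + 2))
        (P := .seq (.act (.dec (d + 2)))
          (.seq (compile t (Loc.cons (.reg d) (Loc.cons (.reg (d + 1)) ρ)) (d + 3))
            (.seq (clear d) (.seq (move (d + 3) d) (.act (.inc (d + 1)))))))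
        (fun i => ⟨G i, 0, o⟩) (eval n env) ((cost t).eval B + (5 * B + 4)) (fun i hi => ⟨by
          simp [rsem, G]; omega, by
          have a1 := run_dec (x := x) (p := 0) (o := o) (hG i hi.le) (d + 2)
          have a2 := compile_spec (x := x) t (Loc.cons (.reg d) (Loc.cons (.reg (d + 1)) ρ)) (d + 3)
            (update (G i) (d + 2) (G i (d + 2) - 1)) o
            (Env.cons (un (acc s t env i)) (Env.cons (un i) env))
            (fun j => by
              rcases j with _ | _ | j
              · exact (by omega : d < d + 3)
              · exact (by omega : d + 1 < d + 3)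
              · exact loc_lt_mono (h1 j) (by omega))
            (fun j => by
              rcases j with _ | _ | j
              · simp [Loc.cons, Loc.val, G]
              · simp [Loc.cons, Loc.val, G]
              · simp only [Loc.cons, Env.cons_succ, G, h2 j]
                rw [loc_val_update (h1 j) (by omega), loc_val_update (h1 j) (by omega),
                  loc_val_update (h1 j) (by omega), loc_val_update (h1 j) le_rfl])
            (fun r hr => by
              simp only [G]
              rw [update_of_ne (by omega), update_of_ne (by omega), update_of_ne (by omega),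
                update_of_ne (by omega)]
              exact hz r (by omega)) (a1.inv (hG i hi.le)) (hb.2.2 i hi)
          have i2 := a2.inv (a1.inv (hG i hi.le))
          have a3 := run_clear (x := x) (p := 0) (o := o) i2 d
          have a4 := run_move (x := x) (p := 0) (o := o) (a3.inv i2)
            (a := d + 3) (b := d) (by omega) (by simpa using (hb.2.2 i hi).eval_le)
          have a5 := run_inc (x := x) (p := 0) (o := o) (a4.inv (a3.inv i2)) (d + 1)
            (by simp [G]; omega)
          refine ((a1.seq (a2.seq (a3.seq (a4.seq a5)))).mono (by omega)).cast ?_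
          have := hz (d + 3) (by omega)
          ext r <;> simp only [update_apply, G, acc_succ]; split_ifs <;> simp_all <;> omega⟩)
        (by simp [rsem, G])
      have e1 : G 0 = update (update g d (eval s env)) (d + 2) (eval n env) := by
        have := hz (d + 1) (by omega)
        funext r; simp only [update_apply, G]; split_ifs <;> simp_all
      simp only [e1] at l3
      have l4 := run_clear (x := x) (p := 0) (o := o) (hG _ le_rfl) (d + 1)
      refine ((l1.seq (l2.seq (l3.seq l4))).mono ?_).cast ?_
      · have := Nat.mul_le_mul_right ((cost t).eval B + (5 * B + 4) + 1) hn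
        simp [cost]; ring_nf at this ⊢; omega
      · have := hz (d + 1) (by omega)
        have := hz (d + 2) (by omega)
        ext r <;> simp only [update_apply, G, eval_iter]; split_ifs <;> simp_all

end E

end Pool.Agent.Lib.Cx
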