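import Pool.Agent.Lib.Cx.Classes
import Pool.Agent.Lib.Cx.Bits
import Pool.Agent.Lib.Cx.CookLevin
import Pool.Agent.Lib.Cx.Iter

-- merged part: Pool.Agent.Lib.Cx.DfaFam
section
/-!
`LS`-uniform families of deterministic finite automata: products, and hardness of the intersection
problem (for `NP` over a one-letter alphabet).
-/

namespace Pool.Agent.Lib.Cx

open Function Obj

/-- A family of automata: on input `x`, automata number `i < n x` with states `d < S x`. -/
structure Fam (g : ℕ) where
  n : List Bool → ℕ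
  S : List Bool → ℕ
  δ : List Bool → ℕ → ℕ → Fin g → ℕ
  st : List Bool → ℕ → ℕ
  acc : List Bool → ℕ → ℕ → Bool
  ls_n : LS n
  ls_S : LS S
  ls_δ : LS fun p : List Bool × ℕ × ℕ × Fin g => δ p.1 p.2.1 p.2.2.1 p.2.2.2
  ls_st : LS fun p : List Bool × ℕ => st p.1 p.2
  ls_acc : LS fun p : List Bool × ℕ × ℕ => acc p.1 p.2.1 p.2.2
  st_lt : ∀ x i, i < n x → st x i < S x
  δ_lt : ∀ x i d γ, i < n x → d < S x → δ x i d γ < S x

theorem pr_lt {a b A B : ℕ} (ha : a < A) (hb : b < B) : a * B + b < A * B := by nlinarith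

theorem pr_div {a b B : ℕ} (hb : b < B) : (a * B + b) / B = a := by
  rw [Nat.add_comm, Nat.add_mul_div_right _ _ (by omega), Nat.div_eq_of_lt hb, Nat.zero_add]

theorem pr_mod {a b B : ℕ} (hb : b < B) : (a * B + b) % B = b := by
  rw [Nat.add_comm, Nat.add_mul_mod_self_right, Nat.mod_eq_of_lt hb]

theorem div_lt_of_lt {i A B : ℕ} (h : i < A * B) : i / B < A :=
  Nat.div_lt_of_lt_mul (by rwa [Nat.mul_comm])

theorem mod_lt_of_lt {i A B : ℕ} (h : i < A * B) : i % B < B :=
  Nat.mod_lt _ (Nat.pos_of_ne_zero fun e => by simp [e] at h)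

namespace Fam

variable {g : ℕ} {α : Type} [Obj α]

@[fun_prop] theorem ls_n' (F : Fam g) {f : α → List Bool} (hf : LS f) : LS fun a => F.n (f a) :=
  LS.comp _ _ F.ls_n hf
@[fun_prop] theorem ls_S' (F : Fam g) {f : α → List Bool} (hf : LS f) : LS fun a => F.S (f a) :=
  LS.comp _ _ F.ls_S hf
@[fun_prop] theorem ls_δ' (F : Fam g) {f : α → List Bool} {i d : α → ℕ} {γ : α → Fin g}
    (hf : LS f) (hi : LS i) (hd : LS d) (hγ : LS γ) : LS fun a => F.δ (f a) (i a) (d a) (γ a) :=
  LS.comp _ _ F.ls_δ (hf.pair (hi.pair (hd.pair hγ)))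
@[fun_prop] theorem ls_st' (F : Fam g) {f : α → List Bool} {i : α → ℕ} (hf : LS f) (hi : LS i) :
    LS fun a => F.st (f a) (i a) := LS.comp _ _ F.ls_st (hf.pair hi)
@[fun_prop] theorem ls_acc' (F : Fam g) {f : α → List Bool} {i d : α → ℕ} (hf : LS f) (hi : LS i)
    (hd : LS d) : LS fun a => F.acc (f a) (i a) (d a) :=
  LS.comp _ _ F.ls_acc (hf.pair (hi.pair hd))

/-- Acceptance by the `i`-th automaton. -/
def Acc (F : Fam g) (x : List Bool) (i : ℕ) (w : List (Fin g)) : Prop :=
  F.acc x i (w.foldl (F.δ x i) (F.st x i)) = true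

theorem foldl_lt (F : Fam g) {x : List Bool} {i : ℕ} (hi : i < F.n x) (w : List (Fin g)) :
    ∀ {d : ℕ}, d < F.S x → w.foldl (F.δ x i) d < F.S x := by
  induction w with
  | nil => exact id
  | cons γ w ih => exact fun h => ih (F.δ_lt _ _ _ _ hi h)

/-- All products of an automaton of `F` with an automaton of `G`. -/
def prod (F G : Fam g) : Fam g where
  n x := F.n x * G.n x
  S x := F.S x * G.S x
  δ x i d γ := F.δ x (i / G.n x) (d / G.S x) γ * G.S x + G.δ x (i % G.n x) (d % G.S x) γ
  st x i := F.st x (i / G.n x) * G.S x + G.st x (i % G.n x)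
  acc x i d := F.acc x (i / G.n x) (d / G.S x) && G.acc x (i % G.n x) (d % G.S x)
  ls_n := by fun_prop
  ls_S := by fun_prop
  ls_δ := by fun_prop
  ls_st := by fun_prop
  ls_acc := by fun_prop
  st_lt x i h := pr_lt (F.st_lt _ _ (div_lt_of_lt h)) (G.st_lt _ _ (mod_lt_of_lt h))
  δ_lt x i d γ h h' := pr_lt (F.δ_lt _ _ _ _ (div_lt_of_lt h) (div_lt_of_lt h'))
    (G.δ_lt _ _ _ _ (mod_lt_of_lt h) (mod_lt_of_lt h'))

theorem acc_prod (F G : Fam g) {x : List Bool} {i : ℕ} (h : i < F.n x * G.n x) (w : List (Fin g)) :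
    (F.prod G).Acc x i w ↔ F.Acc x (i / G.n x) w ∧ G.Acc x (i % G.n x) w := by
  have hi := mod_lt_of_lt h
  have key : ∀ a b, b < G.S x → w.foldl ((F.prod G).δ x i) (a * G.S x + b) =
      w.foldl (F.δ x (i / G.n x)) a * G.S x + w.foldl (G.δ x (i % G.n x)) b := by
    induction w with
    | nil => exact fun _ _ _ => rfl
    | cons γ w ih =>
      intro a b hb
      simp only [List.foldl_cons]
      rw [← ih _ _ (G.δ_lt _ _ _ _ hi hb)]
      simp only [prod, pr_div hb, pr_mod hb]
  have hb := G.foldl_lt hi w (G.st_lt _ _ hi)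
  unfold Acc
  rw [show (F.prod G).st x i = F.st x (i / G.n x) * G.S x + G.st x (i % G.n x) from rfl,
    key _ _ (G.st_lt _ _ hi)]
  simp only [prod, pr_div hb, pr_mod hb, Bool.and_eq_true]

/-- Amplification: if no word is accepted by all automata, then for any `K` words some product
automaton rejects them all. -/
theorem exists_pow (F : Fam g) (K : ℕ) : ∃ G : Fam g, ∀ x,
    (∀ w, (∀ i < F.n x, F.Acc x i w) → ∀ i < G.n x, G.Acc x i w) ∧
    ((∀ w, ∃ i < F.n x, ¬F.Acc x i w) → ∀ W : List (List (Fin g)), W.length ≤ K →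
      ∃ i < G.n x, ∀ w ∈ W, ¬G.Acc x i w) := by
  induction K with
  | zero =>
    refine ⟨F, fun x => ⟨fun _ h => h, fun h W hW => ?_⟩⟩
    obtain ⟨i, hi, -⟩ := h []
    obtain rfl : W = [] := List.length_eq_zero_iff.1 (by omega)
    exact ⟨i, hi, by simp⟩
  | succ K ih =>
    obtain ⟨G, hG⟩ := ih
    refine ⟨F.prod G, fun x => ⟨fun w h i hi => (acc_prod F G hi w).2
      ⟨h _ (div_lt_of_lt hi), (hG x).1 w h _ (mod_lt_of_lt hi)⟩, fun h W hW => ?_⟩⟩
    obtain ⟨i, hi, hi'⟩ := h (W.headD [])
    obtain ⟨j, hj, hj'⟩ := (hG x).2 h W.tail (by simp; omega)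
    refine ⟨i * G.n x + j, pr_lt hi hj, fun w hw => ?_⟩
    rw [acc_prod F G (pr_lt hi hj), pr_div hj, pr_mod hj]
    rcases W with _ | ⟨w0, W⟩
    · cases hw
    · rcases List.mem_cons.1 hw with rfl | hw
      · exact fun h => hi' h.1
      · exact fun h => hj' w hw h.2

end Fam

/-- The primes up to `n`. -/
def primesUpTo (n : ℕ) : List ℕ :=
  (List.range (n + 1)).filter fun m => decide (2 ≤ m ∧ ∀ j < m, j ∣ m → j = 1)

@[fun_prop] theorem LS.primesUpTo {α : Type} [Obj α] {f : α → ℕ} (hf : LS f) :
    LS fun a => primesUpTo (f a) := by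
  unfold Cx.primesUpTo
  fun_prop

theorem mem_primesUpTo {n p : ℕ} : p ∈ primesUpTo n ↔ p ≤ n ∧ p.Prime := by
  simp [primesUpTo, Nat.prime_def_lt]

theorem nodup_primesUpTo (n : ℕ) : (primesUpTo n).Nodup := List.nodup_range.filter _

theorem length_primesUpTo (V : ℕ) : V ≤ (primesUpTo ((2 * V + 2) ^ 2 - 1)).length := by
  set t := 2 * V + 1 with ht
  set n := (2 * V + 2) ^ 2 - 1 with hn
  have hn1 : n + 1 = (t + 1) ^ 2 := by
    have : 0 < (2 * V + 2) ^ 2 := by positivity
    rw [hn, ht, show 2 * V + 1 + 1 = 2 * V + 2 from rfl]; omega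
  have hn2 : n = t * (t + 2) := by nlinarith
  have e : (primesUpTo n).length = (Nat.primesLE n).card := by
    rw [← List.toFinset_card_of_nodup (nodup_primesUpTo n)]
    congr 1
    ext p
    simp [mem_primesUpTo, Nat.mem_primesLE]
  rw [e]
  set π := (Nat.primesLE n).card
  have h1 := Chebyshev.two_pow_le_mul_lcmUpto n
  have h2 : Nat.lcmUpto n ≤ (n + 1) ^ π := by
    rw [Nat.lcmUpto_eq_prod_pow_log]
    exact Finset.prod_le_pow_card _ _ _ fun p _ =>
      (Nat.pow_log_le_self p (by nlinarith)).trans (Nat.le_succ n)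
  have h3 : n + 1 ≤ 2 ^ (t * 2) := by
    rw [hn1, pow_mul]
    exact Nat.pow_le_pow_left Nat.lt_two_pow_self 2
  have h4 : 2 ^ n ≤ 2 ^ (t * 2 * (π + 1)) := by
    calc 2 ^ n ≤ (n + 1) * (n + 1) ^ π := h1.trans (Nat.mul_le_mul_left _ h2)
      _ = (n + 1) ^ (π + 1) := by ring
      _ ≤ (2 ^ (t * 2)) ^ (π + 1) := Nat.pow_le_pow_left h3 _
      _ = _ := by rw [← pow_mul]
  have h5 : t * (t + 2) ≤ t * (2 * (π + 1)) := by
    rw [← hn2, ← Nat.mul_assoc]
    exact (Nat.pow_le_pow_iff_right (by norm_num)).1 h4
  have := Nat.le_of_mul_le_mul_left h5 (by omega)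
  omega

theorem foldl_succ_mod {β : Type} (m : ℕ) (w : List β) (d : ℕ) :
    w.foldl (fun d _ => (d + 1) % m) (d % m) = (d + w.length) % m := by
  induction w generalizing d with
  | nil => rfl
  | cons _ w ih =>
    rw [List.foldl_cons, Nat.mod_add_mod, ih, List.length_cons]
    congr 1; omega

/-- Intersection of unary automata is `NP`-hard. -/
theorem exists_fam_of_NP {L : List Bool → Bool} (hL : L ∈ N68a2faeb.NP) :
    ∃ F : Fam 1, ∀ x, L x = true ↔ ∃ w, ∀ i < F.n x, F.Acc x i w := by
  obtain ⟨φ, hφ, h3, hsat⟩ := cook_levin_ls L hL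
  let V : List Bool → ℕ := fun x => ((φ x).flatten.map Prod.fst).sum + 1
  let N : List Bool → ℕ := fun x => (2 * V x + 2) ^ 2 - 1
  let pr : List Bool → ℕ → ℕ := fun x v => (primesUpTo (N x)).getD v 1
  let md : List Bool → List (ℕ × Bool) → ℕ := fun x c =>
    pr x (c.getD 0 (0, false)).1 * pr x (c.getD 1 (0, false)).1 * pr x (c.getD 2 (0, false)).1
  have hpr : ∀ x v, 0 < pr x v ∧ pr x v ≤ N x + 1 := fun x v => by
    simp only [pr]
    rcases lt_or_ge v (primesUpTo (N x)).length with h | h
    · rw [List.getD_eq_getElem _ _ h]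
      have := mem_primesUpTo.1 (List.getElem_mem h)
      exact ⟨this.2.pos, this.1.trans (Nat.le_succ _)⟩
    · rw [List.getD_eq_default _ _ h]; omega
  have hmd : ∀ x c, 0 < md x c ∧ md x c ≤ (N x + 1) ^ 3 := fun x c => by
    refine ⟨Nat.mul_pos (Nat.mul_pos (hpr _ _).1 (hpr _ _).1) (hpr _ _).1, ?_⟩
    rw [pow_three, ← Nat.mul_assoc]
    exact Nat.mul_le_mul (Nat.mul_le_mul (hpr _ _).2 (hpr _ _).2) (hpr _ _).2
  let F : Fam 1 :=
    { n := fun x => (φ x).length
      S := fun x => (N x + 1) ^ 3
      δ := fun x i d _ => (d + 1) % md x ((φ x).getD i [])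
      st := fun _ _ => 0
      acc := fun x i d => ((φ x).getD i []).any fun l => decide (d % pr x l.1 = 0) == l.2
      ls_n := by fun_prop
      ls_S := by fun_prop
      ls_δ := by fun_prop
      ls_st := by fun_prop
      ls_acc := by fun_prop
      st_lt := fun x i _ => by positivity
      δ_lt := fun x i d _ _ _ => (Nat.mod_lt _ (hmd _ _).1).trans_le (hmd _ _).2 }
  have hacc : ∀ x w, (∀ i < F.n x, F.Acc x i w) ↔
      ∀ c ∈ φ x, ∃ l ∈ c, decide (w.length % pr x l.1 = 0) = l.2 := fun x w => by
    have one : ∀ i (hi : i < (φ x).length), F.Acc x i w ↔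
        ∃ l ∈ (φ x)[i], decide (w.length % pr x l.1 = 0) = l.2 := fun i hi => by
      have e := foldl_succ_mod (md x ((φ x).getD i [])) w 0
      rw [Nat.zero_mod, Nat.zero_add, List.getD_eq_getElem _ _ hi] at e
      simp only [Fam.Acc, F, e, List.getD_eq_getElem _ _ hi, List.any_eq_true, beq_iff_eq]
      refine exists_congr fun l => and_congr_right fun hl => ?_
      rw [Nat.mod_mod_of_dvd]
      have hc := h3 x _ (List.getElem_mem hi)
      obtain ⟨a, b, c, e⟩ := List.length_eq_three.1 hc
      rw [e] at hl ⊢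
      simp only [List.mem_cons, List.not_mem_nil, or_false] at hl
      simp only [md, List.getD_cons_zero, List.getD_cons_succ]
      rcases hl with rfl | rfl | rfl
      · exact Dvd.dvd.mul_right (Dvd.intro _ rfl) _
      · exact Dvd.dvd.mul_right (Dvd.intro_left _ rfl) _
      · exact Dvd.intro_left _ rfl
    constructor
    · intro h c hc
      obtain ⟨i, hi, rfl⟩ := List.getElem_of_mem hc
      exact (one i hi).1 (h i hi)
    · exact fun h i hi => (one i hi).2 (h _ (List.getElem_mem hi))
  refine ⟨F, fun x => ?_⟩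
  rw [hsat]
  simp only [hacc]
  refine ⟨fun ⟨a, ha⟩ => ?_, fun ⟨w, hw⟩ => ⟨fun v => decide (w.length % pr x v = 0), hw⟩⟩
  have hlen : V x ≤ (primesUpTo (N x)).length := length_primesUpTo _
  have hp : ∀ v < V x, (pr x v).Prime := fun v hv => by
    simp only [pr]
    rw [List.getD_eq_getElem _ _ (hv.trans_le hlen)]
    exact (mem_primesUpTo.1 (List.getElem_mem _)).2
  obtain ⟨k, hk⟩ := Nat.chineseRemainderOfFinset (fun v => if a v then 0 else 1) (pr x)
    (Finset.range (V x)) (fun v _ => (hpr x v).1.ne') (fun u hu v hv huv => by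
      have hu' : u < V x := by simpa using hu
      have hv' : v < V x := by simpa using hv
      refine (Nat.coprime_primes (hp u hu') (hp v hv')).2 fun e => huv ?_
      simp only [pr] at e
      rw [List.getD_eq_getElem _ _ (hu'.trans_le hlen),
        List.getD_eq_getElem _ _ (hv'.trans_le hlen)] at e
      exact (nodup_primesUpTo _).getElem_inj_iff.1 e)
  refine ⟨List.replicate k 0, fun c hc => ?_⟩
  obtain ⟨l, hl, e⟩ := ha c hc
  refine ⟨l, hl, ?_⟩
  have hv : l.1 < V x := Nat.lt_succ_of_le (List.le_sum_of_mem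
    (List.mem_map.2 ⟨l, List.mem_flatten.2 ⟨c, hc, hl⟩, rfl⟩))
  have h1 := hk l.1 (Finset.mem_range.2 hv)
  rw [List.length_replicate, ← e]
  unfold Nat.ModEq at h1
  rw [h1]
  cases a l.1 <;> simp [Nat.mod_eq_of_lt (hp _ hv).one_lt]

end Pool.Agent.Lib.Cx
end

-- merged part: Pool.Agent.Lib.Cx.Savitch
section
/-!
Evaluation of binary trees of polynomial depth in polynomial space, and reachability in implicitly
given graphs (in `PSPACE` for exponentially many vertices, in polynomial time for polynomially
many vertices).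
-/

namespace Pool.Agent.Lib.Cx

open Function Obj Relation

/-- Paths with at most `n` steps. -/
def Pw {V : Type} (E : V → V → Prop) : ℕ → V → V → Prop
  | 0, u, v => u = v
  | n + 1, u, v => Pw E n u v ∨ ∃ w, Pw E n u w ∧ E w v

namespace Pw

variable {V : Type} {E : V → V → Prop}

theorem mono {n m : ℕ} (h : n ≤ m) {u v : V} (hp : Pw E n u v) : Pw E m u v := by
  induction h with
  | refl => exact hp
  | step _ ih => exact .inl ih

theorem refl (n : ℕ) (u : V) : Pw E n u u := mono (Nat.zero_le n) rfl

theorem rtg : ∀ {n : ℕ} {u v : V}, Pw E n u v → ReflTransGen E u v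
  | 0, _, _, h => h ▸ .refl
  | _ + 1, _, _, .inl h => h.rtg
  | _ + 1, _, _, .inr ⟨_, h, e⟩ => h.rtg.tail e

theorem split (a : ℕ) : ∀ {b : ℕ} {u v : V}, Pw E (a + b) u v → ∃ w, Pw E a u w ∧ Pw E b w v
  | 0, _, v, h => ⟨v, h, rfl⟩
  | _ + 1, _, _, .inl h => let ⟨w, h1, h2⟩ := split a h; ⟨w, h1, .inl h2⟩
  | _ + 1, _, _, .inr ⟨w', h, e⟩ => let ⟨w, h1, h2⟩ := split a h; ⟨w, h1, .inr ⟨w', h2, e⟩⟩

theorem mem {S : V → Prop} (hE : ∀ u v, S u → E u v → S v) {n : ℕ} {u v : V} (hu : S u)
    (h : Pw E n u v) : S v := by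
  have := h.rtg
  clear h
  induction this with
  | refl => exact hu
  | tail _ e ih => exact hE _ _ ih e

/-- In a finite graph, reachability is reachability by short paths. -/
theorem of_rtg (S : Finset V) (hE : ∀ u v, u ∈ S → E u v → v ∈ S) {u v : V} (hu : u ∈ S)
    (h : ReflTransGen E u v) : Pw E S.card u v := by
  classical
  have key : ∀ n, (∀ v, ReflTransGen E u v → Pw E n u v) ∨ n < (S.filter (Pw E n u)).card := by
    intro n
    induction n with
    | zero => exact .inr (Finset.card_pos.2 ⟨u, Finset.mem_filter.2 ⟨hu, rfl⟩⟩)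
    | succ n ih =>
      rcases ih with ih | ih
      · exact .inl fun v hv => .inl (ih v hv)
      · by_cases hst : ∀ v, Pw E (n + 1) u v → Pw E n u v
        · refine .inl fun v hv => .inl ?_
          induction hv with
          | refl => exact refl _ _
          | tail _ e ih => exact hst _ (.inr ⟨_, ih, e⟩)
        · push Not at hst
          obtain ⟨v, h1, h2⟩ := hst
          refine .inr (lt_of_le_of_lt ih (Finset.card_lt_card ⟨fun w hw => ?_, fun hw => h2 ?_⟩))
          · exact Finset.mem_filter.2 ⟨(Finset.mem_filter.1 hw).1, .inl (Finset.mem_filter.1 hw).2⟩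
          · exact (Finset.mem_filter.1 (hw (Finset.mem_filter.2
              ⟨h1.mem (S := (· ∈ S)) hE hu, h1⟩))).2
  rcases key S.card with h' | h'
  · exact h' v h
  · exact absurd (Finset.card_filter_le _ _) (not_le.2 h')

end Pw

section sizes

variable {α : Type} [Obj α]

theorem sz_nil : sz ([] : List α) = 0 := by
  simp only [sz, ar_list, Finset.sum_range_succ', enc_list_zero]
  rw [Finset.sum_eq_zero fun j hj => by rw [enc_list_succ _ (Finset.mem_range.1 hj)]; rfl]
  simp

theorem sz_cons (a : α) (l : List α) : sz (a :: l) = sz l + (2 * sz a + ar α + 1) := by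
  have e : ∀ l : List α, sz l = ∑ j ∈ Finset.range (ar α),
      (l.flatMap fun a => dl (enc a j)).length + l.length := fun l => by
    simp only [sz, ar_list, Finset.sum_range_succ', enc_list_zero]
    rw [Finset.sum_congr rfl fun j hj => by rw [enc_list_succ _ (Finset.mem_range.1 hj)]]
    simp
  rw [e, e]
  simp only [List.flatMap_cons, List.length_append, length_dl, Finset.sum_add_distrib,
    List.length_cons, sz, ← Finset.mul_sum, Finset.sum_const, Finset.card_range, smul_eq_mul]
  omega

theorem sz_list_le {l : List α} {B : ℕ} (h : ∀ a ∈ l, sz a ≤ B) :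
    sz l ≤ l.length * (2 * B + ar α + 1) := by
  induction l with
  | nil => simp [sz_nil]
  | cons a l ih =>
    have := ih fun b hb => h b (List.mem_cons_of_mem _ hb)
    have := h a List.mem_cons_self
    rw [sz_cons, List.length_cons, Nat.add_one_mul l.length]; omega

theorem sz_bool_le (b : Bool) : sz b ≤ 1 := by cases b <;> decide

theorem sz_list_bool (l : List Bool) : sz l ≤ 4 * l.length := by
  have := sz_list_le (l := l) (B := 1) fun b _ => sz_bool_le b
  change _ ≤ l.length * 4 at this
  omega

theorem sz_option_bool (o : Option Bool) : sz o ≤ 4 := by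
  have := sz_list_bool o.toList
  have h : sz o = sz o.toList := rfl
  cases o <;> simp_all

end sizes

section tree

variable {β : Type} (child : β → Bool → β) (leaf : β → Bool) (comb : β → Bool → Bool → Bool)

/-- The value of a node of a binary tree of given height. -/
def treeVal : ℕ → β → Bool
  | 0, b => leaf b
  | d + 1, b => comb b (treeVal d (child b false)) (treeVal d (child b true))

/-- One step of depth-first evaluation. -/
def treeStep (s : ℕ × List (β × Option Bool) × β × Option Bool) :
    ℕ × List (β × Option Bool) × β × Option Bool :=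
  if s.2.2.2.isNone then
    if s.2.1.length < s.1 then (s.1, (s.2.2.1, none) :: s.2.1, child s.2.2.1 false, none)
    else (s.1, s.2.1, s.2.2.1, some (leaf s.2.2.1))
  else if (s.2.1.headD (s.2.2.1, none)).2.isNone then
    (s.1, ((s.2.1.headD (s.2.2.1, none)).1, s.2.2.2) :: s.2.1.tail,
      child (s.2.1.headD (s.2.2.1, none)).1 true, none)
  else (s.1, s.2.1.tail, (s.2.1.headD (s.2.2.1, none)).1,
    some (comb (s.2.1.headD (s.2.2.1, none)).1 ((s.2.1.headD (s.2.2.1, none)).2.getD false)
      (s.2.2.2.getD false)))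

/-- A run of an iteration through good states. -/
def Thru {σ : Type} (f : σ → σ) (G : σ → Prop) (s s' : σ) : Prop :=
  ∃ t, f^[t] s = s' ∧ ∀ t' < t, G (f^[t'] s)

theorem Thru.one {σ : Type} {f : σ → σ} {G : σ → Prop} {s s' : σ} (h : f s = s') (hG : G s) :
    Thru f G s s' := ⟨1, h, fun t ht => by obtain rfl : t = 0 := by omega
                                           exact hG⟩

theorem Thru.trans {σ : Type} {f : σ → σ} {G : σ → Prop} {s s' s'' : σ} (h : Thru f G s s')
    (h' : Thru f G s' s'') : Thru f G s s'' := by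
  obtain ⟨a, rfl, h2⟩ := h
  obtain ⟨b, rfl, h4⟩ := h'
  refine ⟨b + a, Function.iterate_add_apply _ _ _ _, fun t ht => ?_⟩
  by_cases h : t < a
  · exact h2 t h
  · obtain ⟨r, rfl⟩ : ∃ r, t = r + a := ⟨t - a, by omega⟩
    rw [Function.iterate_add_apply]
    exact h4 r (by omega)

theorem tree_thru (I : β → Prop) (hI : ∀ b c, I b → I (child b c)) (D : ℕ) (d : ℕ) :
    ∀ (st : List (β × Option Bool)) (b : β), st.length + d = D → I b → (∀ e ∈ st, I e.1) →
      Thru (treeStep child leaf comb) (fun s => (s.2.1.isEmpty && s.2.2.2.isSome) = false ∧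
        s.1 = D ∧ s.2.1.length ≤ D ∧ I s.2.2.1 ∧ ∀ e ∈ s.2.1, I e.1)
        (D, st, b, none) (D, st, b, some (treeVal child leaf comb d b)) := by
  induction d with
  | zero =>
    intro st b h hb hst
    exact .one (by simp [treeStep, treeVal, show ¬ st.length < D by omega])
      ⟨by simp, rfl, by simp; omega, hb, hst⟩
  | succ d ih =>
    intro st b h hb hst
    have hst' : ∀ o : Option Bool, ∀ e ∈ (b, o) :: st, I e.1 := fun o e he => by
      rcases List.mem_cons.1 he with rfl | he
      exacts [hb, hst e he]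
    refine (Thru.one (s' := (D, (b, none) :: st, child b false, none))
      (by simp [treeStep, show st.length < D by omega]) ⟨by simp, rfl, by simp; omega, hb, hst⟩).trans
      ((ih _ _ (by simp; omega) (hI _ _ hb) (hst' _)).trans ((Thru.one (s' := (D, (b,
        some (treeVal child leaf comb d (child b false))) :: st, child b true, none))
          (by simp [treeStep]) ⟨by simp, rfl, by simp; omega, hI _ _ hb, hst' _⟩).trans
      ((ih _ _ (by simp; omega) (hI _ _ hb) (hst' _)).trans (Thru.one
        (by simp [treeStep, treeVal]) ⟨by simp, rfl, by simp; omega, hI _ _ hb, hst' _⟩))))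

variable [Obj β]

/-- Values of trees of polynomial height with polynomial-size labels are in `PSPACE`. -/
theorem treeVal_mem_PSPACE (hc : LS fun p : β × Bool => child p.1 p.2) (hl : LS leaf)
    (hb : LS fun p : β × Bool × Bool => comb p.1 p.2.1 p.2.2) {root : List Bool → β}
    {D : List Bool → ℕ} (hr : LS root) (hD : LS D) (I : List Bool → β → Prop)
    (hI : ∀ x b c, I x b → I x (child b c)) (h0 : ∀ x, I x (root x)) (B : List Bool → ℕ)
    (hB : LS B) (hIB : ∀ x b, I x b → sz b ≤ B x) :
    (fun x => treeVal child leaf comb (D x) (root x)) ∈ PSPACE := by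
  have hc' : ∀ {α : Type} [Obj α] {f : α → β} {g : α → Bool}, LS f → LS g →
      LS fun a => child (f a) (g a) := fun hf hg => LS.comp _ _ hc (hf.pair hg)
  have hb' : ∀ {α : Type} [Obj α] {f : α → β} {g h : α → Bool}, LS f → LS g → LS h →
      LS fun a => comb (f a) (g a) (h a) := fun hf hg hh => LS.comp _ _ hb (hf.pair (hg.pair hh))
  refine mem_PSPACE_of_iter (α := ℕ × List (β × Option Bool) × β × Option Bool)
    (init := fun x => (D x, [], root x, none)) (step := treeStep child leaf comb)
    (done := fun s => s.2.1.isEmpty && s.2.2.2.isSome) (ans := fun s => s.2.2.2.getD false)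
    (by fun_prop) ?_ (by fun_prop) (by fun_prop)
    (fun x => D x + D x * (2 * (B x + 4) + ar (β × Option Bool) + 1) + B x + 4) (by fun_prop)
    fun x => ?_
  · unfold treeStep
    refine LS.ite (by fun_prop) (LS.ite (by fun_prop) ?_ (by fun_prop))
      (LS.ite (by fun_prop) ?_ ?_)
    · exact LS.pair (by fun_prop) (LS.pair (by fun_prop)
        (LS.pair (hc' (by fun_prop) (by fun_prop)) (by fun_prop)))
    · exact LS.pair (by fun_prop) (LS.pair (by fun_prop)
        (LS.pair (hc' (by fun_prop) (by fun_prop)) (by fun_prop)))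
    · exact LS.pair (by fun_prop) (LS.pair (by fun_prop)
        (LS.pair (by fun_prop) (hb' (by fun_prop) (by fun_prop) (by fun_prop)).some))
  · obtain ⟨T, h1, h2⟩ := tree_thru child leaf comb (I x) (hI x) (D x) (D x) [] (root x) (by simp)
      (h0 x) (by simp)
    have hsz : ∀ s : ℕ × List (β × Option Bool) × β × Option Bool, s.1 = D x →
        s.2.1.length ≤ D x → I x s.2.2.1 → (∀ e ∈ s.2.1, I x e.1) →
        sz s ≤ D x + D x * (2 * (B x + 4) + ar (β × Option Bool) + 1) + B x + 4 := by
      rintro ⟨_, st, b, o⟩ rfl h2 h3 h4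
      have a1 := sz_list_le (l := st) (B := B x + 4) fun e he => by
        have := hIB x _ (h4 e he)
        have := sz_option_bool e.2
        rw [sz_prod']; omega
      have a2 := hIB x _ h3
      have a3 := sz_option_bool o
      have a4 := Nat.mul_le_mul_right (2 * (B x + 4) + ar (β × Option Bool) + 1) h2
      simp only [sz_prod, sz_nat] at *
      omega
    refine ⟨T, fun t ht => (h2 t ht).1, by simp [h1], fun t ht => ?_, by simp [h1]⟩
    rcases ht.lt_or_eq with ht | rfl
    · obtain ⟨-, a, b, c, d⟩ := h2 t ht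
      exact hsz _ a b c d
    · rw [h1]
      exact hsz _ rfl (by simp) (h0 x) (by simp)

end tree

section savitch

variable (m : List Bool → ℕ) (E : List Bool → List Bool → List Bool → Bool)

/-- Labels of the recursion tree: input, source, target, partially chosen midpoint. -/
abbrev SLab : Type := List Bool × List Bool × List Bool × List Bool

/-- Children in the recursion tree. -/
def sChild (b : SLab) (c : Bool) : SLab :=
  if b.2.2.2.length < m b.1 then (b.1, b.2.1, b.2.2.1, c :: b.2.2.2)
  else if c then (b.1, b.2.2.2, b.2.2.1, []) else (b.1, b.2.1, b.2.2.2, [])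

/-- Leaves of the recursion tree. -/
def sLeaf (b : SLab) : Bool := decide (b.2.1 = b.2.2.1) || E b.1 b.2.1 b.2.2.1

/-- Inner nodes of the recursion tree. -/
def sComb (b : SLab) (l r : Bool) : Bool := if b.2.2.2.length < m b.1 then l || r else l && r

theorem sVal_block (x u v : List Bool) (d j : ℕ) : ∀ w : List Bool, w.length + j = m x →
    (treeVal (sChild m) (sLeaf E) (sComb m) (d + 1 + j) (x, u, v, w) = true ↔
      ∃ w' : List Bool, w'.length = j ∧
        treeVal (sChild m) (sLeaf E) (sComb m) d (x, u, w' ++ w, []) = true ∧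
        treeVal (sChild m) (sLeaf E) (sComb m) d (x, w' ++ w, v, []) = true) := by
  induction j with
  | zero =>
    intro w hw
    simp [treeVal, sChild, sComb, show ¬ w.length < m x by omega]
  | succ j ih =>
    intro w hw
    have hw' : w.length < m x := by omega
    rw [← Nat.add_assoc, treeVal]
    simp only [sChild, sComb, hw', if_true, Bool.or_eq_true]
    rw [ih _ (by simp; omega), ih _ (by simp; omega)]
    constructor
    · rintro (⟨w', h1, h2⟩ | ⟨w', h1, h2⟩)
      · exact ⟨w' ++ [false], by simp [h1], by simpa using h2⟩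
      · exact ⟨w' ++ [true], by simp [h1], by simpa using h2⟩
    · rintro ⟨w', h1, h2⟩
      obtain ⟨w'', c, rfl⟩ : ∃ w'' c, w' = w'' ++ [c] := by
        rcases List.eq_nil_or_concat w' with rfl | ⟨a, b, rfl⟩
        · simp at h1
        · exact ⟨a, b, by simp⟩
      have h1' : w''.length = j := by simpa using h1
      cases c
      · exact .inl ⟨w'', h1', by simpa using h2⟩
      · exact .inr ⟨w'', h1', by simpa using h2⟩

/-- The value at the roots of the levels. -/
def sR (x : List Bool) (i : ℕ) (u v : List Bool) : Prop :=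
  treeVal (sChild m) (sLeaf E) (sComb m) (i * (m x + 1)) (x, u, v, []) = true

theorem sR_zero (x u v : List Bool) : sR m E x 0 u v ↔ u = v ∨ E x u v = true := by
  simp [sR, treeVal, sLeaf]

theorem sR_succ (x : List Bool) (i : ℕ) (u v : List Bool) : sR m E x (i + 1) u v ↔
    ∃ w : List Bool, w.length = m x ∧ sR m E x i u w ∧ sR m E x i w v := by
  unfold sR
  rw [show (i + 1) * (m x + 1) = i * (m x + 1) + 1 + m x by ring, sVal_block m E x u v _ _ []
    (by simp)]
  simp

/-- Reachability in an implicitly given graph on bit strings of polynomial length. -/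
theorem reach_mem_PSPACE {s : List Bool → List Bool} {A : List Bool → List Bool → Bool}
    (hm : LS m) (hE : LS fun p : List Bool × List Bool × List Bool => E p.1 p.2.1 p.2.2)
    (hs : LS s) (hA : LS fun p : List Bool × List Bool => A p.1 p.2) (hm0 : ∀ x, 0 < m x)
    (hs0 : ∀ x, (s x).length = m x) (hE0 : ∀ x u v, E x u v = true → v.length = m x)
    {L : List Bool → Bool}
    (hL : ∀ x, L x = true ↔ ∃ t, ReflTransGen (fun u v => E x u v = true) (s x) t ∧ A x t = true) :
    L ∈ PSPACE := by
  let E' : List Bool → List Bool → List Bool → Bool := fun x u v =>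
    if v.isEmpty then A x u else E x u v
  have hE1 : ∀ {α : Type} [Obj α] {f g h : α → List Bool}, LS f → LS g → LS h →
      LS fun a => E (f a) (g a) (h a) := fun hf hg hh => LS.comp _ _ hE (hf.pair (hg.pair hh))
  have hA1 : ∀ {α : Type} [Obj α] {f g : α → List Bool}, LS f → LS g →
      LS fun a => A (f a) (g a) := fun hf hg => LS.comp _ _ hA (hf.pair hg)
  have key := treeVal_mem_PSPACE (sChild m) (sLeaf E') (sComb m) (by unfold sChild; fun_prop)
    (by
      unfold sLeaf
      exact LS.or (by fun_prop) (LS.ite (by fun_prop) (hA1 (by fun_prop) (by fun_prop))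
        (hE1 (by fun_prop) (by fun_prop) (by fun_prop))))
    (by unfold sComb; fun_prop) (root := fun x => (x, s x, [], []))
    (D := fun x => (m x + 1) * (m x + 1)) (by fun_prop) (by fun_prop)
    (fun x b => b.1 = x ∧ b.2.1.length ≤ m x ∧ b.2.2.1.length ≤ m x ∧ b.2.2.2.length ≤ m x)
    (by
      rintro x ⟨_, u, v, w⟩ c ⟨rfl, h1, h2, h3⟩
      simp only [sChild]
      split_ifs <;> simp_all)
    (fun x => by simp [hs0]) (fun x => 4 * x.length + 12 * m x) (by fun_prop)
    (by
      rintro _ ⟨x, u, v, w⟩ ⟨rfl, h1, h2, h3⟩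
      have := sz_list_bool x; have := sz_list_bool u; have := sz_list_bool v
      have := sz_list_bool w
      simp only [sz_prod] at *
      omega)
  convert key using 1
  funext x
  have ne : ∀ w : List Bool, w.length = m x → w ≠ [] := fun w h e => by
    have := hm0 x
    simp [e] at h; omega
  have sound : ∀ i u v, sR m E' x i u v →
      (v ≠ [] → ReflTransGen (fun u v => E x u v = true) u v) ∧
      (v = [] → u ≠ [] → ∃ t, ReflTransGen (fun u v => E x u v = true) u t ∧ A x t = true) := by
    intro i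
    induction i with
    | zero =>
      intro u v h
      rcases (sR_zero _ _ _ _ _).1 h with rfl | h
      · exact ⟨fun _ => .refl, fun h1 h2 => absurd h1 h2⟩
      · refine ⟨fun hv => .single (by simpa [E', hv] using h), fun hv _ => ⟨u, .refl, ?_⟩⟩
        simpa [E', hv] using h
    | succ i ih =>
      intro u v h
      obtain ⟨w, h1, h2, h3⟩ := (sR_succ _ _ _ _ _ _).1 h
      refine ⟨fun hv => ((ih _ _ h2).1 (ne w h1)).trans ((ih _ _ h3).1 hv), fun hv _ => ?_⟩
      obtain ⟨t, h4, h5⟩ := (ih _ _ h3).2 hv (ne w h1)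
      exact ⟨t, ((ih _ _ h2).1 (ne w h1)).trans h4, h5⟩
  have len : ∀ {n u v}, u.length = m x → Pw (fun u v => E x u v = true) n u v → v.length = m x :=
    fun hu h => h.mem (S := fun w => w.length = m x) (fun _ _ _ e => hE0 _ _ _ e) hu
  have complete : ∀ i u v, u.length = m x → Pw (fun u v => E x u v = true) (2 ^ i) u v →
      sR m E' x i u v := by
    intro i
    induction i with
    | zero =>
      rintro u v hu (h | ⟨w, rfl, h⟩)
      · exact (sR_zero _ _ _ _ _).2 (.inl h)
      · exact (sR_zero _ _ _ _ _).2 (.inr (by simpa [E', ne v (hE0 _ _ _ h)] using h))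
    | succ i ih =>
      intro u v hu h
      rw [pow_succ, Nat.mul_two] at h
      obtain ⟨w, h1, h2⟩ := Pw.split _ h
      exact (sR_succ _ _ _ _ _ _).2 ⟨w, len hu h1, ih _ _ hu h1, ih _ _ (len hu h1) h2⟩
  have fin : ∀ i t, t.length = m x → A x t = true → sR m E' x i t [] := by
    intro i t ht h
    induction i with
    | zero => exact (sR_zero _ _ _ _ _).2 (.inr (by simpa [E'] using h))
    | succ i ih => exact (sR_succ _ _ _ _ _ _).2 ⟨t, ht, complete _ _ _ ht (Pw.refl _ _), ih⟩
  rw [Bool.eq_iff_iff, hL]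
  change _ ↔ sR m E' x (m x + 1) (s x) []
  constructor
  · rintro ⟨t, h1, h2⟩
    let S : Finset (List Bool) := (Finset.univ : Finset (Fin (m x) → Bool)).image List.ofFn
    have hS : ∀ w : List Bool, w.length = m x → w ∈ S := fun w hw => by
      simp only [S, Finset.mem_image, Finset.mem_univ, true_and]
      rw [← hw]
      exact ⟨w.get, List.ofFn_get w⟩
    have h3 := (Pw.of_rtg S (fun _ _ _ e => hS _ (hE0 _ _ _ e)) (hS _ (hs0 x)) h1).mono
      (m := 2 ^ m x) (Finset.card_image_le.trans (by simp))
    exact (sR_succ _ _ _ _ _ _).2 ⟨t, len (hs0 x) h3, complete _ _ _ (hs0 x) h3,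
      fin _ _ (len (hs0 x) h3) h2⟩
  · exact fun h => (sound _ _ _ h).2 rfl (ne _ (hs0 x))

end savitch

section ptime

/-- The table of a relation on `[0, N)`. -/
noncomputable def relTab (N : ℕ) (R : ℕ → ℕ → Prop) : List Bool := by
  classical
  exact (List.range N).flatMap fun i => (List.range N).map fun j => decide (R i j)

theorem getD_relTab {N : ℕ} (R : ℕ → ℕ → Prop) {i j : ℕ} (hi : i < N) (hj : j < N) :
    (relTab N R).getD (i * N + j) false = true ↔ R i j := by
  unfold relTab
  rw [getD_matrix _ _ _ _ hi hj]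
  simp

/-- Predicates that are `LS` in the input and the reachability table of an implicitly given graph
on polynomially many vertices are computable in polynomial time. -/
theorem PTime.of_reach {N : List Bool → ℕ} {E : List Bool → ℕ → ℕ → Bool}
    {fin : List Bool → List Bool → Bool} (hN : LS N)
    (hE : LS fun p : List Bool × ℕ × ℕ => E p.1 p.2.1 p.2.2)
    (hf : LS fun p : List Bool × List Bool => fin p.1 p.2) :
    PTime fun x => fin x (relTab (N x) (ReflTransGen fun i j => j < N x ∧ E x i j = true)) := by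
  have hE1 : ∀ {α : Type} [Obj α] {f : α → List Bool} {g h : α → ℕ}, LS f → LS g → LS h →
      LS fun a => E (f a) (g a) (h a) := fun hf hg hh => LS.comp _ _ hE (hf.pair (hg.pair hh))
  let step : List Bool × List Bool → List Bool × List Bool := fun s =>
    (s.1, (List.range (N s.1)).flatMap fun i => (List.range (N s.1)).map fun j =>
      s.2.getD (i * N s.1 + j) false ||
        (List.range (N s.1)).any fun k => s.2.getD (i * N s.1 + k) false && E s.1 k j)
  let init : List Bool → List Bool × List Bool := fun x =>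
    (x, (List.range (N x)).flatMap fun i => (List.range (N x)).map fun j => decide (i = j))
  have tab_congr : ∀ (n : ℕ) (f : ℕ → ℕ → Bool) (R : ℕ → ℕ → Prop),
      (∀ i < n, ∀ j < n, f i j = true ↔ R i j) →
      ((List.range n).flatMap fun i => (List.range n).map (f i)) = relTab n R := by
    intro n f R h
    unfold relTab
    refine List.flatMap_congr fun i hi => List.map_congr_left fun j hj => ?_
    rw [Bool.eq_iff_iff, h i (List.mem_range.1 hi) j (List.mem_range.1 hj)]
    simp
  have it : ∀ x t, step^[t] (init x) =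
      (x, relTab (N x) (Pw (fun i j => j < N x ∧ E x i j = true) t)) := by
    intro x t
    induction t with
    | zero => exact congrArg (Prod.mk x) (tab_congr _ _ _ fun i _ j _ => by simp [Pw])
    | succ t ih =>
      rw [Function.iterate_succ_apply', ih]
      refine congrArg (Prod.mk x) (tab_congr _ _ _ fun i hi j hj => ?_)
      simp only [Bool.or_eq_true, getD_relTab _ hi hj, List.any_eq_true, List.mem_range,
        Bool.and_eq_true, Pw]
      refine or_congr_right ⟨fun ⟨k, hk, h1, h2⟩ => ⟨k, (getD_relTab _ hi hk).1 h1, hj, h2⟩,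
        fun ⟨k, h1, _, h2⟩ => ?_⟩
      have hk : k < N x := h1.mem (S := (· < N x)) (fun _ _ _ e => e.1) hi
      exact ⟨k, hk, (getD_relTab _ hi hk).2 h1, h2⟩
  refine (PTime.of_iter (init := init) (step := step) (ans := fun s => fin s.1 s.2) (N := N)
    (by fun_prop) ?_ hf hN (fun x => 4 * x.length + 4 * (N x * N x)) (by fun_prop)
    fun x t _ => ?_).congr fun x => ?_
  · refine LS.pair (by fun_prop) (LS.flatMap (by fun_prop) (LS.map (by fun_prop)
      (LS.or (by fun_prop) (LS.any (by fun_prop) (LS.and (by fun_prop) ?_)))))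
    exact hE1 (by fun_prop) (by fun_prop) (by fun_prop)
  · rw [it, sz_prod]
    have := sz_list_bool x
    have := sz_list_bool (relTab (N x) (Pw (fun i j => j < N x ∧ E x i j = true) t))
    rw [relTab, length_matrix] at this
    rw [relTab]
    omega
  · rw [it]
    congr 1
    unfold relTab
    refine List.flatMap_congr fun i hi => List.map_congr_left fun j _ => ?_
    rw [decide_eq_decide]
    refine ⟨Pw.rtg, fun h => ?_⟩
    simpa using Pw.of_rtg (Finset.range (N x)) (fun _ _ _ e => Finset.mem_range.2 e.1)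
      (Finset.mem_range.2 (List.mem_range.1 hi)) h

end ptime

end Pool.Agent.Lib.Cx
end
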