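import Pool.Agent.Lib.Cx.Off
import Mathlib.Computability.TuringMachine.Computable

/-!
Pure stack programs, the simulation of offline programs by them, and their translation to
`Turing.FinTM2`.
-/

namespace Pool.Agent.Lib.Cx

open Function Prog Obj Turing

/-- Stack actions: push a bit, or pop. -/
inductive SA : Type
  | push : ℕ → Bool → SA
  | pop : ℕ → SA

/-- Stack tests look at the tops of two stacks. -/
abbrev ST : Type := ℕ × ℕ × (Option Bool → Option Bool → Bool)

/-- Semantics of stack programs. -/
def ssem : Sem SA ST Env where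
  act
    | .push k b, s => update s k (b :: s k)
    | .pop k, s => update s k (s k).tail
  test t s := t.2.2 (s t.1).head? (s t.2.1).head?

/-- All stacks have length at most `S`. -/
def SInv (S : ℕ) (s : Env) : Prop := ∀ k, (s k).length ≤ S

/-- Stack programs. -/
abbrev SP := Prog SA ST

theorem ssem_act_length (a : SA) (s : Env) (k : ℕ) :
    (ssem.act a s k).length ≤ (s k).length + 1 := by
  cases a <;> simp only [ssem, update_apply] <;> split_ifs with h <;> simp [h]; omega

theorem Run.space {I : Env → Prop} {P : SP} {s u : Env} {n : ℕ} (h : Run ssem I P s u n) {m : ℕ}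
    (hs : SInv m s) : Run ssem (SInv (m + n)) P s u n ∧ SInv (m + n) u := by
  have mono : ∀ {a b : ℕ}, a ≤ b → ∀ s, SInv a s → SInv b s := fun h _ h' k => (h' k).trans h
  induction h generalizing m with
  | skip s => exact ⟨.skip _, mono (by omega) _ hs⟩
  | act a s _ =>
    have : SInv (m + 1) (ssem.act a s) := fun k =>
      (ssem_act_length a s k).trans (Nat.succ_le_succ (hs k))
    exact ⟨.act _ _ this, this⟩
  | seq _ _ ih1 ih2 =>
    obtain ⟨a, b⟩ := ih1 hs
    obtain ⟨c, d⟩ := ih2 b
    exact ⟨.seq (a.imp (mono (by omega))) (c.imp (mono (by omega))), mono (by omega) _ d⟩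
  | iteT ht _ ih =>
    obtain ⟨a, b⟩ := ih hs
    exact ⟨.iteT ht (a.imp (mono (by omega))), mono (by omega) _ b⟩
  | iteF ht _ ih =>
    obtain ⟨a, b⟩ := ih hs
    exact ⟨.iteF ht (a.imp (mono (by omega))), mono (by omega) _ b⟩
  | loopF ht => exact ⟨.loopF ht, mono (by omega) _ hs⟩
  | loopT ht _ _ ih1 ih2 =>
    obtain ⟨a, b⟩ := ih1 hs
    obtain ⟨c, d⟩ := ih2 b
    exact ⟨.loopT ht (a.imp (mono (by omega))) (c.imp (mono (by omega))), mono (by omega) _ d⟩

theorem RunLe.space {I : Env → Prop} {P : SP} {s u : Env} {n : ℕ} (h : RunLe ssem I P s u n)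
    {m : ℕ} (hs : SInv m s) : RunLe ssem (SInv (m + n)) P s u n := by
  obtain ⟨k, hk, h⟩ := h
  exact ⟨k, hk, (Run.space h hs).1.imp fun _ h' j => (h' j).trans (by omega)⟩

namespace SP

/-- A test on one stack. -/
def top (k : ℕ) (φ : Option Bool → Bool) : ST := (k, k, fun a _ => φ a)

/-- Move the top of stack `a` to stack `b`. -/
def mv (a b : ℕ) : SP := .ite (top a fun o => o.getD false)
  (.seq (.act (.pop a)) (.act (.push b true))) (.seq (.act (.pop a)) (.act (.push b false)))

/-- Empty a stack. -/
def clear (a : ℕ) : SP := .loop (top a Option.isSome) (.act (.pop a))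

/-- Move a whole stack on top of another one, reversing it. -/
def pour (a b : ℕ) : SP := .loop (top a Option.isSome) (mv a b)

theorem run_mv {s : Env} {a b : ℕ} (hab : a ≠ b) {c : Bool} {l : List Bool} (h : s a = c :: l) :
    RunLe ssem (fun _ => True) (mv a b) s (update (update s a l) b (c :: s b)) 3 := by
  have key : RunLe ssem (fun _ => True) (.seq (.act (.pop a)) (.act (.push b c))) s
      (update (update s a l) b (c :: s b)) 2 :=
    (RunLe.act (M := ssem) (.pop a) s rfl trivial).seq
      (.act _ _ (by simp [ssem, h, update_of_ne hab.symm]) trivial)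
  cases c
  · exact key.iteF (by simp [ssem, top, h])
  · exact key.iteT (by simp [ssem, top, h])

theorem run_clear (s : Env) (a : ℕ) :
    RunLe ssem (fun _ => True) (clear a) s (update s a []) (2 * (s a).length + 1) := by
  have := RunLe.loop_seq (M := ssem) (I := fun _ => True) (t := top a Option.isSome)
    (P := .act (.pop a)) (fun i => update s a ((s a).drop i)) (s a).length 1
    (fun i hi => ⟨by simp [ssem, top, hi], .act _ _ (by simp [ssem]) trivial⟩)
    (by simp [ssem, top])
  simp only [List.drop_zero, update_eq_self, List.drop_length] at this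
  exact this.mono (by omega)

theorem run_pour (s : Env) {a b : ℕ} (hab : a ≠ b) :
    RunLe ssem (fun _ => True) (pour a b) s (update (update s a []) b ((s a).reverse ++ s b))
      (4 * (s a).length + 1) := by
  have := RunLe.loop_seq (M := ssem) (I := fun _ => True) (t := top a Option.isSome)
    (P := mv a b) (fun i => update (update s a ((s a).drop i)) b (((s a).take i).reverse ++ s b))
    (s a).length 3
    (fun i hi => ⟨by simp [ssem, top, hi, update_of_ne hab], by
      refine (run_mv hab (c := (s a)[i]) (l := (s a).drop (i + 1))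
        (by simp [update_of_ne hab])).cast ?_
      funext k
      simp only [update_apply, List.take_succ_eq_append_getElem hi]
      split_ifs <;> simp_all [-List.take_append_getElem]⟩)
    (by simp [ssem, top, update_of_ne hab])
  simp only [List.drop_zero, update_eq_self, List.drop_length, List.take_zero, List.reverse_nil,
    List.nil_append, List.take_length] at this
  exact this.mono (by omega)

end SP

/-- Translation of offline actions: stack `0` holds the unread input, stack `1` the input already
passed, stack `2` flags the right end, stack `3` the output. -/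
def OA.toS : OA → SP
  | .push k b => .act (.push (k + 4) b)
  | .pop k => .act (.pop (k + 4))
  | .mvL => .ite (SP.top 2 Option.isSome) (.act (.pop 2))
      (.ite (SP.top 1 Option.isSome) (SP.mv 1 0) .skip)
  | .mvR => .ite (SP.top 2 Option.isSome) .skip
      (.ite (SP.top 0 Option.isSome) (SP.mv 0 1) (.act (.push 2 true)))
  | .out b => .act (.push 3 b)

/-- Translation of offline tests. -/
def OT.toS : OT → ST
  | .top k φ => SP.top (k + 4) φ
  | .sym φ => (2, 1, fun f l => φ (if f.isSome then none else l))

/-- Representation of an offline state by stacks. -/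
def OS.toS (x : List Bool) (s : OS) : Env
  | 0 => x.drop s.pos
  | 1 => (x.take s.pos).reverse
  | 2 => if s.pos = x.length + 1 then [true] else []
  | 3 => s.out.reverse
  | k + 4 => s.stk k

theorem env_ext4 {s u : Env} (h0 : s 0 = u 0) (h1 : s 1 = u 1) (h2 : s 2 = u 2) (h3 : s 3 = u 3)
    (h : ∀ k, s (k + 4) = u (k + 4)) : s = u := by
  funext k
  rcases k with _ | _ | _ | _ | k
  exacts [h0, h1, h2, h3, h k]

theorem RunLe.toS {x : List Bool} {I : OS → Prop} {n : ℕ} {P : OP} {s u : OS}
    (h : RunLe (osem x) I P s u n) (hs : I s) (hp : s.pos ≤ x.length + 1) :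
    RunLe ssem (fun _ => True) (P.bind OA.toS OT.toS) (s.toS x) (u.toS x) (5 * n) := by
  obtain ⟨u', a, b⟩ := RunLe.bind (M := osem x) (M' := ssem) (I' := fun _ => True)
    (f := OA.toS) (g := OT.toS) (fun s s' => s' = s.toS x ∧ s.pos ≤ x.length + 1) (c := 5)
    (by omega)
    (fun a _ s s' hR _ _ => by
      obtain ⟨rfl, hp⟩ := hR
      refine ⟨_, ?_, rfl, by cases a <;> simp only [osem] <;> omega⟩
      cases a with
      | push k b =>
        refine (RunLe.act _ _ ?_ trivial).mono (by omega)
        apply env_ext4 <;> simp [ssem, osem, OS.toS, update_apply]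
      | pop k =>
        refine (RunLe.act _ _ ?_ trivial).mono (by omega)
        apply env_ext4 <;> simp [ssem, osem, OS.toS, update_apply]
      | out b =>
        refine (RunLe.act _ _ ?_ trivial).mono (by omega)
        apply env_ext4 <;> simp [ssem, osem, OS.toS]
      | mvL =>
        by_cases h1 : s.pos = x.length + 1
        · refine RunLe.mono (n := 1 + 1) (RunLe.iteT ?_ (RunLe.act _ _ ?_ trivial)) (by omega)
          · simp [ssem, SP.top, OS.toS, h1]
          · apply env_ext4 <;> simp [ssem, osem, OS.toS, h1]
        · refine RunLe.iteF (by simp [ssem, SP.top, OS.toS, h1]) ?_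
          rcases h2 : s.pos with _ | m
          · refine RunLe.mono (n := 1 + 1) (RunLe.iteF ?_ ((RunLe.skip _).cast ?_)) (by omega)
            · simp [ssem, SP.top, OS.toS, h2]
            · apply env_ext4 <;> simp [osem, OS.toS, h2]
          · have hm : m < x.length := by omega
            have e : s.toS x 1 = x[m] :: (x.take m).reverse := by
              simp only [OS.toS, h2, List.take_succ_eq_append_getElem hm]; simp
            refine RunLe.iteT (by simp [ssem, SP.top, e]) ((SP.run_mv (by omega) e).cast ?_)
            have hm' : ¬ m = x.length + 1 := by omega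
            have hm'' : ¬ m = x.length := by omega
            apply env_ext4 <;> simp [osem, OS.toS, h2, hm', hm'']
      | mvR =>
        by_cases h1 : s.pos = x.length + 1
        · refine RunLe.mono (n := 1 + 1) (RunLe.iteT ?_ ((RunLe.skip _).cast ?_)) (by omega)
          · simp [ssem, SP.top, OS.toS, h1]
          · apply env_ext4 <;> simp [osem, OS.toS, h1]
        · refine RunLe.iteF (by simp [ssem, SP.top, OS.toS, h1]) ?_
          by_cases h2 : s.pos = x.length
          · refine RunLe.mono (n := 1 + 1 ) (RunLe.iteF ?_ (RunLe.act _ _ ?_ trivial)) (by omega)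
            · simp [ssem, SP.top, OS.toS, h2]
            · apply env_ext4 <;> simp [ssem, osem, OS.toS, h2]
          · have hm : s.pos < x.length := by omega
            have e : s.toS x 0 = x[s.pos] :: x.drop (s.pos + 1) := by simp [OS.toS]
            have e' : min (s.pos + 1) (x.length + 1) = s.pos + 1 := by omega
            refine RunLe.iteT (by simp only [ssem, SP.top, e]; rfl)
              ((SP.run_mv (by omega) e).cast ?_)
            apply env_ext4 <;> simp only [osem, e'] <;>
              simp [OS.toS, h1, h2, List.take_succ_eq_append_getElem hm,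
                -List.take_append_getElem])
    (fun t _ s s' hR => by
      obtain ⟨rfl, hp⟩ := hR
      cases t with
      | top k φ => rfl
      | sym φ =>
        simp only [OT.toS, ssem, osem, OS.toS, rd]
        congr 1
        by_cases h1 : s.pos = x.length + 1
        · simp [h1]
        · rcases h2 : s.pos with _ | m
          · simp
          · have hm : m < x.length := by omega
            rw [List.take_succ_eq_append_getElem hm]
            have : ¬ m = x.length := by omega
            simp [this, hm, -List.take_append_getElem]) h (all_true P) hs ⟨rfl, hp⟩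
  exact b.1 ▸ a

/-- `P` transforms `x` into `y` on stack `0` within `n` steps. -/
def SComp (P : SP) (x y : List Bool) (n : ℕ) : Prop :=
  RunLe ssem (fun _ => True) P (Env.one x) (Env.one y) n

/-- An `LS` function into strings is computed in place by a stack program in polynomial time. -/
theorem LS.exists_sp {α : Type} [Obj α] {f : α → Str} (hf : LS f) (c : α → List Bool)
    (hc : ∀ a, enc a = Env.one (c a)) :
    ∃ (P : SP) (q : Polynomial ℕ), ∀ a, SComp P (c a) (f a).val (q.eval (c a).length) := by
  obtain ⟨P, p, q, h⟩ := hf.exists_op c hc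
  obtain ⟨r, hr⟩ := hf.bound
  refine ⟨.seq (P.bind OA.toS OT.toS) (.seq (SP.clear 0) (SP.pour 3 0)),
    5 * q + (2 * Polynomial.X + 1 + (4 * r + 1)), fun a => ?_⟩
  have l1 := RunLe.toS (h a) (fun _ => Nat.zero_le _) (Nat.zero_le _)
  have e : OS.toS (c a) ⟨fun _ => [], 0, []⟩ = Env.one (c a) := by
    apply env_ext4 <;> simp [OS.toS]
  rw [e] at l1
  have l2 := SP.run_clear (OS.toS (c a) ⟨fun _ => [], 0, (f a).val⟩) 0
  have l3 := SP.run_pour (update (OS.toS (c a) ⟨fun _ => [], 0, (f a).val⟩) 0 []) (a := 3) (b := 0)
    (by omega)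
  refine ((l1.seq (l2.seq l3)).mono ?_).cast ?_
  · have := hr a
    rw [sz_eq_of_one (hc a), sz_str] at this
    simp [OS.toS]; omega
  · apply env_ext4 <;> simp [OS.toS]

/-- The index of a stack among `m + 1` stacks. -/
def fk (m k : ℕ) : Fin (m + 1) := ⟨min k m, by omega⟩

/-- Jump to a label or halt. -/
def jump {m : ℕ} {L : Type} :
    Option L → TM2.Stmt (fun _ : Fin (m + 1) => Bool) L (Option Bool × Option Bool)
  | none => .halt
  | some l => .goto fun _ => l

/-- The statement executing a flowchart node. -/
def nodeStmt (m : ℕ) {L : Type} : Node SA ST (Option L) →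
    TM2.Stmt (fun _ : Fin (m + 1) => Bool) L (Option Bool × Option Bool)
  | .nop q => jump q
  | .act (.push k b) q => .push (fk m k) (fun _ => b) (jump q)
  | .act (.pop k) q => .pop (fk m k) (fun v _ => v) (jump q)
  | .test t q q' => .peek (fk m t.1) (fun v o => (o, v.2)) (.peek (fk m t.2.1) (fun v o => (v.1, o))
      (.branch (fun v => t.2.2 v.1 v.2) (.load (fun _ => (none, none)) (jump q))
        (.load (fun _ => (none, none)) (jump q'))))

/-- The machine of a stack program using the first `m + 1` stacks. -/
noncomputable def SP.tm (P : SP) (m : ℕ) : FinTM2 where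
  K := Fin (m + 1)
  k₀ := 0
  k₁ := 0
  Γ _ := Bool
  Λ := Lbl P
  main := entry P
  ΛFin := Fintype.ofFinite _
  σ := Option Bool × Option Bool
  initialState := (none, none)
  m l := nodeStmt m (node P l)

/-- The largest stack index of an action. -/
def SA.idx : SA → ℕ
  | .push k _ => k
  | .pop k => k

/-- The machine configuration of a flowchart configuration. -/
def SP.cfg (P : SP) (m : ℕ) (c : Option (Lbl P) × Env) : (P.tm m).Cfg :=
  ⟨c.1, (none, none), fun k : Fin (m + 1) => c.2 k⟩

theorem stepAux_jump {m : ℕ} {L : Type} (q : Option L) (v : Option Bool × Option Bool)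
    (S : Fin (m + 1) → List Bool) : TM2.stepAux (jump q) v S = ⟨q, v, S⟩ := by
  cases q <;> rfl

theorem SP.step_cfg (P : SP) (m : ℕ)
    (hP : All (fun a => a.idx < m) (fun t => max t.1 t.2.1 < m) P) (l : Lbl P) (s : Env) :
    (P.tm m).step (P.cfg m (some l, s)) = some (P.cfg m ((node P l).exec ssem s)) := by
  have h := hP.node l
  have hup : ∀ k < m, ∀ v : List Bool, update (fun j : Fin (m + 1) => s j) (fk m k) v =
      fun j : Fin (m + 1) => update s k v j := fun k hk v => by
    funext j
    simp only [update_apply, fk, Fin.ext_iff, min_eq_left hk.le]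
  have hfk : ∀ k < m, ((fk m k : Fin (m + 1)) : ℕ) = k := fun k hk => min_eq_left hk.le
  change some (TM2.stepAux (nodeStmt m (node P l)) (none, none) fun k : Fin (m + 1) => s k) = _
  congr 1
  revert h
  rcases node P l with q | ⟨⟨k, b⟩ | k, q⟩ | ⟨t, q, q'⟩ <;> intro h
  · exact stepAux_jump _ _ _
  · simp only [nodeStmt, TM2.stepAux, stepAux_jump, hup k h, hfk k h]; rfl
  · simp only [nodeStmt, TM2.stepAux, stepAux_jump, hup k h, hfk k h]; rfl
  · have h' : max t.1 t.2.1 < m := h
    simp only [nodeStmt, TM2.stepAux, stepAux_jump, hfk t.1 (by omega), hfk t.2.1 (by omega)]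
    simp only [Node.exec, ssem, SP.cfg]
    by_cases ht : t.2.2 (s t.1).head? (s t.2.1).head? = true
    · simp only [ht]; rfl
    · simp only [Bool.eq_false_iff.2 ht]; rfl

theorem iterate_bind_none {σ : Type} (f : σ → Option σ) (n : ℕ) :
    (flip Bind.bind f)^[n] (none : Option σ) = none :=
  Function.iterate_fixed rfl n

theorem Steps.tm {P : SP} {m : ℕ} (hP : All (fun a => a.idx < m) (fun t => max t.1 t.2.1 < m) P)
    {I : Env → Prop} {c c' : Option (Lbl P) × Env} {n : ℕ} (h : Steps ssem I (node P) c c' n)
    (hc : I c.2) (hc' : c'.1 = none) :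
    (flip Bind.bind (P.tm m).step)^[n] (some (P.cfg m c)) = some (P.cfg m c') ∧
      ∀ t d, (flip Bind.bind (P.tm m).step)^[t] (some (P.cfg m c)) = some d →
        ∃ e, d = P.cfg m e ∧ I e.2 := by
  induction h with
  | refl c =>
    refine ⟨rfl, fun t d hd => ?_⟩
    rcases t with _ | t
    · exact ⟨c, (Option.some.inj hd).symm, hc⟩
    · obtain ⟨o, s⟩ := c
      obtain rfl : o = none := hc'
      rw [Function.iterate_succ_apply] at hd
      change (flip Bind.bind (P.tm m).step)^[t] none = _ at hd
      rw [iterate_bind_none] at hd; cases hd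
  | step l s hI _ ih =>
    obtain ⟨a, b⟩ := ih hI hc'
    have e : flip Bind.bind (P.tm m).step (some (P.cfg m (some l, s))) =
      some (P.cfg m ((node P l).exec ssem s)) := P.step_cfg m hP l s
    refine ⟨by rw [Function.iterate_succ_apply, e, a], fun t d hd => ?_⟩
    rcases t with _ | t
    · exact ⟨_, (Option.some.inj hd).symm, hc⟩
    · rw [Function.iterate_succ_apply, e] at hd
      exact b t d hd

theorem SP.initList_eq (P : SP) (m : ℕ) (x : List Bool) :
    initList (P.tm m) x = P.cfg m (some (entry P), Env.one x) := by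
  simp only [initList, SP.cfg]
  congr 1
  funext k
  rcases k with ⟨_ | k, hk⟩
  · rfl
  · rw [dif_neg (by intro h; cases h)]; rfl

theorem SP.haltList_eq (P : SP) (m : ℕ) (x : List Bool) :
    haltList (P.tm m) x = P.cfg m (none, Env.one x) := by
  simp only [haltList, SP.cfg]
  congr 1
  funext k
  rcases k with ⟨_ | k, hk⟩
  · rfl
  · rw [dif_neg (by intro h; cases h)]; rfl

/-- The machine of a stack program with Boolean input and output alphabets. -/
noncomputable def SP.aux (P : SP) (m : ℕ) : TM2ComputableAux Bool Bool :=
  ⟨P.tm m, Equiv.refl _, Equiv.refl _⟩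

/-- A stack program yields a machine with the same input-output behaviour, time and space. -/
theorem SP.exists_tm (P : SP) : ∃ m, ∀ (x y : List Bool) (n S : ℕ), x.length ≤ S →
    RunLe ssem (SInv S) P (Env.one x) (Env.one y) n →
      Nonempty (TM2OutputsInTime (P.tm m) x (some y) n) ∧
      ∀ t d, (flip Bind.bind (P.tm m).step)^[t] (some (initList (P.tm m) x)) = some d →
        ∀ k, (d.stk k).length ≤ S := by
  obtain ⟨m, hm⟩ := exists_all_lt SA.idx (fun t : ST => max t.1 t.2.1) P
  refine ⟨m, fun x y n S hx ⟨k, hk, h⟩ => ?_⟩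
  have hI : SInv S (Env.one x) := fun j => by rcases j with _ | j <;> simp [hx]
  obtain ⟨a, b⟩ := (h.steps hI).tm hm hI rfl
  refine ⟨⟨⟨⟨k, ?_⟩, hk⟩⟩, fun t d hd j => ?_⟩
  · rw [SP.initList_eq]; simp only [Option.map_some]; rw [SP.haltList_eq]; exact a
  · rw [SP.initList_eq] at hd
    obtain ⟨e, rfl, he⟩ := b t d hd
    exact he _

/-- Polynomial-time stack programs give `TM2ComputableInPolyTime`. -/
theorem SP.polyTime {α β : Type} (ea : α → List Bool) (eb : β → List Bool) (f : α → β) (P : SP)
    (q : Polynomial ℕ) (h : ∀ a, SComp P (ea a) (eb (f a)) (q.eval (ea a).length)) :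
    Nonempty (TM2ComputableInPolyTime ea eb f) := by
  obtain ⟨m, hm⟩ := P.exists_tm
  refine ⟨⟨P.aux m, q, fun a => Classical.choice ?_⟩⟩
  have hI : SInv (ea a).length (Env.one (ea a)) := fun j => by rcases j with _ | j <;> simp
  have := (hm _ _ _ _ (Nat.le_add_right _ _) (RunLe.space (h a) hI)).1
  have e : ∀ l l' : List Bool, Nonempty (TM2OutputsInTime (P.tm m) l (some l') (q.eval (ea a).length))
      → Nonempty (TM2OutputsInTime (P.tm m) (List.map id l : List Bool)
        (some (List.map id l' : List Bool)) (q.eval (ea a).length)) := fun l l' h => by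
    rwa [List.map_id, List.map_id]
  exact e _ _ this

end Pool.Agent.Lib.Cx
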